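import Pool.Agent.AELT.Defs
import Pool.Agent.AECat.Median

/-!
# Every oriented tree with `n` vertices is contained in every tournament with `4 n` vertices (in the form `Un`)
-/

namespace AEX

open Finset AE15 AED AELT
open scoped Classical

variable {V : Type*} {R : V → V → Prop}

/-- the component of the common vertex with respect to the arcs towards it -/
def cmp : Fd → Fd
  | .nil => .nil
  | .node d c s => if d then cmp s else .node false (cmp c) (cmp s)

theorem cmp_size_le (F : Fd) : (cmp F).size ≤ F.size := by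
  induction F with
  | nil => simp [cmp]
  | node d c s ihc ihs =>
    cases d
    · simp only [cmp, Bool.false_eq_true, if_false, Fd.size]
      omega
    · simp only [cmp, if_true, Fd.size]
      omega

/-- all arcs go towards the common vertex -/
def Inw : Fd → Prop
  | .nil => True
  | .node d c s => d = false ∧ Inw c ∧ Inw s

theorem inw_cmp (F : Fd) : Inw (cmp F) := by
  induction F with
  | nil => trivial
  | node d c s ihc ihs =>
    cases d
    · simp only [cmp, Bool.false_eq_true, if_false]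
      exact ⟨rfl, ihc, ihs⟩
    · simp only [cmp, if_true]
      exact ihs

/-- in-arborescences -/
theorem inw_emb {X : Finset V} {v : ℕ → V} (hv : AECat.Med (fun a b => R b a) X v) (F : Fd) (hF : Inw F) :
    ∀ (N : ℕ) (I : Finset ℕ) (z : ℕ), AECat.Sta N I → z ∈ I → N + 2 * F.size ≤ X.card →
      ∃ J : Finset ℕ, Disjoint I J ∧ AECat.Sta (N + 2 * F.size) (I ∪ J) ∧ Emb R F (v z) (J.image v) := by
  induction F with
  | nil =>
    intro N I z hS _ _
    exact ⟨∅, disjoint_empty_right _, by simpa [Fd.size] using hS, by simp [AED.Emb]⟩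
  | node d c s ihc ihs =>
    obtain ⟨hd, hc, hs⟩ := hF
    subst hd
    intro N I z hS hz hN
    simp only [Fd.size] at hN ⊢
    obtain ⟨w, hw1, hw2, hw3⟩ := hS.leaf hv (by omega) hz
    have hS1 := hS.ins hw2
    obtain ⟨J₁, j1, j2, j3⟩ := ihc hc (N + 2) (insert w I) w hS1 (mem_insert_self _ _) (by omega)
    obtain ⟨J₂, k1, k2, k3⟩ := ihs hs _ (insert w I ∪ J₁) z j2 (mem_union_left _ (mem_insert_of_mem hz)) (by omega)
    rw [disjoint_insert_left] at j1
    rw [disjoint_union_left, disjoint_insert_left] at k1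
    have hwJ : ∀ t ∈ insert w (J₁ ∪ J₂), t < X.card := by
      intro t ht
      have h1 := k2.1 t (by
        rw [mem_insert, mem_union] at ht
        rw [mem_union, mem_union, mem_insert]
        tauto)
      omega
    have hinj : ∀ a ∈ insert w (J₁ ∪ J₂), ∀ b ∈ insert w (J₁ ∪ J₂), v a = v b → a = b := fun a ha b hb hab =>
      hv.2.1 a b (hwJ a ha) (hwJ b hb) hab
    refine ⟨insert w (J₁ ∪ J₂), ?_, ?_, v w, J₁.image v, J₂.image v, hw3, ?_, ?_, ?_, ?_, j3, k3⟩
    · rw [disjoint_insert_right, disjoint_union_right]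
      exact ⟨hw1, j1.2, k1.1.2⟩
    · have e1 : I ∪ insert w (J₁ ∪ J₂) = insert w I ∪ J₁ ∪ J₂ := by
        ext t
        simp only [mem_union, mem_insert]
        tauto
      have e2 : N + 2 * (c.size + s.size + 1) = N + 2 + 2 * c.size + 2 * s.size := by ring
      rw [e1, e2]
      exact k2
    · intro hm
      obtain ⟨t, ht, hte⟩ := mem_image.1 hm
      have := hinj t (by simp [ht]) w (by simp) hte
      exact j1.1 (this ▸ ht)
    · intro hm
      obtain ⟨t, ht, hte⟩ := mem_image.1 hm
      have := hinj t (by simp [ht]) w (by simp) hte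
      exact k1.1.1 (this ▸ ht)
    · rw [disjoint_left]
      intro u hu1 hu2
      obtain ⟨t, ht, hte⟩ := mem_image.1 hu1
      obtain ⟨t', ht', hte'⟩ := mem_image.1 hu2
      have := hinj t (by simp [ht]) t' (by simp [ht']) (hte.trans hte'.symm)
      exact disjoint_left.1 k1.2 ht (this ▸ ht')
    · rw [image_insert, image_union]

/-- an in-arborescence with `m` vertices in `2 m` vertices -/
theorem inw_tree [Nonempty V] (hT : AE32.Tour R) (F : Fd) (hF : Inw F) (X : Finset V) (hX : 2 * (F.size + 1) ≤ X.card) :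
    ∃ x ∈ X, ∃ S ⊆ X, x ∉ S ∧ Emb R F x S := by
  have hT' : AE32.Tour (fun a b => R b a) := ⟨hT.irr, fun a b h => (hT.tot a b h).symm, fun a b h => hT.asym b a h⟩
  obtain ⟨v, hv⟩ := AECat.exists_med hT' X
  have h0 : AECat.Sta 0 (∅ : Finset ℕ) := ⟨by simp, by simp⟩
  have h1 : AECat.Sta 2 (insert 0 (∅ : Finset ℕ)) := h0.ins (by omega)
  obtain ⟨J, j1, j2, j3⟩ := inw_emb hv F hF 2 (insert 0 ∅) 0 h1 (mem_insert_self _ _) (by omega)
  rw [disjoint_insert_left] at j1
  have hlt : ∀ t ∈ J, t < X.card := by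
    intro t ht
    have := j2.1 t (mem_union_right _ ht)
    omega
  refine ⟨v 0, hv.1 0 (by omega), J.image v, ?_, ?_, j3⟩
  · intro u hu
    obtain ⟨t, ht, rfl⟩ := mem_image.1 hu
    exact hv.1 t (hlt t ht)
  · intro hm
    obtain ⟨t, ht, hte⟩ := mem_image.1 hm
    have := hv.2.1 t 0 (hlt t ht) (by omega) hte
    exact j1.1 (this ▸ ht)

/-- the rest of the tree -/
theorem rest_emb [Nonempty V] (hT : AE32.Tour R) {X : Finset V} {v : ℕ → V} (hv : AECat.Med R X v) (F : Fd) :
    ∀ (N : ℕ) (I : Finset ℕ) (z : ℕ) (S : Finset V), AECat.Sta N I → z ∈ I → S ⊆ I.image v → Emb R (cmp F) (v z) S →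
      N + 4 * (F.size - (cmp F).size) ≤ X.card →
      ∃ J : Finset ℕ, Disjoint I J ∧ AECat.Sta (N + 4 * (F.size - (cmp F).size)) (I ∪ J) ∧
        ∃ S' ⊆ J.image v, Emb R F (v z) (S ∪ S') := by
  induction F with
  | nil =>
    intro N I z S hS _ _ hE _
    refine ⟨∅, disjoint_empty_right _, by simpa [Fd.size, cmp] using hS, ∅, by simp, ?_⟩
    rw [union_empty]
    exact hE
  | node d c s ihc ihs =>
    intro N I z S hS hz hSI hE hN
    have hc1 := cmp_size_le c
    have hs1 := cmp_size_le s
    have hdis : ∀ (N' : ℕ) (I' : Finset ℕ), AECat.Sta N' I' → N' ≤ X.card → ∀ A ⊆ I', ∀ B ⊆ I', Disjoint A B →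
        Disjoint (A.image v) (B.image v) := by
      intro N' I' hS' hN' A hA B hB hAB
      rw [disjoint_left]
      intro u hu1 hu2
      obtain ⟨t, ht, hte⟩ := mem_image.1 hu1
      obtain ⟨t', ht', hte'⟩ := mem_image.1 hu2
      have h1 := hS'.1 t (hA ht)
      have h2 := hS'.1 t' (hB ht')
      have := hv.2.1 t t' (by omega) (by omega) (hte.trans hte'.symm)
      exact disjoint_left.1 hAB ht (this ▸ ht')
    cases d
    · -- an arc towards the common vertex
      simp only [cmp, Bool.false_eq_true, if_false, Fd.size] at hE hN ⊢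
      obtain ⟨x, A, B, h1, h2, h3, h4, rfl, h6, h7⟩ := hE
      obtain ⟨w, hw, rfl⟩ : ∃ w ∈ I, v w = x := mem_image.1 (hSI (mem_insert_self _ _))
      obtain ⟨J₁, j1, j2, S₁, j3, j4⟩ := ihc N I w A hS hw (fun u hu => hSI (by simp [hu])) h6 (by omega)
      obtain ⟨J₂, k1, k2, S₂, k3, k4⟩ := ihs _ (I ∪ J₁) z B j2 (mem_union_left _ hz)
        (fun u hu => by
          rw [image_union]
          exact mem_union_left _ (hSI (by simp [hu]))) h7 (by omega)
      rw [disjoint_union_left] at k1
      have hN' : N + 4 * (c.size - (cmp c).size) + 4 * (s.size - (cmp s).size) ≤ X.card := by omega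
      have d1 : Disjoint (I.image v) (J₁.image v) := hdis _ _ k2 hN' _ (subset_union_left.trans subset_union_left) _
        (subset_union_right.trans subset_union_left) j1
      have d2 : Disjoint (I.image v) (J₂.image v) := hdis _ _ k2 hN' _ (subset_union_left.trans subset_union_left) _
        subset_union_right k1.1
      have d3 : Disjoint (J₁.image v) (J₂.image v) := hdis _ _ k2 hN' _ (subset_union_right.trans subset_union_left) _
        subset_union_right k1.2
      have hAI : insert (v w) (A ∪ B) ⊆ I.image v := hSI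
      have hxS₁ : v w ∉ S₁ := fun hm => disjoint_left.1 d1 (hAI (mem_insert_self _ _)) (j3 hm)
      have hxS₂ : v w ∉ S₂ := fun hm => disjoint_left.1 d2 (hAI (mem_insert_self _ _)) (k3 hm)
      refine ⟨J₁ ∪ J₂, disjoint_union_right.2 ⟨j1, k1.1⟩, ?_, S₁ ∪ S₂, ?_, v w, A ∪ S₁, B ∪ S₂, h1, ?_, ?_, ?_, ?_, j4,
        k4⟩
      · rw [← union_assoc]
        have e2 : N + 4 * (c.size + s.size + 1 - ((cmp c).size + (cmp s).size + 1)) =
          N + 4 * (c.size - (cmp c).size) + 4 * (s.size - (cmp s).size) := by omega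
        rw [e2]
        exact k2
      · rw [image_union]
        exact union_subset_union j3 k3
      · rw [mem_union, not_or]
        exact ⟨h2, hxS₁⟩
      · rw [mem_union, not_or]
        exact ⟨h3, hxS₂⟩
      · rw [disjoint_union_left, disjoint_union_right, disjoint_union_right]
        refine ⟨⟨h4, ?_⟩, ?_, ?_⟩
        · exact disjoint_of_subset_left (fun u hu => hAI (by simp [hu])) (disjoint_of_subset_right k3 d2)
        · exact (disjoint_of_subset_left (fun u hu => hAI (by simp [hu])) (disjoint_of_subset_right j3 d1)).symm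
        · exact disjoint_of_subset_left j3 (disjoint_of_subset_right k3 d3)
      · ext u
        simp only [mem_union, mem_insert]
        tauto
    · -- an arc away from it
      simp only [cmp, if_true, Fd.size] at hE hN ⊢
      obtain ⟨m, hm⟩ : ∃ m, m = (cmp c).size + 1 := ⟨_, rfl⟩
      obtain ⟨W, hW1, hW2, hW3, hW4⟩ := AECat.Sta.many (n := X.card) (Q := fun w => R (v z) (v w)) (I₀ := I)
        (fun N' I' hII hN' hn' => hN'.leaf hv hn' (hII hz)) (2 * m) (Subset.refl _) hS (by omega)
      have hWlt : ∀ w ∈ W, w < X.card := by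
        intro w hw
        have := hW4.1 w (mem_union_right _ hw)
        omega
      have hWinj : Set.InjOn v W := fun w hw w' hw' e => hv.2.1 w w' (hWlt w hw) (hWlt w' hw') e
      have hWc : (W.image v).card = 2 * m := by
        rw [card_image_of_injOn hWinj, hW1]
      obtain ⟨x, hx, A, hA, hxA, hEx⟩ := inw_tree hT (cmp c) (inw_cmp c) (W.image v) (by rw [hWc, hm])
      obtain ⟨w, hw, rfl⟩ := mem_image.1 hx
      obtain ⟨J₁, j1, j2, S₁, j3, j4⟩ := ihc _ (I ∪ W) w A hW4 (mem_union_right _ hw)
        (hA.trans (image_subset_image subset_union_right)) hEx (by omega)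
      obtain ⟨J₂, k1, k2, S₂, k3, k4⟩ := ihs _ (I ∪ W ∪ J₁) z S j2 (mem_union_left _ (mem_union_left _ hz))
        (hSI.trans (image_subset_image (subset_union_left.trans subset_union_left))) hE (by omega)
      rw [disjoint_union_left] at j1
      rw [disjoint_union_left, disjoint_union_left] at k1
      have hN' : N + 2 * (2 * m) + 4 * (c.size - (cmp c).size) + 4 * (s.size - (cmp s).size) ≤ X.card := by omega
      have sI : I ⊆ I ∪ W ∪ J₁ ∪ J₂ := subset_union_left.trans (subset_union_left.trans subset_union_left)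
      have sW : W ⊆ I ∪ W ∪ J₁ ∪ J₂ := subset_union_right.trans (subset_union_left.trans subset_union_left)
      have s1 : J₁ ⊆ I ∪ W ∪ J₁ ∪ J₂ := subset_union_right.trans subset_union_left
      have s2 : J₂ ⊆ I ∪ W ∪ J₁ ∪ J₂ := subset_union_right
      have dIW : Disjoint (I.image v) (W.image v) := hdis _ _ k2 hN' _ sI _ sW hW2.symm
      have dI1 : Disjoint (I.image v) (J₁.image v) := hdis _ _ k2 hN' _ sI _ s1 j1.1
      have dW1 : Disjoint (W.image v) (J₁.image v) := hdis _ _ k2 hN' _ sW _ s1 j1.2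
      have dI2 : Disjoint (I.image v) (J₂.image v) := hdis _ _ k2 hN' _ sI _ s2 k1.1.1
      have dW2 : Disjoint (W.image v) (J₂.image v) := hdis _ _ k2 hN' _ sW _ s2 k1.1.2
      have d12 : Disjoint (J₁.image v) (J₂.image v) := hdis _ _ k2 hN' _ s1 _ s2 k1.2
      refine ⟨W ∪ J₁ ∪ J₂, ?_, ?_, insert (v w) (A ∪ S₁) ∪ S₂, ?_, v w, A ∪ S₁, S ∪ S₂, hW3 w hw, ?_, ?_, ?_, ?_,
        j4, k4⟩
      · rw [disjoint_union_right, disjoint_union_right]
        exact ⟨⟨hW2.symm, j1.1⟩, k1.1.1⟩
      · have e1 : I ∪ (W ∪ J₁ ∪ J₂) = I ∪ W ∪ J₁ ∪ J₂ := by simp only [union_assoc]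
        have e2 : N + 4 * (c.size + s.size + 1 - (cmp s).size) =
          N + 2 * (2 * m) + 4 * (c.size - (cmp c).size) + 4 * (s.size - (cmp s).size) := by omega
        rw [e1, e2]
        exact k2
      · rw [image_union, image_union]
        refine union_subset_union ?_ k3
        refine insert_subset (mem_union_left _ (mem_image_of_mem v hw)) (union_subset_union hA j3)
      · rw [mem_union, not_or]
        exact ⟨hxA, fun hm' => disjoint_left.1 dW1 (mem_image_of_mem v hw) (j3 hm')⟩
      · rw [mem_union, not_or]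
        exact ⟨fun hm' => disjoint_left.1 dIW (hSI hm') (mem_image_of_mem v hw),
          fun hm' => disjoint_left.1 dW2 (mem_image_of_mem v hw) (k3 hm')⟩
      · rw [disjoint_union_left, disjoint_union_right, disjoint_union_right]
        refine ⟨⟨?_, ?_⟩, ?_, ?_⟩
        · exact (disjoint_of_subset_left hSI (disjoint_of_subset_right hA dIW)).symm
        · exact disjoint_of_subset_left hA (disjoint_of_subset_right k3 dW2)
        · exact (disjoint_of_subset_left hSI (disjoint_of_subset_right j3 dI1)).symm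
        · exact disjoint_of_subset_left j3 (disjoint_of_subset_right k3 d12)
      · ext u
        simp only [mem_union, mem_insert]
        tauto

/-- **`4 n` vertices are enough for a tree with `n` vertices** -/
theorem un_four (hT : AE32.Tour R) (b : ℕ) : Un R b 4 0 := by
  intro c _ _ X hX
  have hX' : 4 * (c.size + 1) ≤ X.card := by
    have : (4 : ℝ) * (c.size + 1) ≤ X.card := by linarith
    exact_mod_cast this
  have hne : X.Nonempty := by
    rw [← card_pos]
    omega
  obtain ⟨u₀, hu₀⟩ := hne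
  have : Nonempty V := ⟨u₀⟩
  obtain ⟨v, hv⟩ := AECat.exists_med hT X
  have hc1 := cmp_size_le c
  obtain ⟨m, hm⟩ : ∃ m, m = (cmp c).size + 1 := ⟨_, rfl⟩
  have h0 : AECat.Sta 0 (∅ : Finset ℕ) := ⟨by simp, by simp⟩
  obtain ⟨W, hW1, -, -, hW4⟩ := AECat.Sta.many (n := X.card) (Q := fun _ => True) (I₀ := ∅)
    (fun N' I' _ hN' _ => by
      obtain ⟨w, hw1, hw2⟩ := hN'.free
      exact ⟨w, hw1, hw2, trivial⟩) (2 * m) (Subset.refl _) h0 (by omega)
  have hWlt : ∀ w ∈ W, w < X.card := by
    intro w hw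
    have := hW4.1 w (mem_union_right _ hw)
    omega
  have hWinj : Set.InjOn v W := fun w hw w' hw' e => hv.2.1 w w' (hWlt w hw) (hWlt w' hw') e
  have hWc : (W.image v).card = 2 * m := by
    rw [card_image_of_injOn hWinj, hW1]
  obtain ⟨x, hx, A, hA, hxA, hEx⟩ := inw_tree hT (cmp c) (inw_cmp c) (W.image v) (by rw [hWc, hm])
  obtain ⟨w, hw, rfl⟩ := mem_image.1 hx
  obtain ⟨J, j1, j2, S, j3, j4⟩ := rest_emb hT hv c _ (∅ ∪ W) w A hW4 (mem_union_right _ hw)
    (hA.trans (image_subset_image subset_union_right)) hEx (by omega)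
  have hlt : ∀ t ∈ ∅ ∪ W ∪ J, t < X.card := by
    intro t ht
    have := j2.1 t ht
    omega
  have hXsub : ∀ t ∈ ∅ ∪ W ∪ J, v t ∈ X := fun t ht => hv.1 t (hlt t ht)
  refine ⟨v w, hv.1 w (hWlt w hw), A ∪ S, ?_, ?_, trivial, j4⟩
  · intro u hu
    rcases mem_union.1 hu with hu | hu
    · obtain ⟨t, ht, rfl⟩ := mem_image.1 (hA hu)
      exact hv.1 t (hWlt t ht)
    · obtain ⟨t, ht, rfl⟩ := mem_image.1 (j3 hu)
      exact hXsub t (mem_union_right _ ht)
  · rw [mem_union, not_or]
    refine ⟨hxA, fun hm' => ?_⟩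
    obtain ⟨t, ht, hte⟩ := mem_image.1 (j3 hm')
    have := hv.2.1 t w (hlt t (mem_union_right _ ht)) (hWlt w hw) hte
    exact disjoint_left.1 j1 (mem_union_right _ hw) (this ▸ ht)

end AEX
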