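import Pool.Agent.AEX.Cut

/-!
# One branch of a tree
-/

namespace AEX

open Finset AE15 AED AELT
open scoped Classical

/-- a large tree has a branch of prescribed size; embeddings of the rest and of the branch combine -/
theorem branch (b m : ℕ) (c : Fd) (hl : c.len ≤ b) (hd : c.Deg b) (hm : b * m < c.size) :
    ∃ (p : Bool × Fd) (c' : Fd), c.size = c'.size + (p.2.size + 1) ∧ c'.len ≤ b ∧ c'.Deg b ∧ p.2.len ≤ b ∧ p.2.Deg b ∧
      m < p.2.size + 1 ∧ p.2.size + 1 ≤ b * m + 1 ∧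
      ∀ {V : Type} {R : V → V → Prop} {y : V} {S : Finset V}, Emb R c' y S → y ∉ S →
        ∃ u ∈ insert y S, ∀ A, Disjoint A (insert y S) → EmbL R u [p] A → Emb R c y (S ∪ A) := by
  obtain ⟨c', p, hc, h1, h2⟩ := one_branch b m c hl hd hm
  have hs := hc.size
  rw [tsz_cons, tsz_nil, add_zero] at hs
  have hdeg := hc.deg hd
  refine ⟨p, c', hs, hc.len_le.trans hl, hdeg.1, (hdeg.2 p (by simp)).1, (hdeg.2 p (by simp)).2, h1, h2, ?_⟩
  intro V R y S hE hy
  obtain ⟨I, hI1, hI2, hI3⟩ := hc.emb hE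
  obtain ⟨t, rfl, ht⟩ : ∃ t, I = [t] ∧ t.2 = p := by
    cases I with
    | nil => simp at hI1
    | cons t I =>
      rw [List.map_cons, List.cons.injEq] at hI1
      have : I = [] := List.map_eq_nil_iff.1 hI1.2
      exact ⟨t, by rw [this], hI1.1⟩
  refine ⟨t.1, ?_, ?_⟩
  · rw [mem_insert]
    exact hI2 t (by simp)
  · intro A hA hE'
    rw [disjoint_insert_right] at hA
    refine hI3 A ?_ hA.2.symm
    rw [EmbI.single, ht]
    exact hE'

end AEX
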