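import Pool.Agent.AELT.Defs

/-!
# Oriented trees of bounded degree in expanding tournaments: definitions
-/

namespace AEX

open Finset AE15 AED AELT
open scoped Classical

variable {V : Type*} {R : V → V → Prop}

/-- the error of the sampling lemma for a set with `n` elements -/
noncomputable def er (n : ℕ) : ℝ := 1 / Real.sqrt (Real.sqrt n)

/-- the structure used by the vertices of `X` for connections through `S`: large degrees, and almost every vertex of `S`
is joined to `z` by every word of length `ℓ` -/
def Str (R : V → V → Prop) (X S : Finset V) (ℓ : ℕ) (α β κ : ℝ) : Prop :=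
  (∀ v ∈ X, ∀ d : Bool, α * S.card ≤ ((nb R d S v).card : ℝ)) ∧
    ∀ z ∈ X, ∀ (d : Bool) (w : List Bool), w.length = ℓ → ((S \ Bk R S (κ * S.card) z d w).card : ℝ) ≤ β * S.card

/-- the words of length at most `n` -/
def words : ℕ → Finset (List Bool)
  | 0 => {[]}
  | n + 1 => {[]} ∪ ((words n).image (fun w => true :: w) ∪ (words n).image (fun w => false :: w))

/-- the test sets of the structure -/
noncomputable def fam (R : V → V → Prop) (X S : Finset V) (ℓ : ℕ) (k : ℝ) : Finset (Finset V) :=
  (words ℓ ×ˢ (Finset.univ : Finset Bool) ×ˢ X).image (fun q => Bk R S k q.2.2 q.2.1 q.1) ∪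
    (words ℓ ×ˢ (Finset.univ : Finset Bool) ×ˢ (Finset.univ : Finset Bool) ×ˢ X ×ˢ X).image
      (fun q => nb R q.2.1 (Bk R S k q.2.2.2.1 q.2.2.1 q.1) q.2.2.2.2) ∪
    ((Finset.univ : Finset Bool) ×ˢ X).image (fun q => nb R q.1 S q.2)

/-- `Att p c' c`: the forest `c` is obtained from `c'` by attaching the tree `p` (direction and children forest) at the
common vertex or at some vertex -/
inductive Att (p : Bool × Fd) : Fd → Fd → Prop
  | here (s : Fd) : Att p s (.node p.1 p.2 s)
  | sib (e : Bool) (c s s' : Fd) : Att p s s' → Att p (.node e c s) (.node e c s')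
  | down (e : Bool) (c c' s : Fd) : Att p c c' → Att p (.node e c s) (.node e c' s)

/-- the factor of the orphans -/
noncomputable def lam (b ℓ : ℕ) : ℝ := 1 - 1 / ((b : ℝ) + 1) ^ ℓ

/-- the additive constant of the orphans -/
noncomputable def Mc (b ℓ J : ℕ) : ℝ := (ℓ * b + 1 : ℝ) ^ J * ((b : ℝ) + 1) ^ (ℓ + 1)

end AEX
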