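import Pool.Agent.AELT.Items
import Pool.Agent.AEX.Branch
import Pool.Agent.AEX.Defs

/-!
# One stage: a forest with linear slack, all its branches by `items`
-/

namespace AEX

open Finset AE15 AED AELT
open scoped Classical

variable {V : Type} {R : V → V → Prop}

/-- the stage with an arbitrary set of used vertices -/
theorem stage_aux {b ℓ : ℕ} (hb : 1 ≤ b) (hU : Un R b 4 0) {Y U Rc Ro : Finset V} (hUY : U ⊆ Y) (hcY : Rc ⊆ Y)
    (hoY : Ro ⊆ Y) (h1 : Disjoint U Rc) (h2 : Disjoint U Ro) (h3 : Disjoint Rc Ro) {w₀ : ℕ} (hc : Conn R Y Rc ℓ w₀)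
    {κ : ℝ} (ho : ∀ y ∈ Y, ∀ d : Bool, κ ≤ ((nb R d Ro y).card : ℝ)) (J m : ℕ) (y : V) (hy : y ∈ Y) (W : Finset V)
    (hyW : y ∈ W) (K : ℕ) (c : Fd) (hl : c.len ≤ b) (hd : c.Deg b) (hK : c.size ≤ (b + K) * m)
    (hc1 : (W ∩ Rc).card + (b + K) * cc b ℓ J ≤ w₀)
    (hc2 : 4 * (lam b ℓ ^ J * c.size + (b + K) * Mc b ℓ J) + (W ∩ Ro).card ≤ κ)
    (hc3 : (c.size : ℝ) + 3 * (b * m + 1) + (W ∩ U).card ≤ (U.card : ℝ)) :
    ∃ S : Finset V, Emb R c y S ∧ S ⊆ U ∪ Rc ∪ Ro ∧ Disjoint S W ∧ (S ∩ Rc).card ≤ (b + K) * cc b ℓ J ∧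
      ((S ∩ Ro).card : ℝ) ≤ lam b ℓ ^ J * c.size + (b + K) * Mc b ℓ J ∧ (S ∩ U).card ≤ c.size := by
  have hl0 : 0 ≤ lam b ℓ := lam_nonneg b ℓ
  have hlJ : 0 ≤ lam b ℓ ^ J := pow_nonneg hl0 J
  have hM0 : 0 ≤ Mc b ℓ J := by unfold Mc; positivity
  induction K generalizing c with
  | zero =>
    rw [Nat.add_zero] at hK hc1 ⊢
    rw [Nat.cast_zero, add_zero] at hc2 ⊢
    have htsz : c.size = tsz c.trees := Fd.size_eq c
    have hlen : c.trees.length ≤ b := by rw [← Fd.len_eq]; exact hl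
    have hlen' : (c.trees.length : ℝ) ≤ b := by exact_mod_cast hlen
    have hts : ∀ p ∈ c.trees, p.2.len ≤ b ∧ p.2.Deg b := (Fd.deg_iff b c).1 hd
    have horp : orpL b ℓ J c.trees ≤ lam b ℓ ^ J * c.size + b * Mc b ℓ J := by
      rw [orpL_eq, ← htsz]
      have h5 : (c.trees.length : ℝ) * Mc b ℓ J ≤ b * Mc b ℓ J := mul_le_mul_of_nonneg_right hlen' hM0
      exact add_le_add le_rfl h5
    have hlc : c.trees.length * cc b ℓ J ≤ b * cc b ℓ J := Nat.mul_le_mul_right _ hlen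
    have hK' : (c.size : ℝ) ≤ b * m := by exact_mod_cast hK
    obtain ⟨S, s1, s2, s3, s4, s5, s6⟩ := items hb (by norm_num) le_rfl hU hUY hcY hoY h1 h2 h3 hc ho J c.trees hts y hy W
      hyW (by omega) (by linarith) (by
        rw [← htsz]
        linarith)
    exact ⟨S, (emb_iff c y S).2 s1, s2, s3, s4.trans hlc, s5.trans horp, s6.trans htsz.ge⟩
  | succ K ih =>
    push_cast at hc2 ⊢
    have hexp : (b + (K + 1)) * cc b ℓ J = (b + K) * cc b ℓ J + cc b ℓ J := by ring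
    have hexp' : ((b : ℝ) + (K + 1)) * Mc b ℓ J = (b + K) * Mc b ℓ J + Mc b ℓ J := by ring
    rw [hexp] at hc1 ⊢
    rw [hexp'] at hc2 ⊢
    by_cases hsz : c.size ≤ b * m
    · obtain ⟨S, s1, s2, s3, s4, s5, s6⟩ := ih c hl hd (hsz.trans (Nat.mul_le_mul_right _ (by omega))) (by omega)
        (by linarith) hc3
      exact ⟨S, s1, s2, s3, by omega, by linarith, s6⟩
    push Not at hsz
    obtain ⟨p, c', a8, a6, a7, a4, a5, a2, a3, a1⟩ := branch b m c hl hd hsz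
    have a8' : (c.size : ℝ) = c'.size + (p.2.size + 1) := by exact_mod_cast a8
    have a3' : (p.2.size : ℝ) + 1 ≤ b * m + 1 := by exact_mod_cast a3
    have t0 : (0 : ℝ) ≤ p.2.size := Nat.cast_nonneg _
    have hexp2 : (b + (K + 1)) * m = (b + K) * m + m := by ring
    have hprod : lam b ℓ ^ J * (c.size : ℝ) = lam b ℓ ^ J * c'.size + lam b ℓ ^ J * (p.2.size + 1) := by
      rw [a8']
      ring
    have hprod0 : 0 ≤ lam b ℓ ^ J * ((p.2.size : ℝ) + 1) := mul_nonneg hlJ (by linarith)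
    obtain ⟨S, s1, s2, s3, s4, s5, s6⟩ := ih c' a6 a7 (by rw [hexp2] at hK; omega) (by omega) (by linarith)
      (by linarith)
    have hyS : y ∉ S := fun h => disjoint_left.1 s3 h hyW
    obtain ⟨u, hu, hemb⟩ := a1 s1 hyS
    have huY : u ∈ Y := by
      rcases mem_insert.1 hu with rfl | hu
      · exact hy
      · exact (s2.trans (union_subset (union_subset hUY hcY) hoY)) hu
    have huW : u ∈ W ∪ S := by
      rcases mem_insert.1 hu with rfl | hu
      · exact mem_union_left _ hyW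
      · exact mem_union_right _ hu
    have w1 := card_union_inter_le W S Rc
    have w2 : (((W ∪ S) ∩ Ro).card : ℝ) ≤ (W ∩ Ro).card + (S ∩ Ro).card := by
      exact_mod_cast card_union_inter_le W S Ro
    have w3 : (((W ∪ S) ∩ U).card : ℝ) ≤ (W ∩ U).card + (S ∩ U).card := by
      exact_mod_cast card_union_inter_le W S U
    have s6' : ((S ∩ U).card : ℝ) ≤ c'.size := by exact_mod_cast s6
    have e1 : orpL b ℓ J [p] = lam b ℓ ^ J * (p.2.size + 1) + Mc b ℓ J := by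
      rw [orpL_cons, orpL_nil, add_zero]
      unfold orp lam Mc
      push_cast
      rfl
    have e2 : tsz [p] = p.2.size + 1 := by rw [tsz_cons, tsz_nil, add_zero]
    obtain ⟨A, t1, t2, t3, t4, t5, t6⟩ := items hb (by norm_num) le_rfl hU hUY hcY hoY h1 h2 h3 hc ho J [p]
      (by simpa using ⟨a4, a5⟩) u huY (W ∪ S) huW (by
        rw [List.length_singleton, one_mul]
        omega) (by
        rw [e1]
        linarith) (by
        rw [e2]
        push_cast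
        linarith)
    rw [List.length_singleton, one_mul] at t4
    rw [e1] at t5
    rw [e2] at t6
    rw [disjoint_union_right] at t3
    have u1 := card_union_inter_le S A Rc
    have u2 : (((S ∪ A) ∩ Ro).card : ℝ) ≤ (S ∩ Ro).card + (A ∩ Ro).card := by
      exact_mod_cast card_union_inter_le S A Ro
    have u3 := card_union_inter_le S A U
    refine ⟨S ∪ A, hemb A ?_ t1, union_subset s2 t2, disjoint_union_left.2 ⟨s3, t3.1⟩, by omega, ?_, by omega⟩
    · rw [disjoint_insert_right]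
      exact ⟨fun h => disjoint_left.1 t3.1 h hyW, t3.2⟩
    · linarith

/-- **One stage** of the exact chain -/
theorem stage {V : Type} {R : V → V → Prop} {b ℓ : ℕ} (hb : 1 ≤ b) (hU : Un R b 4 0) {Y U Rc Ro : Finset V}
    (hUY : U ⊆ Y) (hcY : Rc ⊆ Y) (hoY : Ro ⊆ Y) (h1 : Disjoint U Rc) (h2 : Disjoint U Ro) (h3 : Disjoint Rc Ro)
    {w₀ : ℕ} (hc : Conn R Y Rc ℓ w₀) {κ : ℝ} (ho : ∀ y ∈ Y, ∀ d : Bool, κ ≤ ((nb R d Ro y).card : ℝ))
    (J m K : ℕ) (c : Fd) (hl : c.len ≤ b) (hd : c.Deg b) (hK : c.size ≤ (b + K) * m) (y : V) (hy : y ∈ Y)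
    (hc1 : 1 + (b + K) * cc b ℓ J ≤ w₀)
    (hc2 : 5 * (lam b ℓ ^ J * c.size + (b + K) * Mc b ℓ J) + 1 ≤ κ)
    (hc3 : (c.size + 4 * (b * m + 1) + 1 : ℝ) ≤ U.card) :
    ∃ S : Finset V, Emb R c y S ∧ S ⊆ U ∪ Rc ∪ Ro ∧ y ∉ S ∧
      ((S ∩ Ro).card : ℝ) ≤ lam b ℓ ^ J * c.size + (b + K) * Mc b ℓ J := by
  have hl0 : 0 ≤ lam b ℓ := lam_nonneg b ℓ
  have hlJ : 0 ≤ lam b ℓ ^ J * c.size := mul_nonneg (pow_nonneg hl0 J) (Nat.cast_nonneg _)
  have hM0 : 0 ≤ ((b : ℝ) + K) * Mc b ℓ J := by unfold Mc; positivity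
  have hW : ∀ Q : Finset V, (({y} : Finset V) ∩ Q).card ≤ 1 := fun Q =>
    (card_le_card inter_subset_left).trans (card_singleton y).le
  obtain ⟨S, s1, s2, s3, -, s5, -⟩ := stage_aux hb hU hUY hcY hoY h1 h2 h3 hc ho J m y hy {y} (mem_singleton_self y) K c
    hl hd hK (by
      have := hW Rc
      omega) (by
      have h4 : ((({y} : Finset V) ∩ Ro).card : ℝ) ≤ 1 := by exact_mod_cast hW Ro
      linarith) (by
      have h4 : ((({y} : Finset V) ∩ U).card : ℝ) ≤ 1 := by exact_mod_cast hW U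
      have h5 : (0 : ℝ) ≤ b * m := by positivity
      linarith)
  exact ⟨S, s1, s2, fun h => disjoint_left.1 s3 h (mem_singleton_self y), s5⟩

end AEX
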