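import Pool.Agent.AEX.Four
import Pool.Agent.AEX.Stage
import Pool.Agent.AELT.Reserve

/-!
# Rooted trees in a clean core, at ratio one
-/

namespace AEX

open Finset AE15 AED AELT
open scoped Classical

/-- in an expanding set `Y` of vertices the root of a tree with at most `(1 - β) |Y|` vertices can be placed anywhere -/
theorem main (b : ℕ) (hb : 1 ≤ b) {α β : ℝ} (hα : 0 < α) (hα1 : α ≤ 1) (hβ : 0 < β) : ∃ n₀ : ℕ,
    ∀ {V : Type} {R : V → V → Prop}, AE32.Tour R → ∀ Y : Finset V, n₀ ≤ Y.card → Ex R (α * Y.card) Y →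
      ∀ v ∈ Y, ∀ c : Fd, c.len ≤ b → c.Deg b → (c.size + 1 : ℝ) ≤ (1 - β) * Y.card → ∃ S ⊆ Y, v ∉ S ∧ Emb R c v S := by
  obtain ⟨ℓ, hℓ⟩ := exists_reserve hα hα1
  have hb0 : (0 : ℝ) < b := by exact_mod_cast hb
  obtain ⟨ζ, hζd⟩ : ∃ ζ : ℝ, ζ = min (β / 12) (1 / 8) := ⟨_, rfl⟩
  have hζ : 0 < ζ := by rw [hζd]; exact lt_min (by positivity) (by norm_num)
  have hζβ : 12 * ζ ≤ β := by
    have : ζ ≤ β / 12 := by rw [hζd]; exact min_le_left _ _
    linarith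
  have hζ8 : ζ ≤ 1 / 8 := by rw [hζd]; exact min_le_right _ _
  have hl0 : 0 ≤ lam b ℓ := lam_nonneg b ℓ
  have hl1 : lam b ℓ < 1 := by
    unfold lam
    have : (0 : ℝ) < 1 / ((b : ℝ) + 1) ^ ℓ := by positivity
    linarith
  obtain ⟨J, hJ⟩ := exists_pow_lt_of_lt_one (show 0 < α * ζ / 40 by positivity) hl1
  obtain ⟨K, hK⟩ : ∃ K : ℕ, 32 * b / β ≤ (K : ℝ) := exists_nat_ge _
  rw [div_le_iff₀ hβ] at hK
  obtain ⟨M, hM⟩ : ∃ M : ℝ, M = (b + K) * Mc b ℓ J := ⟨_, rfl⟩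
  have hM0 : 0 ≤ M := by rw [hM]; unfold Mc; positivity
  obtain ⟨n₂, hn₂⟩ := hℓ ζ (1 + (b + K) * cc b ℓ J) hζ hζ8
  obtain ⟨n₃, hn₃⟩ : ∃ n₃ : ℕ, (5 * M + 1) * 8 / (α * ζ) ≤ (n₃ : ℝ) := exists_nat_ge _
  obtain ⟨n₄, hn₄⟩ : ∃ n₄ : ℕ, 32 * b / β ≤ (n₄ : ℝ) := exists_nat_ge _
  refine ⟨n₂ + n₃ + n₄ + 1, ?_⟩
  intro V R hT Y hn hEx v hv c hl hd hsz
  obtain ⟨U, Rc, Ro, hUY, hcY, hoY, h1, h2, h3, hUc, ho, hc⟩ := hn₂ hT Y (by omega) hEx
  obtain ⟨n, hnd⟩ : ∃ n : ℝ, n = (Y.card : ℝ) := ⟨_, rfl⟩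
  have hnC : ∀ k : ℕ, k ≤ n₂ + n₃ + n₄ + 1 → (k : ℝ) ≤ n := by
    intro k hk
    rw [hnd]
    exact_mod_cast hk.trans hn
  have hn0 : 0 < n := by
    have := hnC 1 (by omega)
    push_cast at this
    linarith
  rw [← hnd] at hsz hUc ho
  have hcn : (c.size : ℝ) ≤ n := by nlinarith
  have hβn : 32 * b ≤ β * n := by
    have h4 := hn₄.trans (hnC n₄ (by omega))
    rw [div_le_iff₀ hβ] at h4
    linarith
  have hb1 : (1 : ℝ) ≤ b := by exact_mod_cast hb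
  obtain ⟨m, hm⟩ : ∃ m : ℕ, m = ⌊β * n / (16 * b)⌋₊ := ⟨_, rfl⟩
  have hm3 : (b : ℝ) * m ≤ β * n / 16 := by
    have h4 : (m : ℝ) ≤ β * n / (16 * b) := by
      rw [hm]
      exact Nat.floor_le (by positivity)
    rw [le_div_iff₀ (by positivity)] at h4
    linarith
  have hm4 : β * n / (32 * b) ≤ m := by
    have h4 : β * n / (16 * b) < m + 1 := by
      rw [hm]
      exact Nat.lt_floor_add_one _
    have h5 : 1 ≤ β * n / (32 * b) := by
      rw [le_div_iff₀ (by positivity)]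
      linarith
    have h6 : β * n / (16 * b) = 2 * (β * n / (32 * b)) := by
      field_simp
      ring
    linarith
  have hKm : c.size ≤ (b + K) * m := by
    have h4 : (c.size : ℝ) ≤ (b + K) * m := by
      have h5 : (K : ℝ) * (β * n / (32 * b)) ≤ K * m := mul_le_mul_of_nonneg_left hm4 (Nat.cast_nonneg _)
      have h6 : n ≤ (K : ℝ) * (β * n / (32 * b)) := by
        have h7 : (K : ℝ) * (β * n / (32 * b)) = K * β * n / (32 * b) := by ring
        rw [h7, le_div_iff₀ (by positivity)]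
        nlinarith
      have h8 : (0 : ℝ) ≤ (b : ℝ) * m := by positivity
      linarith
    exact_mod_cast h4
  obtain ⟨S, s1, s2, s3, -⟩ := stage hb (un_four hT b) hUY hcY hoY h1 h2 h3 hc (κ := α / 2 * ζ * n) ho J m K c hl hd hKm
    v hv le_rfl
    (by
      have h4 : lam b ℓ ^ J * (c.size : ℝ) ≤ α * ζ / 40 * n := mul_le_mul hJ.le hcn (Nat.cast_nonneg _) (by positivity)
      have h5 := hn₃.trans (hnC n₃ (by omega))
      rw [div_le_iff₀ (by positivity)] at h5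
      rw [← hM]
      have h6 : 0 ≤ α * ζ * n := by positivity
      nlinarith)
    (by
      have h4 : 12 * ζ * n ≤ β * n := mul_le_mul_of_nonneg_right hζβ hn0.le
      nlinarith)
  exact ⟨S, s2.trans (union_subset (union_subset hUY hcY) hoY), s3, s1⟩

end AEX
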