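import Pool.Agent.AEX.Defs
import Pool.Agent.AEB.GlueB

/-!
# Oriented trees of bounded degree in expanding tournaments: the final statement from the chain
-/

namespace AEX

open Finset AE15 AED AELT
open scoped Classical

theorem no_long_run {k : ℕ} (d : Fin (k + 1) → ℕ) (f : ℕ → Fin (k + 1))
    (h : ∀ i ≤ k + 1, d (f i) = d (f (i + 1)) + 1) : False := by
  have h1 : ∀ i ≤ k + 1, d (f i) + i = d (f 0) := by
    intro i hi
    induction i with
    | zero => rfl
    | succ i ih =>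
      have h2 := ih (by omega)
      have h3 := h i (by omega)
      omega
  obtain ⟨i, j, hij, hne⟩ : ∃ i j : Fin (k + 2), i ≠ j ∧ f i = f j := by
    have h2 : ¬ Function.Injective (fun i : Fin (k + 2) => f i) := by
      intro hinj
      have := Fintype.card_le_of_injective _ hinj
      simp only [Fintype.card_fin] at this
      omega
    unfold Function.Injective at h2
    push Not at h2
    obtain ⟨i, j, h3, h4⟩ := h2
    exact ⟨i, j, h4, h3⟩
  have e1 := h1 i (by have := i.2; omega)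
  have e2 := h1 j (by have := j.2; omega)
  rw [hne] at e1
  apply hij
  apply Fin.ext
  omega

theorem ex_of_ncard {n : ℕ} {R : Fin n → Fin n → Prop} {θ θ' : ℝ} (hle : θ' ≤ θ)
    (h : ∀ S : Set (Fin n), θ * n * (min S.ncard Sᶜ.ncard : ℕ) ≤
      ({p : Fin n × Fin n | p.1 ∈ S ∧ p.2 ∉ S ∧ R p.1 p.2}.ncard : ℝ)) :
    Ex R (θ' * (univ : Finset (Fin n)).card) univ := by
  intro S _
  have key : ∀ T : Finset (Fin n), (∀ x, x ∈ T ↔ x ∉ S) →
      θ' * (univ : Finset (Fin n)).card * (min S.card T.card : ℕ) ≤ (ar R S T : ℝ) := by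
    intro T hT
    have h1 := h (S : Set (Fin n))
    have e1 : ((S : Set (Fin n))ᶜ) = (T : Set (Fin n)) := by
      ext x
      simp [hT]
    have e2 : {p : Fin n × Fin n | p.1 ∈ (S : Set (Fin n)) ∧ p.2 ∉ (S : Set (Fin n)) ∧ R p.1 p.2}
        = (((S ×ˢ T).filter (fun p => R p.1 p.2) : Finset (Fin n × Fin n)) : Set (Fin n × Fin n)) := by
      ext p
      simp only [Set.mem_ofPred_eq, mem_coe, mem_filter, mem_product, hT, and_assoc]
    rw [e1, e2, Set.ncard_coe_finset, Set.ncard_coe_finset, Set.ncard_coe_finset] at h1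
    have e3 : ((S ×ˢ T).filter (fun p => R p.1 p.2)).card = ar R S T := by
      unfold ar
      rw [card_filter, sum_product]
      refine sum_congr rfl fun s _ => ?_
      rw [← card_filter]
      rfl
    rw [e3] at h1
    refine le_trans ?_ h1
    rw [card_univ, Fintype.card_fin]
    have h2 : (0 : ℝ) ≤ n := Nat.cast_nonneg _
    have h3 : (0 : ℝ) ≤ ((min S.card T.card : ℕ) : ℝ) := Nat.cast_nonneg _
    exact mul_le_mul_of_nonneg_right (mul_le_mul_of_nonneg_right hle h2) h3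
  exact key _ (fun x => by simp)

/-- the final statement from the statement of the chain with `b = Δ + 1` and `min θ 1` -/
theorem final_of (Δ : ℕ) (θ : ℝ) (C : ℕ) (hC : ∀ {V : Type} {R : V → V → Prop},
    AE32.Tour R → ∀ X : Finset V, Ex R (min θ 1 * X.card) X → ∀ y ∈ X, ∀ c : Fd, c.len ≤ Δ + 1 → c.Deg (Δ + 1) →
      c.size + 1 + C ≤ X.card → ∃ S ⊆ X, y ∉ S ∧ Emb R c y S) : ∀ k n : ℕ, k + (C + 1) ≤ n → ∀ R : Fin n → Fin n → Prop,
    (∀ a, ¬ R a a) → (∀ a b, a ≠ b → R a b ∨ R b a) → (∀ a b, R a b → ¬ R b a) →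
    (∀ S : Set (Fin n), θ * n * (min S.ncard Sᶜ.ncard : ℕ) ≤
      ({p : Fin n × Fin n | p.1 ∈ S ∧ p.2 ∉ S ∧ R p.1 p.2}.ncard : ℝ)) →
    ∀ E : Fin (k + 1) → Fin (k + 1) → Prop,
      (∀ a b, E a b → ¬ E b a) →
      (SimpleGraph.fromRel E).IsTree →
      (∀ v, ((SimpleGraph.fromRel E).neighborSet v).ncard ≤ Δ) →
      ∀ (r : Fin (k + 1)) (v : Fin n),
        ∃ f : Fin (k + 1) → Fin n, Function.Injective f ∧ (∀ a b, E a b → R (f a) (f b)) ∧ f r = v := by
  intro k n hn R h1 h2 h3 hS E h4 h5 h6 r v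
  have h6' : ∀ v, {w | E v w ∨ E w v}.ncard ≤ Δ + 1 := by
    intro v
    refine le_trans (le_of_eq ?_) ((h6 v).trans (Nat.le_succ Δ))
    congr 1
    ext w
    simp only [Set.mem_ofPred_eq, SimpleGraph.mem_neighborSet, SimpleGraph.fromRel_adj]
    constructor
    · intro h
      refine ⟨?_, h⟩
      rintro rfl
      rcases h with h | h <;> exact h4 _ _ h h
    · exact fun h => h.2
  obtain ⟨c, c1, ⟨c2, c3, -⟩, c4⟩ := AEB.glueB (l := k + 1) h4 h5 h6' r (fun f hf =>
    no_long_run (fun x => (SimpleGraph.fromRel E).dist r x) f (fun i hi => (hf i hi).2))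
  obtain ⟨S, s1, s2, s3⟩ := hC (R := R) ⟨h1, h2, h3⟩ univ (ex_of_ncard (min_le_left θ 1) hS) v (mem_univ v) c c2 c3 (by
    rw [card_univ, Fintype.card_fin]; omega)
  obtain ⟨f, f1, -, f3, f4⟩ := c4 (R := R) (N := fun x => x = v) (X := univ) ⟨v, mem_univ v, S, s1, s2, rfl, s3⟩
  exact ⟨f, f1, f4, f3⟩

end AEX
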