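import Pool.Agent.AE15.Pieces
import Pool.Agent.AEX.Defs

/-!
# Representative pieces with an explicit error
-/

set_option autoImplicit false

namespace AEX

open Finset Filter Topology AE15
open scoped Classical

/-- `exists_pieces` with all its hypotheses on the size -/
theorem pieces_aux {ε c : ℝ} (hε : 0 < ε) (hε1 : ε ≤ 1) (hc : 0 < c) {m N : ℕ} (hNpos : 0 < N)
    (hNm : 2 * (m : ℝ) ≤ c * N) {V : Type} (A : Finset V) (𝓕 : Finset (Finset V)) (hnN : N ≤ A.card)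
    (h𝓕 : 𝓕.card ≤ A.card ^ 5)
    (hexp : (A.card : ℝ) ^ 5 * N < Real.exp ((ε / 2) ^ 2 * (A.card / N : ℕ) / 4))
    (h2N : 2 * (N : ℝ) ≤ ε * A.card) (h2c : 2 * (N : ℝ) ≤ c * A.card)
    (r : ℕ) (s : Fin r → ℝ) (hr : r ≤ m) (hs : ∀ i, 0 ≤ s i) (hsum : ∑ i, s i ≤ (1 - 2 * c) * A.card) :
    ∃ (P : Fin r → Finset V) (Q : Finset V), (∀ i, P i ⊆ A) ∧ (∀ i, (P i).Nonempty) ∧
      (∀ i j, i ≠ j → Disjoint (P i) (P j)) ∧ (∀ i, Disjoint (P i) Q) ∧ Q ⊆ A ∧
      (∀ i, s i ≤ (P i).card) ∧ (∀ i, Rep A 𝓕 ε (P i)) ∧ c * A.card ≤ Q.card ∧ Rep A 𝓕 ε Q := by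
  have hNr : (0 : ℝ) < N := by exact_mod_cast hNpos
  set n := A.card with hn
  have hnpos : (0 : ℝ) < n := by
    have : 0 < n := hNpos.trans_le hnN
    exact_mod_cast this
  set m' := n / N with hm'
  have hmod := Nat.mod_lt n hNpos
  have hdm := Nat.div_add_mod n N
  have hm'0 : 0 < m' := Nat.div_pos hnN hNpos
  have hm'r : (0 : ℝ) < m' := by exact_mod_cast hm'0
  have hNm1 : (N : ℝ) * m' ≤ n := by
    have : N * m' ≤ n := by rw [hm']; omega
    exact_mod_cast this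
  have hNm2 : (n : ℝ) ≤ N * m' + N := by
    have : n ≤ N * m' + N := by rw [hm']; omega
    exact_mod_cast this
  obtain ⟨X, hXA, hX⟩ := Finset.exists_subset_card_eq (s := A) (n := N * m') (by
    rw [← hn, hm']; omega)
  obtain ⟨f, hf1, hf2⟩ := Pool.Agent.AE15.exists_split_prop X N m' hNpos hX
    (𝓕.image (fun F => F ∩ X))
    (by
      intro S' hS'
      rw [mem_image] at hS'
      obtain ⟨S, _, rfl⟩ := hS'
      exact inter_subset_right) (ε := ε / 2) (by positivity) (by linarith)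
    (by
      refine lt_of_le_of_lt ?_ hexp
      apply mul_le_mul_of_nonneg_right _ hNr.le
      have h1 : (𝓕.image (fun F => F ∩ X)).card ≤ n ^ 5 := Finset.card_image_le.trans h𝓕
      exact_mod_cast h1)
  -- representativity of unions of classes
  have hrep : ∀ a b : ℕ, a ≤ b → b ≤ N →
      Rep A 𝓕 ε (X.filter (fun x => a ≤ (f x : ℕ) ∧ (f x : ℕ) < b)) := by
    intro a b hab hb F hF
    have h1 := classes_meet (F ∩ X) f _ (hf2 (F ∩ X) (mem_image_of_mem _ hF)) a b hab hb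
    have h2 : F ∩ X.filter (fun x => a ≤ (f x : ℕ) ∧ (f x : ℕ) < b) =
        (F ∩ X).filter (fun x => a ≤ (f x : ℕ) ∧ (f x : ℕ) < b) := by
      ext x
      simp only [mem_inter, mem_filter]
      tauto
    rw [h2, card_classes X f hf1 a b hb]
    refine le_trans ?_ h1
    rw [Nat.cast_mul, Nat.cast_sub hab]
    have hba : (0 : ℝ) ≤ (b : ℝ) - a := by
      have : (a : ℝ) ≤ b := by exact_mod_cast hab
      linarith
    have h3 : (((F ∩ A).card : ℝ) / n - ε) * m' ≤ ((F ∩ X).card : ℝ) / N - ε / 2 * m' := by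
      have h4 : ((F ∩ A).card : ℝ) ≤ (F ∩ X).card + N := by
        have h5 : F ∩ A ⊆ (F ∩ X) ∪ (A \ X) := by
          intro x hx
          rw [mem_inter] at hx
          by_cases h : x ∈ X
          · simp [hx.1, h]
          · simp [hx.2, h]
        have h6 : (A \ X).card ≤ N := by
          rw [card_sdiff_of_subset hXA, hX, hm']
          omega
        have h7 := (card_le_card h5).trans (card_union_le _ _)
        exact_mod_cast h7.trans (Nat.add_le_add_left h6 _)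
      have h8 : ((F ∩ A).card : ℝ) / n ≤ ((F ∩ X).card : ℝ) / (N * m') + ε / 2 := by
        have h9 : ((F ∩ A).card : ℝ) / n ≤ ((F ∩ X).card : ℝ) / n + N / n := by
          rw [← add_div]
          exact div_le_div_of_nonneg_right h4 hnpos.le
        have h10 : ((F ∩ X).card : ℝ) / n ≤ ((F ∩ X).card : ℝ) / (N * m') :=
          div_le_div_of_nonneg_left (by positivity) (by positivity) hNm1
        have h11 : (N : ℝ) / n ≤ ε / 2 := by
          rw [div_le_iff₀ hnpos]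
          linarith
        linarith
      have h12 : ((F ∩ X).card : ℝ) / (N * m') * m' = ((F ∩ X).card : ℝ) / N := by
        field_simp
      calc (((F ∩ A).card : ℝ) / n - ε) * m' ≤ (((F ∩ X).card : ℝ) / (N * m') - ε / 2) * m' :=
            mul_le_mul_of_nonneg_right (by linarith) hm'r.le
        _ = _ := by rw [sub_mul, h12]
    calc (((F ∩ A).card : ℝ) / n - ε) * (((b : ℝ) - a) * m')
        = ((b : ℝ) - a) * ((((F ∩ A).card : ℝ) / n - ε) * m') := by ring
      _ ≤ ((b : ℝ) - a) * (((F ∩ X).card : ℝ) / N - ε / 2 * m') :=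
          mul_le_mul_of_nonneg_left h3 hba
  -- numbers of classes
  let q : Fin r → ℕ := fun i => max 1 ⌈s i / m'⌉₊
  have hq1 : ∀ i, s i ≤ (q i : ℝ) * m' := by
    intro i
    have h1 : s i / m' ≤ (q i : ℝ) := by
      have h2 := Nat.le_ceil (s i / (m' : ℝ))
      have h3 : (⌈s i / (m' : ℝ)⌉₊ : ℝ) ≤ (q i : ℝ) := by exact_mod_cast le_max_right _ _
      exact h2.trans h3
    rw [div_le_iff₀ hm'r] at h1
    exact h1
  have hq2 : ∀ i, (q i : ℝ) ≤ s i / m' + 1 := by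
    intro i
    have h0 : 0 ≤ s i / m' := div_nonneg (hs i) hm'r.le
    have h1 : (⌈s i / (m' : ℝ)⌉₊ : ℝ) < s i / m' + 1 := Nat.ceil_lt_add_one h0
    show ((max 1 ⌈s i / (m' : ℝ)⌉₊ : ℕ) : ℝ) ≤ _
    rw [Nat.cast_max]
    apply max_le
    · simpa using h0
    · exact h1.le
  have hq0 : ∀ i, 1 ≤ q i := fun i => le_max_left _ _
  let σ : ℕ → ℕ := fun j => ∑ i ∈ Finset.univ.filter (fun i : Fin r => (i : ℕ) < j), q i
  have hσ : ∀ j : Fin r, σ (j + 1) = σ j + q j := by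
    intro j
    have h4 : Finset.univ.filter (fun i : Fin r => (i : ℕ) < (j : ℕ) + 1) =
        insert j (Finset.univ.filter (fun i : Fin r => (i : ℕ) < j)) := by
      ext i
      simp only [mem_filter, mem_univ, true_and, mem_insert]
      rw [Nat.lt_succ_iff, le_iff_eq_or_lt, Fin.ext_iff]
    show ∑ i ∈ Finset.univ.filter (fun i : Fin r => (i : ℕ) < (j : ℕ) + 1), q i = _
    rw [h4, Finset.sum_insert (by simp), add_comm]
  have hmono : ∀ i j : ℕ, i ≤ j → σ i ≤ σ j := by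
    intro i j hij
    apply Finset.sum_le_sum_of_subset
    intro l hl
    rw [mem_filter] at hl ⊢
    exact ⟨mem_univ _, hl.2.trans_le hij⟩
  have hσr : σ r = ∑ i, q i := by
    show ∑ i ∈ Finset.univ.filter (fun i : Fin r => (i : ℕ) < r), q i = _
    congr 1
    apply Finset.filter_true_of_mem
    intro i _
    exact i.2
  have hσle : (σ r : ℝ) * m' ≤ (1 - 2 * c) * n + m * m' := by
    rw [hσr, Nat.cast_sum, Finset.sum_mul]
    have h1 : ∀ i : Fin r, (q i : ℝ) * m' ≤ s i + m' := by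
      intro i
      have h2 := mul_le_mul_of_nonneg_right (hq2 i) hm'r.le
      rw [add_mul, one_mul, div_mul_cancel₀ _ hm'r.ne'] at h2
      exact h2
    have h3 := Finset.sum_le_sum (s := Finset.univ) (fun i _ => h1 i)
    rw [Finset.sum_add_distrib, Finset.sum_const, Finset.card_univ, Fintype.card_fin,
      nsmul_eq_mul] at h3
    have h4 : (r : ℝ) * m' ≤ m * m' := by
      apply mul_le_mul_of_nonneg_right _ hm'r.le
      exact_mod_cast hr
    linarith
  have hmm : (m : ℝ) * m' ≤ c / 2 * n := by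
    have h1 : 2 * (m : ℝ) * m' ≤ c * N * m' := mul_le_mul_of_nonneg_right hNm hm'r.le
    have h2 : c * (N * m') ≤ c * n := mul_le_mul_of_nonneg_left hNm1 hc.le
    linarith
  have hQ : c * n + (σ r : ℝ) * m' ≤ N * m' := by
    linarith
  have hσN : σ r ≤ N := by
    have h1 : (σ r : ℝ) * m' ≤ N * m' := by
      have : 0 ≤ c * n := by positivity
      linarith
    have h2 : (σ r : ℝ) ≤ N := le_of_mul_le_mul_right h1 hm'r
    exact_mod_cast h2
  have hσN' : ∀ j : Fin r, σ (j + 1) ≤ N := fun j => (hmono _ _ j.2).trans hσN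
  refine ⟨fun j => X.filter (fun x => σ j ≤ (f x : ℕ) ∧ (f x : ℕ) < σ (j + 1)),
    X.filter (fun x => σ r ≤ (f x : ℕ) ∧ (f x : ℕ) < N), ?_, ?_, ?_, ?_, ?_, ?_, ?_, ?_, ?_⟩
  · intro j
    exact (filter_subset _ _).trans hXA
  · intro j
    rw [← Finset.card_pos, card_classes X f hf1 _ _ (hσN' j), hσ j]
    have h1 := hq0 j
    have h2 : 0 < σ j + q j - σ j := by omega
    exact Nat.mul_pos h2 hm'0
  · intro i j hij
    rw [Finset.disjoint_left]
    intro x hx hx'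
    rw [mem_filter] at hx hx'
    rcases lt_or_gt_of_ne hij with h | h
    · have h4 := hmono ((i : ℕ) + 1) j h
      omega
    · have h4 := hmono ((j : ℕ) + 1) i h
      omega
  · intro j
    rw [Finset.disjoint_left]
    intro x hx hx'
    rw [mem_filter] at hx hx'
    have h4 := hmono ((j : ℕ) + 1) r j.2
    omega
  · exact (filter_subset _ _).trans hXA
  · intro j
    rw [card_classes X f hf1 _ _ (hσN' j), hσ j]
    have h1 : σ j + q j - σ j = q j := by omega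
    rw [h1, Nat.cast_mul]
    exact hq1 j
  · intro j
    exact hrep _ _ (hmono _ _ (Nat.le_succ _)) (hσN' j)
  · rw [card_classes X f hf1 _ _ le_rfl, Nat.cast_mul, Nat.cast_sub hσN, sub_mul]
    linarith
  · exact hrep _ _ hσN le_rfl

/-- the fourth power of the inverse of the error -/
theorem er_pow {n : ℕ} (hn : 0 < n) : er n ^ 4 * n = 1 := by
  have h0 : (0 : ℝ) < n := by exact_mod_cast hn
  have h1 : 0 < Real.sqrt n := Real.sqrt_pos.2 h0
  have h2 : Real.sqrt (Real.sqrt n) ^ 4 = n := by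
    have : Real.sqrt (Real.sqrt n) ^ 4 = (Real.sqrt (Real.sqrt n) ^ 2) ^ 2 := by ring
    rw [this, Real.sq_sqrt h1.le, Real.sq_sqrt h0.le]
  rw [er, div_pow, one_pow, h2]
  field_simp

theorem er_pos {n : ℕ} (hn : 0 < n) : 0 < er n := by
  have h0 : (0 : ℝ) < n := by exact_mod_cast hn
  rw [er]
  have h1 : 0 < Real.sqrt n := Real.sqrt_pos.2 h0
  have h2 : 0 < Real.sqrt (Real.sqrt n) := Real.sqrt_pos.2 h1
  positivity

theorem er_nonneg (n : ℕ) : 0 ≤ er n := by
  rw [er]; positivity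

theorem er_sq {n : ℕ} (hn : 0 < n) : er n ^ 2 * n = Real.sqrt n := by
  have h0 : (0 : ℝ) < n := by exact_mod_cast hn
  have h1 : 0 < Real.sqrt n := Real.sqrt_pos.2 h0
  rw [er, div_pow, one_pow, Real.sq_sqrt h1.le]
  rw [one_div, inv_mul_eq_div, Real.div_sqrt]

theorem er_le_one {n : ℕ} (hn : 0 < n) : er n ≤ 1 := by
  have h1 := er_pow hn
  have h2 : (1 : ℝ) ≤ n := by exact_mod_cast hn
  by_contra h
  push Not at h
  have h3 : 1 < er n ^ 4 := one_lt_pow₀ h (by norm_num)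
  nlinarith

/-- comparison of the errors by fourth powers -/
theorem er_le {a : ℝ} {n m : ℕ} (hn : 0 < n) (hm : 0 < m) (_ha : 0 ≤ a) (h : a ^ 4 * m ≤ n) : a * er n ≤ er m := by
  have h1 := er_pow hn
  have h2 := er_pow hm
  have h3 := er_pos hn
  have h4 := er_pos hm
  have hm0 : (0 : ℝ) < m := by exact_mod_cast hm
  have hn0 : (0 : ℝ) < n := by exact_mod_cast hn
  refine le_of_pow_le_pow_left₀ (n := 4) (by norm_num) h4.le ?_
  have h5 : (a * er n) ^ 4 * (m * n) ≤ er m ^ 4 * (m * n) := by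
    have e1 : (a * er n) ^ 4 * (m * n) = (a ^ 4 * m) * (er n ^ 4 * n) := by ring
    have e2 : er m ^ 4 * (m * n) = (er m ^ 4 * m) * n := by ring
    rw [e1, e2, h1, h2]
    linarith
  exact le_of_mul_le_mul_right h5 (by positivity)

/-- the error grows by a factor when the set shrinks by a factor -/
theorem er_step {τ : ℝ} (h0 : 0 ≤ τ) (_h1 : τ ≤ 1) {n n' : ℕ} (hn' : 0 < n') (h : (n' : ℝ) ≤ (1 - τ) * n) :
    er n + τ / 4 * er n ≤ er n' := by
  have hn'0 : (0 : ℝ) < n' := by exact_mod_cast hn'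
  have hn : 0 < n := by
    rcases Nat.eq_zero_or_pos n with h2 | h2
    · rw [h2] at h
      push_cast at h
      linarith
    · exact h2
  have h2 := er_le (a := 1 + τ / 4) hn hn' (by linarith) (by
    have h3 : (1 + τ / 4) ^ 4 * (1 - τ) ≤ 1 := by
      nlinarith [pow_nonneg h0 2, pow_nonneg h0 3, pow_nonneg h0 4, pow_nonneg h0 5, mul_nonneg h0 (sub_nonneg.2 _h1)]
    have h4 : (0 : ℝ) ≤ (1 + τ / 4) ^ 4 := by positivity
    have h5 : (0 : ℝ) ≤ n := by positivity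
    calc (1 + τ / 4) ^ 4 * (n' : ℝ) ≤ (1 + τ / 4) ^ 4 * ((1 - τ) * n) := mul_le_mul_of_nonneg_left h h4
      _ = ((1 + τ / 4) ^ 4 * (1 - τ)) * n := by ring
      _ ≤ 1 * n := mul_le_mul_of_nonneg_right h3 h5
      _ = n := one_mul _)
  linarith

/-- the error is small for large sets -/
theorem er_small {δ : ℝ} (hδ : 0 < δ) : ∃ n₁ : ℕ, 0 < n₁ ∧ ∀ n, n₁ ≤ n → er n ≤ δ := by
  obtain ⟨n₁, hn₁⟩ := exists_nat_ge (1 / δ ^ 4)
  refine ⟨max n₁ 1, by omega, fun n hn => ?_⟩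
  have h1 : n₁ ≤ n := (le_max_left _ _).trans hn
  have h2 : 0 < n := by
    have := (le_max_right _ _).trans hn
    omega
  have h3 : 1 / δ ^ 4 ≤ n := hn₁.trans (by exact_mod_cast h1)
  rw [div_le_iff₀ (by positivity)] at h3
  have h4 := er_pow h2
  have hn0 : (0 : ℝ) < n := by exact_mod_cast h2
  refine le_of_pow_le_pow_left₀ (n := 4) (by norm_num) hδ.le ?_
  have h5 : er n ^ 4 * n ≤ δ ^ 4 * n := by linarith
  exact le_of_mul_le_mul_right h5 hn0

/-- sets of a quarter of the size -/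
theorem er_quarter {n m : ℕ} (hn : 0 < n) (h : (n : ℝ) / 4 ≤ m) : er m ≤ 2 * er n := by
  have hn0 : (0 : ℝ) < n := by exact_mod_cast hn
  have hm : 0 < m := by
    have : (0 : ℝ) < m := by linarith
    exact_mod_cast this
  have h1 := er_le (a := 1 / 2) hm hn (by norm_num) (by
    norm_num
    linarith)
  linarith

/-- for the error `er n` -/
lemma exists_large (N : ℕ) (hN : 0 < N) (c : ℝ) (hc : 0 < c) : ∃ n0 : ℕ, 0 < n0 ∧ ∀ n : ℕ, n0 ≤ n →
    N ≤ n ∧ (n : ℝ) ^ 5 * N < Real.exp ((er n / 2) ^ 2 * (n / N : ℕ) / 4) ∧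
      2 * (N : ℝ) ≤ er n * n ∧ 2 * (N : ℝ) ≤ c * n := by
  have hNr : (0 : ℝ) < N := by exact_mod_cast hN
  obtain ⟨e, he⟩ : ∃ e : ℝ, e = 1 / (32 * N) := ⟨_, rfl⟩
  have he0 : 0 < e := by rw [he]; positivity
  have ht : Tendsto (fun n : ℕ => (e * Real.sqrt n) ^ 10 * Real.exp (-(e * Real.sqrt n))) atTop (𝓝 0) := by
    have h1 := Real.tendsto_pow_mul_exp_neg_atTop_nhds_zero 10
    refine h1.comp ?_
    exact (Real.tendsto_sqrt_atTop.comp tendsto_natCast_atTop_atTop).const_mul_atTop he0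
  have hev := ht.eventually (gt_mem_nhds (show (0 : ℝ) < e ^ 10 / N by positivity))
  obtain ⟨n1, hn1⟩ := eventually_atTop.1 hev
  obtain ⟨n2, hn2⟩ := exists_nat_ge (2 * (N : ℝ) / c)
  refine ⟨max n1 (max n2 ((2 * N) ^ 2 + 1)), by
    have : 0 < (2 * N) ^ 2 + 1 := by positivity
    exact lt_of_lt_of_le this ((le_max_right _ _).trans (le_max_right _ _)), fun n hn => ?_⟩
  have h1 : n1 ≤ n := (le_max_left _ _).trans hn
  have h2 : n2 ≤ n := ((le_max_left _ _).trans (le_max_right _ _)).trans hn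
  have h3 : (2 * N) ^ 2 + 1 ≤ n := ((le_max_right _ _).trans (le_max_right _ _)).trans hn
  have h4 : 2 * N ≤ n := by nlinarith
  have hnp : 0 < n := by omega
  have hn0 : (0 : ℝ) < n := by exact_mod_cast hnp
  have hsq := er_sq hnp
  have hs1 : 2 * (N : ℝ) ≤ Real.sqrt n := by
    apply Real.le_sqrt_of_sq_le
    have : (((2 * N) ^ 2 + 1 : ℕ) : ℝ) ≤ n := by exact_mod_cast h3
    push_cast at this
    linarith
  have hle := er_le_one hnp
  have hpos := er_pos hnp
  refine ⟨by omega, ?_, ?_, ?_⟩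
  · have h5 := hn1 n h1
    rw [lt_div_iff₀ hNr] at h5
    have h6 : (n : ℝ) ^ 5 = Real.sqrt n ^ 10 := by
      have : Real.sqrt n ^ 10 = (Real.sqrt n ^ 2) ^ 5 := by ring
      rw [this, Real.sq_sqrt hn0.le]
    have h7 : (n : ℝ) ^ 5 * N < Real.exp (e * Real.sqrt n) := by
      have h8 : (e * Real.sqrt n) ^ 10 * Real.exp (-(e * Real.sqrt n)) * N =
          e ^ 10 * ((n : ℝ) ^ 5 * N * Real.exp (-(e * Real.sqrt n))) := by
        rw [h6]; ring
      rw [h8] at h5
      have h9 : (n : ℝ) ^ 5 * N * Real.exp (-(e * Real.sqrt n)) < 1 := by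
        have h10 : (0 : ℝ) < e ^ 10 := by positivity
        nlinarith
      have h11 : Real.exp (-(e * Real.sqrt n)) * Real.exp (e * Real.sqrt n) = 1 := by
        rw [← Real.exp_add]; simp
      have h12 := mul_lt_mul_of_pos_right h9 (Real.exp_pos (e * Real.sqrt n))
      rw [mul_assoc, h11, mul_one, one_mul] at h12
      exact h12
    refine h7.trans_le (Real.exp_le_exp.2 ?_)
    have h13 : (n : ℝ) / (2 * N) ≤ (n / N : ℕ) := by
      have h14 : (n : ℝ) ≤ N * (n / N : ℕ) + N := by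
        have := Nat.div_add_mod n N
        have h15 := Nat.mod_lt n hN
        have h16 : n ≤ N * (n / N) + N := by omega
        exact_mod_cast h16
      have h17 : (2 : ℝ) * N ≤ n := by exact_mod_cast h4
      rw [div_le_iff₀ (by positivity)]
      nlinarith
    have h18 : (er n / 2) ^ 2 * ((n : ℝ) / (2 * N)) / 4 = e * Real.sqrt n := by
      rw [← hsq, he]
      field_simp
      ring
    rw [← h18]
    have h19 : 0 ≤ (er n / 2) ^ 2 := by positivity
    have h20 := mul_le_mul_of_nonneg_left h13 h19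
    linarith
  · have h5 : er n ^ 2 * n ≤ er n * n := by
      apply mul_le_mul_of_nonneg_right _ hn0.le
      nlinarith
    rw [hsq] at h5
    linarith
  · have h5 : (n2 : ℝ) ≤ n := by exact_mod_cast h2
    have h6 := hn2.trans h5
    rw [div_le_iff₀ hc] at h6
    linarith

/-- three representative pieces with error `er |A|` -/
theorem exists_three' {ζ : ℝ} (hζ : 0 < ζ) (hζ1 : ζ ≤ 1 / 8) : ∃ n₁ : ℕ, 0 < n₁ ∧ ∀ {V : Type} (A : Finset V)
    (𝓕 : Finset (Finset V)), n₁ ≤ A.card → 𝓕.card ≤ A.card ^ 5 → ∀ s : ℝ, 0 ≤ s → s ≤ (1 - 4 * ζ) * A.card →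
      ∃ P Rc Ro : Finset V, P ⊆ A ∧ Rc ⊆ A ∧ Ro ⊆ A ∧ Disjoint P Rc ∧ Disjoint P Ro ∧ Disjoint Rc Ro ∧
        s ≤ P.card ∧ (P.card : ℝ) ≤ s + ζ * A.card ∧ ζ * A.card ≤ Rc.card ∧ (Rc.card : ℝ) ≤ 2 * ζ * A.card ∧
        ζ * A.card ≤ Ro.card ∧ (Ro.card : ℝ) ≤ 2 * ζ * A.card ∧
        Rep A 𝓕 (er A.card) P ∧ Rep A 𝓕 (er A.card) Rc ∧ Rep A 𝓕 (er A.card) Ro := by
  obtain ⟨N, hN⟩ := exists_nat_ge (2 * (3 : ℕ) / ζ + 1)
  have hN1 : (1 : ℝ) ≤ N := by
    have : (0 : ℝ) ≤ 2 * (3 : ℕ) / ζ := by positivity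
    linarith
  have hNpos : 0 < N := by
    have : (0 : ℝ) < N := by linarith
    exact_mod_cast this
  have hNm : 2 * ((3 : ℕ) : ℝ) ≤ ζ * N := by
    have h1 : 2 * ((3 : ℕ) : ℝ) / ζ ≤ N := by linarith
    rw [div_le_iff₀ hζ] at h1
    linarith
  obtain ⟨n0, hn00, hn0⟩ := exists_large N hNpos ζ hζ
  refine ⟨n0, hn00, fun {V} A 𝓕 hA h𝓕 s hs0 hs => ?_⟩
  obtain ⟨k1, k2, k3, k4⟩ := hn0 A.card hA
  have hAp : 0 < A.card := hn00.trans_le hA
  obtain ⟨P, Q, q1, q2, q3, q4, q5, q6, q7, q8, q9⟩ := pieces_aux (er_pos hAp) (er_le_one hAp) hζ hNpos hNm A 𝓕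
    k1 h𝓕 k2 k3 k4 3 ![s, ζ * A.card, (1 - 3 * ζ) * A.card - s] le_rfl
    (by
      intro i
      fin_cases i
      · exact hs0
      · show (0 : ℝ) ≤ ζ * A.card
        positivity
      · show (0 : ℝ) ≤ (1 - 3 * ζ) * A.card - s
        have : (0 : ℝ) ≤ ζ * A.card := by positivity
        nlinarith)
    (by
      rw [Fin.sum_univ_three]
      show s + ζ * (A.card : ℝ) + ((1 - 3 * ζ) * A.card - s) ≤ (1 - 2 * ζ) * A.card
      exact le_of_eq (by ring))
  have e0 := q6 0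
  have e1 := q6 1
  have e2 := q6 2
  simp only [Matrix.cons_val_zero, Matrix.cons_val_one] at e0 e1
  have e2' : (1 - 3 * ζ) * (A.card : ℝ) - s ≤ (P 2).card := e2
  have hsum : (((P 0).card + (P 1).card + (P 2).card + Q.card : ℕ) : ℝ) ≤ A.card := by
    have h1 : ((P 0 ∪ P 1) ∪ (P 2 ∪ Q)).card = (P 0).card + (P 1).card + ((P 2).card + Q.card) := by
      rw [card_union_of_disjoint, card_union_of_disjoint (q3 0 1 (by decide)), card_union_of_disjoint (q4 2)]
      rw [disjoint_union_left, disjoint_union_right, disjoint_union_right]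
      exact ⟨⟨q3 0 2 (by decide), q4 0⟩, q3 1 2 (by decide), q4 1⟩
    have h2 : ((P 0 ∪ P 1) ∪ (P 2 ∪ Q)).card ≤ A.card :=
      card_le_card (union_subset (union_subset (q1 0) (q1 1)) (union_subset (q1 2) q5))
    have h3 : (P 0).card + (P 1).card + (P 2).card + Q.card ≤ A.card := by omega
    exact_mod_cast h3
  push_cast at hsum
  have hp : (0 : ℝ) ≤ ζ * A.card := by positivity
  refine ⟨P 0, P 1, Q, q1 0, q1 1, q5, q3 0 1 (by decide), q4 0, q4 1, e0, ?_, e1, ?_, q8, ?_, q7 0, q7 1, q9⟩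
  · nlinarith
  · nlinarith
  · nlinarith

/-- **Three representative pieces** -/
theorem exists_three (N : ℕ) (hN : 4 < N) : ∃ n₁ : ℕ, ∀ {V : Type} (A : Finset V) (𝓕 : Finset (Finset V)),
    n₁ ≤ A.card → 𝓕.card ≤ A.card ^ 3 → ∀ s : ℝ, 0 ≤ s → s ≤ (1 - 4 / N) * A.card →
      ∃ P Q Q' : Finset V, P ⊆ A ∧ Q ⊆ A ∧ Q' ⊆ A ∧ Disjoint P Q ∧ Disjoint P Q' ∧ Disjoint Q Q' ∧
        s - A.card / N ≤ (P.card : ℝ) ∧ (P.card : ℝ) ≤ s ∧
        (A.card : ℝ) / (2 * N) ≤ (Q.card : ℝ) ∧ (Q.card : ℝ) ≤ A.card / N ∧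
        (A.card : ℝ) / (2 * N) ≤ (Q'.card : ℝ) ∧ (Q'.card : ℝ) ≤ A.card / N ∧
        Rep A 𝓕 (er A.card) P ∧ Rep A 𝓕 (er A.card) Q ∧ Rep A 𝓕 (er A.card) Q' := by
  have hN0 : (0 : ℝ) < N := by
    have : 0 < N := by omega
    exact_mod_cast this
  have hN4 : (5 : ℝ) ≤ N := by exact_mod_cast hN
  obtain ⟨ζ, hζ⟩ : ∃ ζ : ℝ, ζ = 1 / (2 * N) := ⟨_, rfl⟩
  have hζ0 : 0 < ζ := by rw [hζ]; positivity
  have hζ1 : ζ ≤ 1 / 8 := by
    rw [hζ]
    apply one_div_le_one_div_of_le (by norm_num)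
    linarith
  obtain ⟨n₁, hn₁, h⟩ := exists_three' hζ0 hζ1
  refine ⟨n₁, fun {V} A 𝓕 hA h𝓕 s hs0 hs => ?_⟩
  have hAp : 0 < A.card := hn₁.trans_le hA
  have h𝓕' : 𝓕.card ≤ A.card ^ 5 := h𝓕.trans (Nat.pow_le_pow_right hAp (by norm_num))
  have hAr : (0 : ℝ) < A.card := by exact_mod_cast hAp
  have e1 : ζ * (A.card : ℝ) = A.card / (2 * N) := by rw [hζ]; ring
  have e2 : 2 * ζ * (A.card : ℝ) = A.card / N := by rw [hζ]; field_simp
  have e3 : (A.card : ℝ) / N = 2 * (A.card / (2 * N)) := by field_simp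
  have e4 : (1 - 4 * ζ) * (A.card : ℝ) = (1 - 4 / N) * A.card + A.card / N + A.card / N := by
    rw [hζ]
    field_simp
    ring
  by_cases hsN : s < A.card / N
  · obtain ⟨P, Rc, Ro, -, p2, p3, -, -, p6, -, -, p9, p10, p11, p12, -, p14, p15⟩ := h A 𝓕 hA h𝓕' 0 le_rfl (by
      have : 4 * ζ ≤ 1 := by linarith
      exact mul_nonneg (by linarith) hAr.le)
    refine ⟨∅, Rc, Ro, empty_subset _, p2, p3, disjoint_empty_left _, disjoint_empty_left _, p6, ?_, ?_, ?_, ?_, ?_, ?_,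
      ?_, p14, p15⟩
    · simp only [card_empty, Nat.cast_zero]
      linarith
    · simpa using hs0
    · rw [← e1]; exact p9
    · rw [← e2]; exact p10
    · rw [← e1]; exact p11
    · rw [← e2]; exact p12
    · intro F _
      simp
  · push Not at hsN
    obtain ⟨P, Rc, Ro, p1, p2, p3, p4, p5, p6, p7, p8, p9, p10, p11, p12, p13, p14, p15⟩ := h A 𝓕 hA h𝓕'
      (s - A.card / N) (by linarith) (by
        have : (0 : ℝ) ≤ A.card / N := by positivity
        linarith)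
    refine ⟨P, Rc, Ro, p1, p2, p3, p4, p5, p6, p7, ?_, ?_, ?_, ?_, ?_, p13, p14, p15⟩
    · rw [e1] at p8
      have : (0 : ℝ) ≤ A.card / (2 * N) := by positivity
      linarith
    · rw [← e1]; exact p9
    · rw [← e2]; exact p10
    · rw [← e1]; exact p11
    · rw [← e2]; exact p12

end AEX
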