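import Pool.Agent.AEX.Defs
import Pool.Agent.AEX.Samp
import Pool.Agent.AELT.Grow

/-!
# The connection structure: test sets, transfer to representative subsets, connections, the start
-/

namespace AEX

open Finset AE15 AED AELT
open scoped Classical

variable {V : Type*} {R : V → V → Prop}

theorem mem_nb {d : Bool} {X : Finset V} {v u : V} : u ∈ nb R d X v ↔ u ∈ X ∧ Adj R d v u := by simp [nb]

theorem nb_mono {d : Bool} {X Y : Finset V} (h : X ⊆ Y) (v : V) : nb R d X v ⊆ nb R d Y v := by
  intro u hu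
  rw [mem_nb] at hu ⊢
  exact ⟨h hu.1, hu.2⟩

theorem nb_inter {d : Bool} {B P : Finset V} (v : V) : nb R d (B ∩ P) v = nb R d B v ∩ P := by
  ext u
  simp only [mem_nb, mem_inter]
  tauto

theorem nb_sub {d : Bool} {X : Finset V} {v : V} : nb R d X v ⊆ X := filter_subset _ _

theorem mem_words (n : ℕ) (w : List Bool) (hw : w.length ≤ n) : w ∈ words n := by
  induction n generalizing w with
  | zero =>
    obtain rfl : w = [] := List.length_eq_zero_iff.1 (by omega)
    simp [words]
  | succ n ih =>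
    obtain _ | ⟨e, w⟩ := w
    · simp [words]
    · simp only [List.length_cons] at hw
      have := ih w (by omega)
      cases e
      · simp [words, this]
      · simp [words, this]

theorem card_words (n : ℕ) : (words n).card + 1 ≤ 2 ^ (n + 1) := by
  induction n with
  | zero => simp [words]
  | succ n ih =>
    have e1 := card_union_le ({[]} : Finset (List Bool))
      ((words n).image (fun w => true :: w) ∪ (words n).image (fun w => false :: w))
    have e2 := card_union_le ((words n).image (fun w => true :: w)) ((words n).image (fun w => false :: w))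
    have e3 : ((words n).image (fun w => true :: w)).card ≤ (words n).card := card_image_le
    have e4 : ((words n).image (fun w => false :: w)).card ≤ (words n).card := card_image_le
    have e5 : (words (n + 1)).card ≤ 1 + 2 * (words n).card := by
      rw [words]
      rw [card_singleton] at e1
      omega
    rw [pow_succ]
    omega

theorem two_pow_le (ℓ : ℕ) : 6 * 2 ^ (ℓ + 1) ≤ 8 * 3 ^ ℓ + 4 := by
  induction ℓ with
  | zero => norm_num
  | succ ℓ ih =>
    rw [pow_succ, pow_succ 3 ℓ]
    have : 1 ≤ 3 ^ ℓ := Nat.one_le_pow _ _ (by norm_num)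
    omega

theorem card_fam {V : Type*} {R : V → V → Prop} (X S : Finset V) (ℓ : ℕ) (k : ℝ) :
    (fam R X S ℓ k).card ≤ 8 * 3 ^ ℓ * X.card ^ 2 := by
  have hw := card_words ℓ
  have hp := two_pow_le ℓ
  have e1 : (fam R X S ℓ k).card ≤ (words ℓ).card * (2 * X.card) + (words ℓ).card * (2 * (2 * (X.card * X.card))) +
      2 * X.card := by
    rw [fam]
    refine (card_union_le _ _).trans (Nat.add_le_add ((card_union_le _ _).trans (Nat.add_le_add
      (card_image_le.trans ?_) (card_image_le.trans ?_))) (card_image_le.trans ?_))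
    · rw [card_product, card_product, card_univ, Fintype.card_bool]
    · rw [card_product, card_product, card_product, card_product, card_univ, Fintype.card_bool]
    · rw [card_product, card_univ, Fintype.card_bool]
  refine e1.trans ?_
  rcases Nat.eq_zero_or_pos X.card with h | h
  · rw [h]; simp
  · have h1 : X.card ≤ X.card ^ 2 := by nlinarith
    have h2 : (words ℓ).card * (2 * X.card) + (words ℓ).card * (2 * (2 * (X.card * X.card))) + 2 * X.card ≤
        (6 * (words ℓ).card + 2) * X.card ^ 2 := by nlinarith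
    refine h2.trans (Nat.mul_le_mul_right _ ?_)
    omega

theorem Bk_mono {Y : Finset V} {k k' : ℝ} (hk : k' ≤ k) (z : V) (d : Bool) (w : List Bool) :
    Bk R Y k z d w ⊆ Bk R Y k' z d w := by
  induction w with
  | nil => exact Subset.refl _
  | cons e w ih =>
    intro v hv
    simp only [Bk, mem_filter] at hv ⊢
    refine ⟨hv.1, hk.trans (hv.2.trans ?_)⟩
    exact_mod_cast card_le_card (nb_mono ih v)

theorem Str.mono {V : Type*} {R : V → V → Prop} {X X' S : Finset V} {ℓ : ℕ} {α β κ α' β' κ' : ℝ}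
    (h : Str R X S ℓ α β κ) (hX : X' ⊆ X) (hα : α' ≤ α) (hβ : β ≤ β') (hκ : κ' ≤ κ) : Str R X' S ℓ α' β' κ' := by
  have hS : (0 : ℝ) ≤ S.card := by positivity
  refine ⟨fun v hv d => (mul_le_mul_of_nonneg_right hα hS).trans (h.1 v (hX hv) d), fun z hz d w hw => ?_⟩
  refine le_trans ?_ ((h.2 z (hX hz) d w hw).trans (mul_le_mul_of_nonneg_right hβ hS))
  exact_mod_cast card_le_card (sdiff_subset_sdiff (Subset.refl _) (Bk_mono (mul_le_mul_of_nonneg_right hκ hS) z d w))

/-- a member of the family is well represented -/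
theorem rep_nb {A P F : Finset V} {𝓕 : Finset (Finset V)} {ε κ : ℝ} (h : Rep A 𝓕 ε P) (hF : F ∈ 𝓕)
    (hFA : F ⊆ A) (hA : A.Nonempty) (hκ : κ * A.card ≤ F.card) : (κ - ε) * P.card ≤ ((F ∩ P).card : ℝ) := by
  refine le_trans ?_ (h F hF)
  rw [inter_eq_left.2 hFA]
  refine mul_le_mul_of_nonneg_right ?_ (by positivity)
  have h1 : (0 : ℝ) < A.card := by exact_mod_cast hA.card_pos
  have h2 : κ ≤ (F.card : ℝ) / A.card := by rwa [le_div_iff₀ h1]
  linarith

/-- the backward sets in a representative subset -/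
theorem Bk_rep {X S P : Finset V} {ℓ : ℕ} {κ ε : ℝ} (hS : S ⊆ X) (_hP : P ⊆ S) (hne : S.Nonempty)
    (hr : Rep S (fam R X S ℓ (κ * S.card)) ε P) {z : V} (hz : z ∈ X) (d : Bool) (w : List Bool) (hw : w.length ≤ ℓ) :
    Bk R S (κ * S.card) z d w ∩ P ⊆ Bk R P ((κ - ε) * P.card) z d w := by
  induction w with
  | nil =>
    intro v hv
    simp only [Bk, mem_inter, mem_filter] at hv ⊢
    exact ⟨hv.2, hv.1.2⟩
  | cons e w ih =>
    intro v hv
    simp only [List.length_cons] at hw
    have ih' := ih (by omega)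
    rw [mem_inter] at hv
    have hv1 := hv.1
    simp only [Bk, mem_filter] at hv1 ⊢
    refine ⟨hv.2, ?_⟩
    have e1 := rep_nb hr (F := nb R e (Bk R S (κ * S.card) z d w) v) (κ := κ) (by
      rw [fam, mem_union, mem_union, mem_image, mem_image]
      refine Or.inl (Or.inr ⟨(w, e, d, z, v), ?_, rfl⟩)
      simp only [mem_product, mem_univ, true_and]
      exact ⟨mem_words ℓ w (by omega), hz, hS hv1.1⟩) (nb_sub.trans (Bk_sub w)) hne hv1.2
    rw [← nb_inter] at e1
    refine e1.trans ?_
    exact_mod_cast card_le_card (nb_mono ih' v)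

theorem Str.rep {V : Type*} {R : V → V → Prop} {X S P : Finset V} {ℓ : ℕ} {α β κ ε : ℝ}
    (h : Str R X S ℓ α β κ) (hS : S ⊆ X) (hP : P ⊆ S) (hr : Rep S (fam R X S ℓ (κ * S.card)) ε P) :
    Str R X P ℓ (α - ε) (β + ε) (κ - ε) := by
  rcases S.eq_empty_or_nonempty with rfl | hne
  · have hP' : P = ∅ := subset_empty.1 hP
    subst hP'
    refine ⟨fun v _ d => by simp, fun z _ d w _ => by simp⟩
  have hS0 : (0 : ℝ) < S.card := by exact_mod_cast hne.card_pos
  have hP0 : (0 : ℝ) ≤ P.card := by positivity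
  constructor
  · intro v hv d
    have e1 := rep_nb hr (F := nb R d S v) (κ := α) (by
      rw [fam, mem_union, mem_image (f := fun q : Bool × V => nb R q.1 S q.2)]
      refine Or.inr ⟨(d, v), ?_, rfl⟩
      simp only [mem_product, mem_univ, true_and]
      exact hv) nb_sub hne (h.1 v hv d)
    have e2 : nb R d S v ∩ P = nb R d P v := by
      rw [← nb_inter, inter_eq_right.2 hP]
    rwa [e2] at e1
  · intro z hz d w hw
    have h1 := h.2 z hz d w hw
    set B := Bk R S (κ * S.card) z d w with hB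
    have hBS : B ⊆ S := Bk_sub w
    have h2 := card_sdiff_add_card_eq_card hBS
    have h2' : ((S \ B).card : ℝ) + B.card = S.card := by exact_mod_cast h2
    have e1 := rep_nb hr (F := B) (κ := 1 - β) (by
      rw [fam, mem_union, mem_union, mem_image]
      refine Or.inl (Or.inl ⟨(w, d, z), ?_, rfl⟩)
      simp only [mem_product, mem_univ, true_and]
      exact ⟨mem_words ℓ w (by omega), hz⟩) hBS hne (by linarith)
    have e2 := Bk_rep hS hP hne hr hz d w (by omega)
    have e3 : (P \ Bk R P ((κ - ε) * P.card) z d w).card + (B ∩ P).card ≤ P.card := by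
      have e4 : Disjoint (P \ Bk R P ((κ - ε) * P.card) z d w) (B ∩ P) := by
        rw [disjoint_left]
        intro v hv hv'
        exact (mem_sdiff.1 hv).2 (e2 hv')
      rw [← card_union_of_disjoint e4]
      exact card_le_card (union_subset sdiff_subset inter_subset_right)
    have e5 : ((P \ Bk R P ((κ - ε) * P.card) z d w).card : ℝ) + (B ∩ P).card ≤ P.card := by exact_mod_cast e3
    nlinarith

/-- a set from which one vertex is deleted -/
theorem rep_erase {V : Type*} {S : Finset V} (y : V) (𝓕 : Finset (Finset V)) (hS : 2 ≤ S.card) :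
    Rep S 𝓕 (2 * er S.card) (S.erase y) := by
  intro F _
  have hn : 0 < S.card := by omega
  have hn0 : (0 : ℝ) < S.card := by exact_mod_cast hn
  have hn2 : (2 : ℝ) ≤ S.card := by exact_mod_cast hS
  set f : ℝ := ((F ∩ S).card : ℝ) with hf
  have hf0 : 0 ≤ f := by positivity
  have hf1 : f ≤ S.card := by
    rw [hf]; exact_mod_cast card_le_card inter_subset_right
  have h1 : f ≤ ((F ∩ S.erase y).card : ℝ) + 1 := by
    have : (F ∩ S).card ≤ (F ∩ S.erase y).card + 1 := by
      have h2 : F ∩ S ⊆ insert y (F ∩ S.erase y) := by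
        intro v hv
        rw [mem_inter] at hv
        by_cases h : v = y
        · rw [h]; exact mem_insert_self _ _
        · exact mem_insert_of_mem (mem_inter.2 ⟨hv.1, mem_erase.2 ⟨h, hv.2⟩⟩)
      exact (card_le_card h2).trans (card_insert_le _ _)
    rw [hf]
    exact_mod_cast this
  by_cases hy : y ∈ S
  · have h3 : ((S.erase y).card : ℝ) = S.card - 1 := by
      rw [card_erase_of_mem hy, Nat.cast_sub hn, Nat.cast_one]
    rw [h3]
    -- `1 ≤ 2 er (n) (n - 1) + f / n`
    have h4 : 1 ≤ 2 * er S.card * (S.card - 1) := by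
      have h5 := er_pow hn
      have h6 := er_pos hn
      have h7 := er_le_one hn
      -- er n ^ 4 * n = 1 and er ≤ 1 give er n * n ≥ 1
      have h8 : 1 ≤ er S.card * S.card := by
        have h9 : er S.card ^ 4 ≤ er S.card := by
          have h10 : er S.card ^ 3 ≤ 1 := pow_le_one₀ h6.le h7
          nlinarith
        nlinarith
      nlinarith
    have h5 : f / S.card * (S.card - 1) ≤ f := by
      rw [div_mul_eq_mul_div, div_le_iff₀ hn0]
      nlinarith
    nlinarith
  · rw [erase_eq_of_notMem hy]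
    have h6 := er_pos hn
    have h7 : f / S.card * S.card = f := div_mul_cancel₀ _ hn0.ne'
    nlinarith [mul_pos h6 hn0]

/-- from a vertex of a backward set one can follow the word -/
private theorem walk_of {S : Finset V} {k : ℝ} {z : V} (d : Bool) (w : List Bool) :
    ∀ (F : Finset V), F ⊆ S → (F.card + w.length : ℝ) < k → ∀ v ∈ Bk R S k z d w,
      ∃ l : List (Bool × V), l.map Prod.fst = w ∧ Wk R v (l ++ [(d, z)]) ∧ (l.map Prod.snd).Nodup ∧
        ∀ p ∈ l, p.2 ∈ S ∧ p.2 ∉ F := by
  induction w with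
  | nil =>
    intro F _ _ v hv
    simp only [Bk, mem_filter] at hv
    exact ⟨[], rfl, ⟨hv.2, trivial⟩, List.nodup_nil, by simp⟩
  | cons e w ih =>
    intro F hF hc v hv
    simp only [Bk, mem_filter] at hv
    have e1 := hv.2
    simp only [List.length_cons] at hc
    push_cast at hc
    have e2 : F.card < (nb R e (Bk R S k z d w) v).card := by
      have : (F.card : ℝ) < (nb R e (Bk R S k z d w) v).card := by
        have : (0 : ℝ) ≤ w.length := by positivity
        linarith
      exact_mod_cast this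
    obtain ⟨u, hu, huF⟩ := exists_mem_notMem_of_card_lt_card e2
    rw [mem_nb] at hu
    have huS : u ∈ S := Bk_sub w hu.1
    obtain ⟨l, k1, k2, k3, k4⟩ := ih (insert u F) (insert_subset huS hF) (by
      rw [card_insert_of_notMem huF]
      push_cast
      linarith) u hu.1
    refine ⟨(e, u) :: l, by simp [k1], ⟨hu.2, k2⟩, ?_, ?_⟩
    · rw [List.map_cons, List.nodup_cons]
      refine ⟨?_, k3⟩
      intro h
      obtain ⟨p, hp, hpu⟩ := List.mem_map.1 h
      exact (k4 p hp).2 (by rw [hpu]; exact mem_insert_self _ _)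
    · intro p hp
      rcases List.mem_cons.1 hp with rfl | hp
      · exact ⟨huS, huF⟩
      · exact ⟨(k4 p hp).1, fun h => (k4 p hp).2 (mem_insert_of_mem h)⟩

theorem conn_of_str {V : Type*} {R : V → V → Prop} {X Q : Finset V} {ℓ w₀ : ℕ} {α β κ : ℝ} (h : Str R X Q ℓ α β κ)
    (_hQ : Q ⊆ X) (h1 : (w₀ + ℓ + 2 : ℝ) ≤ (α - β) * Q.card) (h2 : (w₀ + ℓ + 2 : ℝ) ≤ κ * Q.card) :
    Conn R X Q (ℓ + 1) w₀ := by
  intro y hy z hz ds hds d W hW
  obtain _ | ⟨e, w⟩ := ds
  · simp at hds
  simp only [List.length_cons, Nat.add_right_cancel_iff] at hds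
  have hW' : ((W ∩ Q).card : ℝ) ≤ w₀ := by exact_mod_cast hW
  have hℓ' : (w.length : ℝ) = ℓ := by exact_mod_cast hds
  set B := Bk R Q (κ * Q.card) z d w with hB
  have e0 := h.1 y hy e
  have e1 := h.2 z hz d w hds
  have e3 : (nb R e Q y).card ≤ (nb R e B y).card + (Q \ B).card := by
    have : nb R e Q y ⊆ nb R e B y ∪ (Q \ B) := by
      intro u hu
      rw [mem_nb] at hu
      by_cases hB : u ∈ B
      · exact mem_union_left _ (mem_nb.2 ⟨hB, hu.2⟩)
      · exact mem_union_right _ (mem_sdiff.2 ⟨hu.1, hB⟩)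
    exact (card_le_card this).trans (card_union_le _ _)
  have e4 : ((nb R e Q y).card : ℝ) ≤ (nb R e B y).card + (Q \ B).card := by exact_mod_cast e3
  have e2 : (W ∩ Q).card < (nb R e B y).card := by
    have : ((W ∩ Q).card : ℝ) < (nb R e B y).card := by
      have : (0 : ℝ) ≤ ℓ := by positivity
      nlinarith
    exact_mod_cast this
  obtain ⟨u, hu, huF⟩ := exists_mem_notMem_of_card_lt_card e2
  rw [mem_nb] at hu
  have huS : u ∈ Q := Bk_sub w hu.1
  obtain ⟨l, k1, k2, k3, k4⟩ := walk_of d w (insert u (W ∩ Q)) (insert_subset huS inter_subset_right) (by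
    rw [card_insert_of_notMem huF]
    push_cast
    linarith) u hu.1
  refine ⟨(e, u) :: l, by simp [k1], ⟨hu.2, k2⟩, ?_, ?_⟩
  · rw [List.map_cons, List.nodup_cons]
    refine ⟨?_, k3⟩
    intro h
    obtain ⟨p, hp, hpu⟩ := List.mem_map.1 h
    exact (k4 p hp).2 (by rw [hpu]; exact mem_insert_self _ _)
  · intro p hp
    rcases List.mem_cons.1 hp with rfl | hp
    · exact ⟨huS, fun h => huF (mem_inter.2 ⟨h, huS⟩)⟩
    · refine ⟨(k4 p hp).1, fun h => (k4 p hp).2 (mem_insert_of_mem (mem_inter.2 ⟨h, (k4 p hp).1⟩))⟩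

/-- the degrees in an expanding tournament -/
theorem deg_of_ex {a : ℝ} {Y : Finset V} (h : Ex R a Y) (hY : 2 ≤ Y.card) {z : V} (hz : z ∈ Y) (d : Bool) :
    a ≤ ((nb R d Y z).card : ℝ) := by
  have h1 := h.adj d {z} (singleton_subset_iff.2 hz)
  have h2 : 1 ≤ (Y \ {z}).card := by
    have h3 := card_sdiff_add_card_eq_card (singleton_subset_iff.2 hz)
    rw [card_singleton] at h3
    omega
  rw [card_singleton, min_eq_left h2] at h1
  have h4 : ar (Adj R d) {z} (Y \ {z}) = (nO (Adj R d) (Y \ {z}) z).card := by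
    unfold ar
    simp
  rw [h4] at h1
  have h5 : ((nO (Adj R d) (Y \ {z}) z).card : ℝ) ≤ (nb R d Y z).card := by
    rw [nb_eq_nO]
    exact_mod_cast card_le_card (nO_mono sdiff_subset)
  simpa using h1.trans h5

theorem str_start {θ : ℝ} (hθ : 0 < θ) (hθ1 : θ ≤ 1) : ∃ ℓ n₁ : ℕ, ∀ {V : Type} {R : V → V → Prop}, AE32.Tour R →
    ∀ X : Finset V, n₁ ≤ X.card → Ex R (θ * X.card) X → ∀ y ∈ X,
      Str R X (X.erase y) ℓ (θ - 2 * er X.card) (θ / 4 + 2 * er X.card) (θ ^ 2 / 100 - 2 * er X.card) := by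
  obtain ⟨ℓ, n₁, h⟩ := exists_pat hθ hθ1
  refine ⟨ℓ, max n₁ 2, ?_⟩
  intro V R hT X hX hE y _
  have hX1 : n₁ ≤ X.card := (le_max_left _ _).trans hX
  have hX2 : 2 ≤ X.card := (le_max_right _ _).trans hX
  have h1 : Str R X X ℓ θ (θ / 4) (θ ^ 2 / 100) :=
    ⟨fun v hv d => deg_of_ex hE hX2 hv d, fun z hz d w hw => h hT X hX1 hE z hz d w hw.ge⟩
  exact h1.rep (Subset.refl _) (erase_subset _ _) (rep_erase y _ hX2)

end AEX
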