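import Pool.Agent.AEX.Branch
import Pool.Agent.AEX.Four
import Pool.Agent.AEX.Samp
import Pool.Agent.AEX.Str
import Pool.Agent.AEX.Stage

/-!
# The chain: a tree is embedded in stages, with nested random reserves
-/

namespace AEX

open Finset AE15 AED AELT
open scoped Classical

/-- small trees at a vertex with large degrees -/
theorem crude {V : Type} {R : V → V → Prop} {b : ℕ} (hU : Un R b 4 0) {Q : Finset V} {κ : ℝ} {y : V}
    (ho : ∀ d : Bool, κ ≤ ((nb R d Q y).card : ℝ)) (ts : List (Bool × Fd)) (hts : ∀ p ∈ ts, p.2.len ≤ b ∧ p.2.Deg b)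
    (W : Finset V) (h : 4 * (tsz ts : ℝ) + W.card ≤ κ) : ∃ S, EmbL R y ts S ∧ S ⊆ Q ∧ Disjoint S W := by
  induction ts generalizing W with
  | nil => exact ⟨∅, rfl, empty_subset _, disjoint_empty_left _⟩
  | cons p ts ih =>
    rw [tsz_cons] at h
    push_cast at h
    obtain ⟨h1, h2⟩ := hts p (by simp)
    have hc : ((nb R p.1 Q y).card : ℝ) ≤ ((nb R p.1 Q y \ W).card : ℝ) + W.card := by
      have := card_le_card_sdiff_add_card (s := nb R p.1 Q y) (t := W)
      exact_mod_cast this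
    have h0 : (0 : ℝ) ≤ (tsz ts : ℝ) := Nat.cast_nonneg _
    obtain ⟨x, hx, A, hA, hxA, -, hE⟩ := hU p.2 h1 h2 (nb R p.1 Q y \ W) (by
      have := ho p.1
      linarith)
    obtain ⟨S, hS1, hS2, hS3⟩ := ih (fun q hq => hts q (List.mem_cons_of_mem _ hq)) (W ∪ insert x A) (by
      have h3 : ((W ∪ insert x A).card : ℝ) ≤ W.card + (p.2.size + 1) := by
        have h4 := card_union_le W (insert x A)
        have h5 : (insert x A).card = p.2.size + 1 := by
          rw [card_insert_of_notMem hxA, hE.card]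
        rw [h5] at h4
        exact_mod_cast h4
      have h6 : (0 : ℝ) ≤ (p.2.size : ℝ) := Nat.cast_nonneg _
      linarith)
    have hsub : insert x A ⊆ nb R p.1 Q y \ W := insert_subset hx hA
    rw [disjoint_union_right] at hS3
    refine ⟨insert x A ∪ S, ⟨insert x A, S, hS3.2.symm, rfl, ⟨x, A, ?_, hxA, rfl, hE⟩, hS1⟩, ?_, ?_⟩
    · have h7 := (mem_sdiff.1 hx).1
      exact (mem_filter.1 h7).2
    · refine union_subset (hsub.trans (sdiff_subset.trans (filter_subset _ _))) hS2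
    · rw [disjoint_union_left]
      exact ⟨(disjoint_of_subset_left hsub sdiff_disjoint), hS3.1⟩

/-- the size of the next reserve -/
theorem target {x x' s N c₁ τ : ℝ} (hc : 0 < c₁) (hcτ : c₁ ≤ τ) (hτ : τ ≤ 1) (hN : 16 ≤ c₁ * N) (hx : 0 ≤ x)
    (hs1 : x / 4 ≤ s) (hs2 : s ≤ x) (h1 : c₁ * x ≤ x') (h2 : x' ≤ (1 - τ) * x) :
    0 ≤ min ((1 - τ / 2) * s) (x' / 2) ∧ min ((1 - τ / 2) * s) (x' / 2) ≤ (1 - 4 / N) * s ∧
      x' / 4 ≤ min ((1 - τ / 2) * s) (x' / 2) - s / N ∧ min ((1 - τ / 2) * s) (x' / 2) ≤ x' / 2 ∧ s / N ≤ c₁ * x / 16 := by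
  have hs0 : 0 ≤ s := le_trans (by positivity) hs1
  have hN0 : 0 < N := by
    by_contra h
    have : c₁ * N ≤ 0 := mul_nonpos_of_nonneg_of_nonpos hc.le (not_lt.1 h)
    linarith
  have h3 : 1 / N ≤ c₁ / 16 := by
    rw [div_le_div_iff₀ hN0 (by norm_num)]
    linarith
  have h4 : s / N ≤ s * (c₁ / 16) := by
    rw [div_eq_mul_one_div]
    exact mul_le_mul_of_nonneg_left h3 hs0
  have h5 : 4 / N ≤ c₁ / 4 := by
    rw [div_eq_mul_one_div]
    linarith
  have hx'0 : 0 ≤ x' := le_trans (by positivity) h1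
  have hcs : s * c₁ ≤ x * c₁ := mul_le_mul_of_nonneg_right hs2 hc.le
  have hτs : s * c₁ ≤ s * τ := mul_le_mul_of_nonneg_left hcτ hs0
  refine ⟨le_min (mul_nonneg (by linarith) hs0) (by linarith), ?_, ?_, min_le_right _ _, by nlinarith⟩
  · refine (min_le_left _ _).trans (mul_le_mul_of_nonneg_right ?_ hs0)
    linarith
  · rw [le_sub_iff_add_le]
    refine le_min ?_ ?_
    · have h6 : (1 - τ) * (x / 4) ≤ (1 - τ) * s := mul_le_mul_of_nonneg_left hs1 (by linarith)
      nlinarith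
    · nlinarith

/-- bounds for the parameters after a sampling step -/
theorem params {θ e er₁ : ℝ} (hθ : 0 < θ) (hθ1 : θ ≤ 1) (he : e ≤ θ ^ 2 / 400) (he1 : er₁ ≤ e) :
    θ / 2 ≤ θ - e - er₁ ∧ θ / 6 ≤ (θ - e - er₁) - (θ / 4 + e + er₁) ∧ θ ^ 2 / 200 ≤ θ ^ 2 / 100 - e - er₁ := by
  have h1 : θ ^ 2 ≤ θ := by nlinarith
  refine ⟨by linarith, by linarith, by linarith⟩

/-- **The chain.** -/
theorem chain_aux (b : ℕ) (hb : 1 ≤ b) {θ : ℝ} (hθ : 0 < θ) (hθ1 : θ ≤ 1) (ℓ : ℕ) : ∃ (C : ℕ) (B : ℝ), 2 ≤ B ∧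
    ∀ {V : Type} {R : V → V → Prop}, AE32.Tour R → ∀ (n : ℕ) (c : Fd), c.size ≤ n → c.len ≤ b → c.Deg b →
      ∀ (X S : Finset V) (y : V), S ⊆ X → y ∈ X → y ∉ S → (X.card : ℝ) / 4 ≤ S.card →
        Str R X S ℓ (θ - B * er X.card) (θ / 4 + B * er X.card) (θ ^ 2 / 100 - B * er X.card) →
        c.size + 1 + C ≤ X.card → ∃ A ⊆ X, y ∉ A ∧ Emb R c y A := by
  -- the constants
  have hb0 : (0 : ℝ) < b := by exact_mod_cast hb
  have hb1 : (1 : ℝ) ≤ b := by exact_mod_cast hb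
  obtain ⟨τ, hτ⟩ : ∃ τ : ℝ, τ = θ / 80 := ⟨_, rfl⟩
  have hτ0 : 0 < τ := by rw [hτ]; positivity
  have hτ1 : τ ≤ 1 := by rw [hτ]; linarith
  obtain ⟨c₁, hc₁⟩ : ∃ c₁ : ℝ, c₁ = τ / b := ⟨_, rfl⟩
  have hc0 : 0 < c₁ := by rw [hc₁]; positivity
  have hcτ : c₁ ≤ τ := by rw [hc₁]; exact div_le_self hτ0.le hb1
  have hcb : c₁ * b = τ := by rw [hc₁]; field_simp
  obtain ⟨N, hN⟩ : ∃ N : ℕ, 16 / c₁ ≤ (N : ℝ) := exists_nat_ge _
  have hN16 : 16 ≤ c₁ * N := by
    rw [div_le_iff₀ hc0] at hN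
    linarith
  have hN4 : 4 < N := by
    have h1 : (16 : ℝ) ≤ N := by
      have : c₁ * N ≤ 1 * N := mul_le_mul_of_nonneg_right (hcτ.trans hτ1) (Nat.cast_nonneg _)
      linarith
    have h2 : (16 : ℕ) ≤ N := by exact_mod_cast h1
    omega
  have hN0 : (0 : ℝ) < N := by
    have : 0 < N := by omega
    exact_mod_cast this
  obtain ⟨n₁, hn₁⟩ := exists_three N hN4
  obtain ⟨B, hB⟩ : ∃ B : ℝ, B = 8 / τ := ⟨_, rfl⟩
  have hB2 : 2 ≤ B := by
    rw [hB, le_div_iff₀ hτ0]
    linarith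
  have hBτ : B * (τ / 4) = 2 := by rw [hB]; field_simp; norm_num
  obtain ⟨K, hK⟩ : ∃ K : ℕ, 32 * b / c₁ ≤ (K : ℝ) := exists_nat_ge _
  rw [div_le_iff₀ hc0] at hK
  have hl0 : 0 ≤ lam b (ℓ + 1) := lam_nonneg b (ℓ + 1)
  have hl1 : lam b (ℓ + 1) < 1 := by
    unfold lam
    have : (0 : ℝ) < 1 / ((b : ℝ) + 1) ^ (ℓ + 1) := by positivity
    linarith
  obtain ⟨J, hJ⟩ := exists_pow_lt_of_lt_one (show 0 < θ / (160 * N) by positivity) hl1
  obtain ⟨M, hM⟩ : ∃ M : ℝ, M = (b + K) * Mc b (ℓ + 1) J := ⟨_, rfl⟩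
  have hM0 : 0 ≤ M := by rw [hM]; unfold Mc; positivity
  obtain ⟨w₀, hw₀⟩ : ∃ w₀ : ℕ, w₀ = 1 + (b + K) * cc b (ℓ + 1) J := ⟨_, rfl⟩
  obtain ⟨n₂, hn₂, hn₂'⟩ := er_small (show 0 < θ ^ 2 / (400 * B) by positivity)
  obtain ⟨n₃, hn₃⟩ : ∃ n₃ : ℕ, (5 * M + 1) * (32 * N) / θ ≤ (n₃ : ℝ) := exists_nat_ge _
  obtain ⟨n₄, hn₄⟩ : ∃ n₄ : ℕ, (w₀ + ℓ + 2) * (8 * N) * (200 / θ ^ 2) ≤ (n₄ : ℝ) := exists_nat_ge _
  obtain ⟨n₅, hn₅⟩ : ∃ n₅ : ℕ, 32 * b / c₁ ≤ (n₅ : ℝ) := exists_nat_ge _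
  obtain ⟨C, hCd⟩ : ∃ C : ℕ, C = 4 * n₁ + 512 * 3 ^ ℓ + n₂ + n₃ + n₄ + n₅ + 1 := ⟨_, rfl⟩
  refine ⟨C, B, hB2, ?_⟩
  intro V R hT n
  have hU : Un R b 4 0 := un_four hT b
  induction n with
  | zero =>
    intro c hc _ _ X S y _ _ _ _ _ _
    obtain rfl : c = .nil := by
      cases c with
      | nil => rfl
      | node d c s => simp [Fd.size] at hc
    exact ⟨∅, empty_subset _, notMem_empty _, rfl⟩
  | succ n ih =>
    intro c hcn hl hd X S y hSX hyX hyS hXS hStr hsize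
    obtain ⟨x, hx⟩ : ∃ x : ℝ, x = (X.card : ℝ) := ⟨_, rfl⟩
    have hXC : C ≤ X.card := by omega
    have hxC : ∀ k : ℕ, k ≤ C → (k : ℝ) ≤ x := by
      intro k hk
      rw [hx]
      exact_mod_cast hk.trans hXC
    have hx0 : 0 < x := by
      have := hxC 1 (by omega)
      push_cast at this
      linarith
    have hs2 : (S.card : ℝ) ≤ x := by rw [hx]; exact_mod_cast card_le_card hSX
    obtain ⟨e, he⟩ : ∃ e : ℝ, e = B * er X.card := ⟨_, rfl⟩
    have hB0 : 0 < B := by linarith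
    have he400 : e ≤ θ ^ 2 / 400 := by
      have h1 := hn₂' X.card (by omega)
      have h2 := mul_le_mul_of_nonneg_left h1 hB0.le
      rw [he]
      refine h2.trans (le_of_eq ?_)
      field_simp
    have hXpos : 0 < X.card := by omega
    have heS : er S.card ≤ 2 * er X.card := er_quarter hXpos hXS
    have her0 : 0 ≤ er X.card := by unfold er; positivity
    have heS' : er S.card ≤ e := by
      rw [he]
      exact heS.trans (mul_le_mul_of_nonneg_right hB2 her0)
    have he0 : 0 ≤ e := by rw [he]; positivity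
    obtain ⟨g1, g2, g3⟩ := params hθ hθ1 he400 heS'
    rw [← he] at hStr
    rw [← hx] at hXS
    by_cases hcrude : (c.size : ℝ) ≤ θ / 40 * x
    · -- few vertices are left: they are attached directly
      have h1 : ∀ d : Bool, θ / 2 * (x / 4) ≤ ((nb R d S y).card : ℝ) := by
        intro d
        refine le_trans ?_ (hStr.1 y hyX d)
        refine mul_le_mul ?_ hXS (by positivity) ?_
        · have : 0 ≤ er S.card := by unfold er; positivity
          linarith
        · have : 0 ≤ er S.card := by unfold er; positivity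
          linarith
      obtain ⟨A, hA1, hA2, -⟩ := crude hU h1 c.trees ((Fd.deg_iff b c).1 hd) ∅ (by
        rw [card_empty, show tsz c.trees = c.size from (Fd.size_eq c).symm]
        push_cast
        have : 0 ≤ θ * x := by positivity
        linarith)
      exact ⟨A, hA2.trans hSX, fun h => hyS (hA2 h), (emb_iff c y A).2 hA1⟩
    push Not at hcrude
    -- one branch is left for the next stage
    obtain ⟨m', hm'⟩ : ∃ m' : ℕ, m' = c.size / (2 * b) := ⟨_, rfl⟩
    have hcpos : 0 < c.size := by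
      have : (0 : ℝ) < c.size := lt_of_le_of_lt (by positivity) hcrude
      exact_mod_cast this
    have hm1 : 2 * (b * m') ≤ c.size := by
      rw [hm', ← mul_assoc]
      exact Nat.mul_div_le _ _
    have hm2 : c.size < 2 * b * (m' + 1) := by
      rw [hm']
      exact Nat.lt_mul_div_succ _ (by omega)
    obtain ⟨p, c', hp1, hp2, hp3, hp4, hp5, hp6, hp7, hp8⟩ := branch b m' c hl hd (by omega)
    have hhalf : c.size ≤ 2 * (c'.size + 1) := by omega
    obtain ⟨x', hx'⟩ : ∃ x' : ℝ, x' = x - (c'.size + 1) := ⟨_, rfl⟩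
    have hx'1 : x' ≤ (1 - τ) * x := by
      have h1 : (c.size : ℝ) ≤ 2 * (c'.size + 1) := by exact_mod_cast hhalf
      rw [hx', hτ]
      linarith
    have hsizeR : (c'.size : ℝ) + (p.2.size + 1) + 1 + C ≤ x := by
      rw [hx]
      rw [hp1] at hsize
      exact_mod_cast hsize
    have hC0 : (0 : ℝ) ≤ C := Nat.cast_nonneg _
    have hx'2 : c₁ * x ≤ x' := by
      have h1 : (m' : ℝ) + 1 ≤ p.2.size + 1 := by exact_mod_cast hp6
      have h2 : (c.size : ℝ) < 2 * b * (m' + 1) := by exact_mod_cast hm2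
      have h3 : 2 * b * (c₁ * x) = θ / 40 * x := by
        calc 2 * b * (c₁ * x) = 2 * (c₁ * b) * x := by ring
          _ = θ / 40 * x := by rw [hcb, hτ]; ring
      have h4 : 2 * (b : ℝ) * (c₁ * x) < 2 * b * (m' + 1) := by linarith
      have h5 : c₁ * x < m' + 1 := lt_of_mul_lt_mul_left h4 (by positivity)
      rw [hx']
      linarith
    obtain ⟨t1, t2, t3, t4, t5⟩ := target hc0 hcτ hτ1 hN16 hx0.le hXS hs2 hx'2 hx'1
    obtain ⟨s, hs⟩ : ∃ s : ℝ, s = min ((1 - τ / 2) * (S.card : ℝ)) (x' / 2) := ⟨_, rfl⟩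
    rw [← hs] at t1 t2 t3 t4
    -- the sampling step
    have hX4 : X.card ≤ 4 * S.card := by
      have h1 : (X.card : ℝ) ≤ 4 * S.card := by rw [← hx]; linarith
      exact_mod_cast h1
    obtain ⟨P, Q, Q', q1, q2, q3, q4, q5, q6, q7, q8, q9, q10, q11, q12, q13, q14, q15⟩ := hn₁ S
      (fam R X S ℓ ((θ ^ 2 / 100 - e) * S.card)) (by omega) (by
        refine (card_fam X S ℓ _).trans ?_
        have h1 : 128 * 3 ^ ℓ ≤ S.card := by omega
        calc 8 * 3 ^ ℓ * X.card ^ 2 ≤ 8 * 3 ^ ℓ * (4 * S.card) ^ 2 :=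
              Nat.mul_le_mul_left _ (Nat.pow_le_pow_left hX4 2)
          _ = 128 * 3 ^ ℓ * S.card ^ 2 := by ring
          _ ≤ S.card * S.card ^ 2 := Nat.mul_le_mul_right _ h1
          _ = S.card ^ 3 := by ring) s t1 t2
    have sP := hStr.rep hSX q1 q13
    have sQ := hStr.rep hSX q2 q14
    have sQ' := hStr.rep hSX q3 q15
    have hPX : P ⊆ X := q1.trans hSX
    have hQX : Q ⊆ X := q2.trans hSX
    have hQ'X : Q' ⊆ X := q3.trans hSX
    have hNx : x / (8 * N) ≤ S.card / (2 * N) := by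
      rw [div_le_div_iff₀ (by positivity) (by positivity)]
      refine le_trans (le_of_eq ?_) (mul_le_mul_of_nonneg_right hXS (show (0 : ℝ) ≤ 8 * N by positivity))
      ring
    have hQc : x / (8 * N) ≤ (Q.card : ℝ) := hNx.trans q9
    have hQ'c : x / (8 * N) ≤ (Q'.card : ℝ) := hNx.trans q11
    have hx8 : 0 < x / (8 * N) := by positivity
    -- the connections
    have hconn : Conn R X Q (ℓ + 1) w₀ := by
      have h1 : (w₀ + ℓ + 2 : ℝ) ≤ θ ^ 2 / 200 * (x / (8 * N)) := by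
        have h2 : (n₄ : ℝ) ≤ x := hxC n₄ (by omega)
        have h3 := hn₄.trans h2
        have h4 : (w₀ + ℓ + 2 : ℝ) * (8 * N) * (200 / θ ^ 2) * (θ ^ 2 / 200 * (1 / (8 * N))) ≤
            x * (θ ^ 2 / 200 * (1 / (8 * N))) := mul_le_mul_of_nonneg_right h3 (by positivity)
        have h5 : (w₀ + ℓ + 2 : ℝ) * (8 * N) * (200 / θ ^ 2) * (θ ^ 2 / 200 * (1 / (8 * N))) = w₀ + ℓ + 2 := by
          field_simp
        rw [h5] at h4
        refine h4.trans (le_of_eq ?_)
        field_simp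
      have h6 : θ ^ 2 / 200 * (x / (8 * N)) ≤ θ ^ 2 / 200 * Q.card := mul_le_mul_of_nonneg_left hQc (by positivity)
      refine conn_of_str sQ hQX ?_ ?_
      · have h7 : θ ^ 2 / 200 ≤ θ / 6 := le_trans (div_le_div_of_nonneg_right
          (show θ ^ 2 ≤ θ by rw [sq]; exact mul_le_of_le_one_left hθ.le hθ1) (by norm_num))
          (div_le_div_of_nonneg_left hθ.le (by norm_num) (by norm_num))
        have h8 : θ ^ 2 / 200 * (Q.card : ℝ) ≤ (θ - e - er S.card - (θ / 4 + e + er S.card)) * Q.card :=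
          mul_le_mul_of_nonneg_right (h7.trans g2) (Nat.cast_nonneg _)
        linarith
      · have h8 : θ ^ 2 / 200 * (Q.card : ℝ) ≤ (θ ^ 2 / 100 - e - er S.card) * Q.card :=
          mul_le_mul_of_nonneg_right g3 (Nat.cast_nonneg _)
        linarith
    have hdeg : ∀ v ∈ X, ∀ d : Bool, θ / 2 * (Q'.card : ℝ) ≤ ((nb R d Q' v).card : ℝ) := by
      intro v hv d
      exact (mul_le_mul_of_nonneg_right g1 (Nat.cast_nonneg _)).trans (sQ'.1 v hv d)
    -- the branches of the stage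
    obtain ⟨m, hm⟩ : ∃ m : ℕ, m = ⌊c₁ * x / (16 * b)⌋₊ := ⟨_, rfl⟩
    have hx32 : 32 * b ≤ c₁ * x := by
      have h1 : (n₅ : ℝ) ≤ x := hxC n₅ (by omega)
      have h2 := hn₅.trans h1
      rw [div_le_iff₀ hc0] at h2
      linarith
    have hm3 : (b : ℝ) * m ≤ c₁ * x / 16 := by
      have h1 : (m : ℝ) ≤ c₁ * x / (16 * b) := by
        rw [hm]
        exact Nat.floor_le (by positivity)
      rw [le_div_iff₀ (by positivity)] at h1
      linarith
    have hm4 : c₁ * x / (32 * b) ≤ m := by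
      have h1 : c₁ * x / (16 * b) < m + 1 := by
        rw [hm]
        exact Nat.lt_floor_add_one _
      have h2 : 1 ≤ c₁ * x / (32 * b) := by
        rw [le_div_iff₀ (by positivity)]
        linarith
      have h3 : c₁ * x / (16 * b) = 2 * (c₁ * x / (32 * b)) := by
        field_simp
        ring
      linarith
    have hc'x : (c'.size : ℝ) ≤ x := by
      have : (0 : ℝ) ≤ p.2.size := Nat.cast_nonneg _
      linarith
    have hKm : c'.size ≤ (b + K) * m := by
      have h1 : (c'.size : ℝ) ≤ (b + K) * m := by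
        have h2 : (K : ℝ) * (c₁ * x / (32 * b)) ≤ K * m := mul_le_mul_of_nonneg_left hm4 (Nat.cast_nonneg _)
        have h3 : x ≤ (K : ℝ) * (c₁ * x / (32 * b)) := by
          have h4 : (K : ℝ) * (c₁ * x / (32 * b)) = K * c₁ * x / (32 * b) := by ring
          rw [h4, le_div_iff₀ (by positivity)]
          exact (mul_le_mul_of_nonneg_left hK hx0.le).trans (le_of_eq (mul_comm _ _))
        have h5 : (0 : ℝ) ≤ (b : ℝ) * m := by positivity
        linarith
      exact_mod_cast h1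
    obtain ⟨o, ho⟩ : ∃ o : ℝ, o = lam b (ℓ + 1) ^ J * c'.size + (b + K) * Mc b (ℓ + 1) J := ⟨_, rfl⟩
    have ho0 : 0 ≤ o := by
      rw [ho, ← hM]
      have : 0 ≤ lam b (ℓ + 1) ^ J * (c'.size : ℝ) := mul_nonneg (pow_nonneg hl0 _) (Nat.cast_nonneg _)
      linarith
    have ho1 : 5 * o + 1 ≤ θ / 2 * (Q'.card : ℝ) := by
      have h1 : θ / 2 * (x / (8 * N)) ≤ θ / 2 * Q'.card := mul_le_mul_of_nonneg_left hQ'c (by positivity)
      have h2 : lam b (ℓ + 1) ^ J * (c'.size : ℝ) ≤ θ / (160 * N) * x :=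
        mul_le_mul hJ.le hc'x (Nat.cast_nonneg _) (by positivity)
      have h3 : 5 * M + 1 ≤ θ * x / (32 * N) := by
        have h4 : (n₃ : ℝ) ≤ x := hxC n₃ (by omega)
        have h5 := hn₃.trans h4
        rw [div_le_iff₀ hθ] at h5
        rw [le_div_iff₀ (by positivity)]
        linarith
      have h6 : 5 * (θ / (160 * N) * x) = θ * x / (32 * N) := by
        field_simp
        ring
      have h7 : θ / 2 * (x / (8 * N)) = θ * x / (32 * N) + θ * x / (32 * N) := by
        field_simp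
        ring
      rw [ho, ← hM]
      linarith
    have hUc : (c'.size + 4 * (b * m + 1) + 1 : ℝ) ≤ ((X \ (P ∪ Q ∪ Q')).card : ℝ) := by
      have h1 : (X.card : ℝ) ≤ ((X \ (P ∪ Q ∪ Q')).card : ℝ) + (P.card + Q.card + Q'.card) := by
        have h2 := card_le_card_sdiff_add_card (s := X) (t := P ∪ Q ∪ Q')
        have h3 := card_union_le (P ∪ Q) Q'
        have h4 := card_union_le P Q
        have h5 : X.card ≤ (X \ (P ∪ Q ∪ Q')).card + (P.card + Q.card + Q'.card) := by omega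
        exact_mod_cast h5
      rw [← hx] at h1
      have h6 : (P.card : ℝ) ≤ x' / 2 := q8.trans t4
      have h7 : (Q.card : ℝ) ≤ c₁ * x / 16 := q10.trans t5
      have h8 : (Q'.card : ℝ) ≤ c₁ * x / 16 := q12.trans t5
      linarith
    obtain ⟨D, hD1, hD2, hD3, hD4⟩ := stage hb hU (Y := X) (U := X \ (P ∪ Q ∪ Q')) (Rc := Q) (Ro := Q') sdiff_subset hQX
      hQ'X (disjoint_of_subset_right (by
        intro v hv
        simp only [mem_union]
        tauto) sdiff_disjoint)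
      (disjoint_of_subset_right (by
        intro v hv
        simp only [mem_union]
        tauto) sdiff_disjoint) q6 hconn hdeg J m K c' hp2 hp3 hKm y hyX hw₀.ge (by rw [← ho]; exact ho1) hUc
    rw [← ho] at hD4
    have hDX : D ⊆ X := hD2.trans (union_subset (union_subset sdiff_subset hQX) hQ'X)
    have hDP : Disjoint P D := by
      refine disjoint_of_subset_right hD2 ?_
      rw [disjoint_union_right, disjoint_union_right]
      refine ⟨⟨?_, q4⟩, q5⟩
      refine disjoint_of_subset_left ?_ disjoint_sdiff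
      intro v hv
      simp only [mem_union]
      tauto
    obtain ⟨u, hu, hcomb⟩ := hp8 hD1 hD3
    have huX : u ∈ X := by
      rw [mem_insert] at hu
      rcases hu with rfl | hu
      · exact hyX
      · exact hDX hu
    -- the host of the next root
    obtain ⟨y', hy'1, hy'2⟩ : ∃ y' ∈ nb R p.1 Q' u, y' ∉ D := by
      by_contra hcon
      push Not at hcon
      have h1 : nb R p.1 Q' u ⊆ D ∩ Q' := fun v hv => mem_inter.2 ⟨hcon v hv, (mem_filter.1 hv).1⟩
      have h2 : ((nb R p.1 Q' u).card : ℝ) ≤ ((D ∩ Q').card : ℝ) := by exact_mod_cast card_le_card h1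
      have h3 := hdeg u huX p.1
      linarith
    obtain ⟨hy'Q, hy'adj⟩ := mem_filter.1 hy'1
    have hyQ' : y ∉ Q' := fun h => hyS (q3 h)
    have hy'y : y' ≠ y := by
      rintro rfl
      exact hyQ' hy'Q
    -- the next set of vertices
    obtain ⟨X', hX'⟩ : ∃ X' : Finset V, X' = X \ insert y D := ⟨_, rfl⟩
    have hX'X : X' ⊆ X := by rw [hX']; exact sdiff_subset
    have hDc : D.card = c'.size := hD1.card
    have hX'c : X'.card + (c'.size + 1) = X.card := by
      rw [hX', ← hDc, ← card_insert_of_notMem hD3]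
      exact card_sdiff_add_card_eq_card (insert_subset hyX hDX)
    have hX'cR : (X'.card : ℝ) = x' := by
      have h1 : (X'.card : ℝ) + (c'.size + 1) = x := by rw [hx]; exact_mod_cast hX'c
      rw [hx']
      linarith
    have hPX' : P ⊆ X' := by
      intro v hv
      rw [hX', mem_sdiff, mem_insert, not_or]
      refine ⟨hPX hv, ?_, disjoint_left.1 hDP hv⟩
      rintro rfl
      exact hyS (q1 hv)
    have hy'X' : y' ∈ X' := by
      rw [hX', mem_sdiff, mem_insert, not_or]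
      exact ⟨hQ'X hy'Q, hy'y, hy'2⟩
    have hX'pos : 0 < X'.card := card_pos.2 ⟨y', hy'X'⟩
    have hstep := er_step hτ0.le hτ1 hX'pos (n := X.card) (by rw [hX'cR, ← hx]; exact hx'1)
    have hBe : e + er S.card ≤ B * er X'.card := by
      have h1 := mul_le_mul_of_nonneg_left hstep hB0.le
      have h2 : B * (er X.card + τ / 4 * er X.card) = e + 2 * er X.card := by
        rw [he, ← hBτ]
        ring
      rw [h2] at h1
      linarith
    have hpn : p.2.size ≤ n := by omega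
    obtain ⟨A, hA1, hA2, hA3⟩ := ih p.2 hpn hp4 hp5 X' P y' hPX' hy'X' (fun h => disjoint_left.1 q5 h hy'Q)
      (by rw [hX'cR]; exact t3.trans q7)
      (sP.mono hX'X (by linarith) (by linarith) (by linarith)) (by omega)
    have hsub : insert y' A ⊆ X' := insert_subset hy'X' hA1
    refine ⟨D ∪ insert y' A, union_subset hDX (hsub.trans hX'X), ?_, hcomb (insert y' A) ?_ ?_⟩
    · rw [mem_union, not_or]
      refine ⟨hD3, fun h => ?_⟩
      have h1 := hsub h
      rw [hX', mem_sdiff] at h1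
      exact h1.2 (mem_insert_self _ _)
    · refine disjoint_of_subset_left hsub ?_
      rw [hX']
      exact sdiff_disjoint
    · exact ⟨insert y' A, ∅, disjoint_empty_right _, (union_empty _).symm, ⟨y', A, hy'adj, hA2, rfl, hA3⟩, rfl⟩

theorem chain (b : ℕ) (hb : 1 ≤ b) {θ : ℝ} (hθ : 0 < θ) (hθ1 : θ ≤ 1) : ∃ C : ℕ, ∀ {V : Type} {R : V → V → Prop},
    AE32.Tour R → ∀ X : Finset V, Ex R (θ * X.card) X → ∀ y ∈ X, ∀ c : Fd, c.len ≤ b → c.Deg b →
      c.size + 1 + C ≤ X.card → ∃ S ⊆ X, y ∉ S ∧ Emb R c y S := by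
  obtain ⟨ℓ, n₁, h1⟩ := str_start hθ hθ1
  obtain ⟨C, B, hB, h2⟩ := chain_aux b hb hθ hθ1 ℓ
  refine ⟨C + n₁ + 2, ?_⟩
  intro V R hT X hE y hy c hl hd hc
  have h3 := h1 hT X (by omega) hE y hy
  have her : 2 * er X.card ≤ B * er X.card := mul_le_mul_of_nonneg_right hB (by unfold er; positivity)
  refine h2 hT c.size c le_rfl hl hd X (X.erase y) y (erase_subset _ _) hy (notMem_erase _ _) ?_
    (h3.mono (Subset.refl _) (by linarith) (by linarith) (by linarith)) (by omega)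
  have h4 : (X.erase y).card + 1 = X.card := card_erase_add_one hy
  have h5 : ((X.erase y).card : ℝ) + 1 = X.card := by exact_mod_cast h4
  have h6 : (2 : ℝ) ≤ X.card := by
    have : 2 ≤ X.card := by omega
    exact_mod_cast this
  linarith

end AEX
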