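import Pool.Agent.AELT.Defs

/-!
# Deleting pendant trees from a forest
-/

namespace AEX

open Finset AE15 AED
open scoped Classical

variable {V : Type*} {R : V → V → Prop}

/-- `Cut c c' L`: `c'` is the forest `c` with the pendant trees of the list `L` deleted -/
inductive Cut : Fd → Fd → List (Bool × Fd) → Prop
  | nil : Cut .nil .nil []
  | keep (d : Bool) (c s c' s' : Fd) (L M : List (Bool × Fd)) : Cut c c' L → Cut s s' M →
      Cut (.node d c s) (.node d c' s') (L ++ M)
  | del (d : Bool) (c s s' : Fd) (M : List (Bool × Fd)) : Cut s s' M → Cut (.node d c s) s' ((d, c) :: M)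

/-- the items (host and tree) of the list hang at their hosts, disjointly, and cover `S` -/
def EmbI (R : V → V → Prop) : List (V × (Bool × Fd)) → Finset V → Prop
  | [], S => S = ∅
  | t :: I, S => ∃ S₁ S₂, Disjoint S₁ S₂ ∧ S = S₁ ∪ S₂ ∧ EmbL R t.1 [t.2] S₁ ∧ EmbI R I S₂

theorem EmbI.append_iff {I J : List (V × (Bool × Fd))} {S : Finset V} :
    EmbI R (I ++ J) S ↔ ∃ S₁ S₂, Disjoint S₁ S₂ ∧ S = S₁ ∪ S₂ ∧ EmbI R I S₁ ∧ EmbI R J S₂ := by
  induction I generalizing S with
  | nil =>
    constructor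
    · intro h
      exact ⟨∅, S, disjoint_empty_left _, (empty_union _).symm, rfl, h⟩
    · rintro ⟨S₁, S₂, -, rfl, h1, h2⟩
      rw [show S₁ = ∅ from h1, empty_union]
      exact h2
  | cons t I ih =>
    constructor
    · rintro ⟨A, B, h1, rfl, h2, h3⟩
      obtain ⟨B₁, B₂, k1, rfl, k2, k3⟩ := ih.1 h3
      rw [disjoint_union_right] at h1
      refine ⟨A ∪ B₁, B₂, disjoint_union_left.2 ⟨h1.2, k1⟩, (union_assoc _ _ _).symm, ⟨A, B₁, h1.1, rfl, h2, k2⟩, k3⟩
    · rintro ⟨S₁, S₂, h1, rfl, ⟨A, B, k1, rfl, k2, k3⟩, h3⟩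
      rw [disjoint_union_left] at h1
      refine ⟨A, B ∪ S₂, disjoint_union_right.2 ⟨k1, h1.1⟩, union_assoc _ _ _, k2, ih.2 ⟨B, S₂, h1.2, rfl, k3, h3⟩⟩

theorem EmbI.perm {I J : List (V × (Bool × Fd))} (hIJ : I.Perm J) {S : Finset V} (h : EmbI R I S) : EmbI R J S := by
  induction hIJ generalizing S with
  | nil => exact h
  | cons p _ ih =>
    obtain ⟨B₁, B₂, h1, rfl, h2, h3⟩ := h
    exact ⟨B₁, B₂, h1, rfl, h2, ih h3⟩
  | swap p q L =>
    obtain ⟨B₁, B₂, h1, rfl, h2, B₃, B₄, h3, rfl, h4, h5⟩ := h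
    rw [disjoint_union_right] at h1
    refine ⟨B₃, B₁ ∪ B₄, disjoint_union_right.2 ⟨h1.1.symm, h3⟩, ?_, h4, B₁, B₄, h1.2, rfl, h2, h5⟩
    rw [← union_assoc, ← union_assoc, union_comm B₁ B₃]
  | trans _ _ ih1 ih2 => exact ih2 (ih1 h)

theorem EmbI.single {t : V × (Bool × Fd)} {S : Finset V} : EmbI R [t] S ↔ EmbL R t.1 [t.2] S := by
  constructor
  · rintro ⟨S₁, S₂, -, rfl, h1, h2⟩
    rw [show S₂ = ∅ from h2, union_empty]
    exact h1
  · intro h
    exact ⟨S, ∅, disjoint_empty_right _, (union_empty _).symm, h, rfl⟩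

/-- a list of trees at one host as a list of items -/
theorem EmbL.items {y : V} {L : List (Bool × Fd)} {S : Finset V} :
    EmbL R y L S ↔ EmbI R (L.map (fun p => (y, p))) S := by
  induction L generalizing S with
  | nil => exact Iff.rfl
  | cons p L ih =>
    constructor
    · rintro ⟨S₁, S₂, h1, rfl, h2, h3⟩
      exact ⟨S₁, S₂, h1, rfl, ⟨S₁, ∅, disjoint_empty_right _, (union_empty _).symm, h2, rfl⟩, ih.1 h3⟩
    · rintro ⟨S₁, S₂, h1, rfl, ⟨S₃, S₄, -, rfl, h2, h2'⟩, h3⟩
      rw [show S₄ = ∅ from h2', union_empty] at h1 ⊢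
      exact ⟨S₃, S₂, h1, rfl, h2, ih.2 h3⟩

theorem EmbI.card {I : List (V × (Bool × Fd))} {S : Finset V} (h : EmbI R I S) : S.card = tsz (I.map Prod.snd) := by
  induction I generalizing S with
  | nil => rw [show S = ∅ from h]; rfl
  | cons t I ih =>
    obtain ⟨S₁, S₂, h1, rfl, h2, h3⟩ := h
    rw [card_union_of_disjoint h1, h2.card, ih h3, List.map_cons, tsz_cons, tsz_cons, tsz_nil, add_zero]

theorem tsz_append (L M : List (Bool × Fd)) : tsz (L ++ M) = tsz L + tsz M := by
  simp [tsz]

theorem Cut.refl (c : Fd) : Cut c c [] := by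
  induction c with
  | nil => exact Cut.nil
  | node d c s ihc ihs => exact Cut.keep d c s c s [] [] ihc ihs

theorem Cut.size {c c' : Fd} {L : List (Bool × Fd)} (h : Cut c c' L) : c.size = c'.size + tsz L := by
  induction h with
  | nil => rfl
  | keep d c s c' s' L M _ _ ih1 ih2 =>
    simp only [Fd.size, tsz_append, ih1, ih2]
    omega
  | del d c s s' M _ ih =>
    simp only [Fd.size, tsz_cons, ih]
    omega

theorem Cut.len_le {c c' : Fd} {L : List (Bool × Fd)} (h : Cut c c' L) : c'.len ≤ c.len := by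
  induction h with
  | nil => exact le_rfl
  | keep d c s c' s' L M _ _ ih1 ih2 => exact Nat.succ_le_succ ih2
  | del d c s s' M _ ih => exact ih.trans (Nat.le_succ _)

theorem Cut.deg {b : ℕ} {c c' : Fd} {L : List (Bool × Fd)} (h : Cut c c' L) (hd : c.Deg b) :
    c'.Deg b ∧ ∀ p ∈ L, p.2.len ≤ b ∧ p.2.Deg b := by
  induction h with
  | nil => exact ⟨hd, by simp⟩
  | keep d c s c' s' L M h1 _ ih1 ih2 =>
    obtain ⟨d1, d2, d3⟩ := hd
    obtain ⟨e1, e2⟩ := ih1 d2
    obtain ⟨e3, e4⟩ := ih2 d3
    refine ⟨⟨h1.len_le.trans d1, e1, e3⟩, ?_⟩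
    intro p hp
    rcases List.mem_append.1 hp with hp | hp
    · exact e2 p hp
    · exact e4 p hp
  | del d c s s' M _ ih =>
    obtain ⟨d1, d2, d3⟩ := hd
    obtain ⟨e1, e2⟩ := ih d3
    refine ⟨e1, ?_⟩
    intro p hp
    rcases List.mem_cons.1 hp with rfl | hp
    · exact ⟨d1, d2⟩
    · exact e2 p hp

/-- reassembly: an embedding of the rest and of the items at the right hosts -/
theorem Cut.emb {c c' : Fd} {L : List (Bool × Fd)} (h : Cut c c' L) {v : V} {S : Finset V} (hE : Emb R c' v S) :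
    ∃ I : List (V × (Bool × Fd)), I.map Prod.snd = L ∧ (∀ t ∈ I, t.1 = v ∨ t.1 ∈ S) ∧
      ∀ S', EmbI R I S' → Disjoint S S' → Emb R c v (S ∪ S') := by
  induction h generalizing v S with
  | nil =>
    refine ⟨[], rfl, by simp, ?_⟩
    intro S' hS' _
    rw [show S = ∅ from hE, show S' = ∅ from hS', union_empty]
    exact rfl
  | keep d c s c' s' L M _ _ ih1 ih2 =>
    obtain ⟨x, A, B, h1, h2, h3, h4, rfl, h6, h7⟩ := hE
    obtain ⟨I, i1, i2, i3⟩ := ih1 h6
    obtain ⟨J, j1, j2, j3⟩ := ih2 h7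
    refine ⟨I ++ J, by rw [List.map_append, i1, j1], ?_, ?_⟩
    · intro t ht
      rcases List.mem_append.1 ht with ht | ht
      · rcases i2 t ht with h | h
        · right; rw [h]; exact mem_insert_self _ _
        · right; exact mem_insert_of_mem (mem_union_left _ h)
      · rcases j2 t ht with h | h
        · left; exact h
        · right; exact mem_insert_of_mem (mem_union_right _ h)
    · intro S' hS' hd
      obtain ⟨S₁, S₂, k1, rfl, k2, k3⟩ := EmbI.append_iff.1 hS'
      rw [disjoint_union_right, disjoint_insert_left, disjoint_insert_left, disjoint_union_left, disjoint_union_left] at hd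
      obtain ⟨⟨g1, g2, g3⟩, g4, g5, g6⟩ := hd
      refine ⟨x, A ∪ S₁, B ∪ S₂, h1, ?_, ?_, ?_, ?_, i3 S₁ k2 g2, j3 S₂ k3 g6⟩
      · rw [mem_union]; rintro (h | h)
        · exact h2 h
        · exact g1 h
      · rw [mem_union]; rintro (h | h)
        · exact h3 h
        · exact g4 h
      · rw [disjoint_union_left, disjoint_union_right, disjoint_union_right]
        exact ⟨⟨h4, g5⟩, g3.symm, k1⟩
      · ext z
        simp only [mem_union, mem_insert]
        tauto
  | del d c s s' M _ ih =>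
    obtain ⟨I, i1, i2, i3⟩ := ih hE
    refine ⟨(v, (d, c)) :: I, by rw [List.map_cons, i1], ?_, ?_⟩
    · intro t ht
      rcases List.mem_cons.1 ht with rfl | ht
      · left; rfl
      · exact i2 t ht
    · intro S' hS' hd
      obtain ⟨S₁, S₂, k1, rfl, ⟨S₃, S₄, -, rfl, ⟨x, A, k2, k3, rfl, k4⟩, k5⟩, k6⟩ := hS'
      rw [show S₄ = ∅ from k5, union_empty] at k1 hd ⊢
      rw [disjoint_union_right, disjoint_insert_right] at hd
      rw [disjoint_insert_left] at k1
      refine ⟨x, A, S ∪ S₂, k2, k3, ?_, ?_, ?_, k4, i3 S₂ k6 hd.2⟩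
      · rw [mem_union]; rintro (h | h)
        · exact hd.1.1 h
        · exact k1.1 h
      · rw [disjoint_union_right]
        exact ⟨hd.1.2.symm, k1.2⟩
      · ext z
        simp only [mem_union, mem_insert]
        tauto

/-- total size of the trees with less than `t` vertices -/
def sml (t : ℕ) : Fd → ℕ
  | .nil => 0
  | .node _ c s => (if c.size + 1 < t then c.size + 1 else 0) + sml t s

theorem sml_le_size (t : ℕ) (F : Fd) : sml t F ≤ F.size := by
  induction F with
  | nil => exact le_rfl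
  | node d c s _ ihs =>
    simp only [sml, Fd.size]
    split_ifs <;> omega

theorem sml_le (t : ℕ) (F : Fd) : sml t F ≤ F.len * (t - 1) := by
  induction F with
  | nil => simp [sml, Fd.len]
  | node d c s _ ihs =>
    simp only [sml, Fd.len, add_mul, one_mul]
    split_ifs <;> omega

theorem top_aux (b t : ℕ) (F : Fd) (hd : F.Deg b) : ∀ B, sml t F ≤ B → ∃ F' L, Cut F F' L ∧ F'.size ≤ B ∧
    (∀ p ∈ L, t ≤ p.2.size + 1) ∧ (L = [] ∨ B ≤ F'.size + b * (t - 1)) := by
  induction F with
  | nil =>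
    intro B _
    exact ⟨.nil, [], Cut.nil, Nat.zero_le _, by simp, Or.inl rfl⟩
  | node d c s ihc ihs =>
    obtain ⟨d1, d2, d3⟩ := hd
    intro B hB
    simp only [sml] at hB
    by_cases hc : c.size + 1 < t
    · rw [if_pos hc] at hB
      obtain ⟨s', M, h1, h2, h3, h4⟩ := ihs d3 (B - (c.size + 1)) (by omega)
      refine ⟨.node d c s', [] ++ M, Cut.keep d c s c s' [] M (Cut.refl c) h1, ?_, ?_, ?_⟩
      · simp only [Fd.size]; omega
      · simpa using h3
      · rcases h4 with h4 | h4
        · left; rw [h4]; rfl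
        · right; simp only [Fd.size]; omega
    · rw [if_neg hc, zero_add] at hB
      by_cases hroom : sml t s + 1 + b * (t - 1) ≤ B
      · have hsc : sml t c ≤ b * (t - 1) := (sml_le t c).trans (Nat.mul_le_mul_right _ d1)
        obtain ⟨c', L, g1, g2, g3, g4⟩ := ihc d2 (B - sml t s - 1) (by omega)
        obtain ⟨s', M, h1, h2, h3, h4⟩ := ihs d3 (B - 1 - c'.size) (by omega)
        refine ⟨.node d c' s', L ++ M, Cut.keep d c s c' s' L M g1 h1, ?_, ?_, ?_⟩
        · simp only [Fd.size]; omega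
        · intro p hp
          rcases List.mem_append.1 hp with hp | hp
          · exact g3 p hp
          · exact h3 p hp
        · simp only [Fd.size]
          rcases h4 with h4 | h4
          · rcases g4 with g4 | g4
            · left; rw [h4, g4]; rfl
            · right
              have e1 := h1.size
              rw [h4, tsz_nil, add_zero] at e1
              have e2 := sml_le_size t s
              omega
          · right; omega
      · obtain ⟨s', M, h1, h2, h3, h4⟩ := ihs d3 B hB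
        refine ⟨s', (d, c) :: M, Cut.del d c s s' M h1, h2, ?_, ?_⟩
        · intro p hp
          rcases List.mem_cons.1 hp with rfl | hp
          · simp only; omega
          · exact h3 p hp
        · right
          rcases h4 with h4 | h4
          · have e1 := h1.size
            rw [h4, tsz_nil, add_zero] at e1
            have e2 := sml_le_size t s
            omega
          · exact h4

/-- (T1) the top part of a forest with about `B` vertices, the deleted trees having at least `t` vertices -/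
theorem top_part (b t B : ℕ) (c : Fd) (hl : c.len ≤ b) (hd : c.Deg b) (hB : b * (t - 1) ≤ B) :
    ∃ c' L, Cut c c' L ∧ c'.size ≤ B ∧ (∀ p ∈ L, t ≤ p.2.size + 1) ∧ (L = [] ∨ B ≤ c'.size + b * (t - 1)) :=
  top_aux b t c hd B (((sml_le t c).trans (Nat.mul_le_mul_right _ hl)).trans hB)

theorem length_mul_le (t : ℕ) (L : List (Bool × Fd)) (h : ∀ p ∈ L, t ≤ p.2.size + 1) : L.length * t ≤ tsz L := by
  induction L with
  | nil => simp [tsz_nil]
  | cons p L ih =>
    rw [List.length_cons, add_mul, one_mul, tsz_cons]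
    have h1 := ih (fun q hq => h q (List.mem_cons_of_mem _ hq))
    have h2 := h p List.mem_cons_self
    omega

theorem tsz_le_of_small (s : ℕ) (F : Fd) (h : ∀ p ∈ F.trees, p.2.size + 1 ≤ s) : F.size ≤ F.len * s := by
  induction F with
  | nil => simp [Fd.size]
  | node d c r _ ihs =>
    simp only [Fd.size, Fd.len, add_mul, one_mul]
    simp only [Fd.trees, List.mem_cons, forall_eq_or_imp] at h
    have h1 := ihs h.2
    have h2 := h.1
    omega

theorem branch_aux (b s : ℕ) (F : Fd) (hd : F.Deg b) (h : ∃ p ∈ F.trees, s < p.2.size + 1) :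
    ∃ F' p, Cut F F' [p] ∧ s < p.2.size + 1 ∧ p.2.size + 1 ≤ b * s + 1 := by
  induction F with
  | nil =>
    obtain ⟨p, hp, -⟩ := h
    simp [Fd.trees] at hp
  | node d c r ihc ihs =>
    obtain ⟨d1, d2, d3⟩ := hd
    by_cases hr : ∃ p ∈ r.trees, s < p.2.size + 1
    · obtain ⟨r', p, h1, h2, h3⟩ := ihs d3 hr
      exact ⟨.node d c r', p, Cut.keep d c r c r' [] [p] (Cut.refl c) h1, h2, h3⟩
    · have hc : s < c.size + 1 := by
        obtain ⟨p, hp, hps⟩ := h
        simp only [Fd.trees, List.mem_cons] at hp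
        rcases hp with rfl | hp
        · exact hps
        · exact absurd ⟨p, hp, hps⟩ hr
      by_cases hcc : ∃ p ∈ c.trees, s < p.2.size + 1
      · obtain ⟨c', p, h1, h2, h3⟩ := ihc d2 hcc
        exact ⟨.node d c' r, p, Cut.keep d c r c' r [p] [] h1 (Cut.refl r), h2, h3⟩
      · push Not at hcc
        refine ⟨r, (d, c), Cut.del d c r r [] (Cut.refl r), hc, ?_⟩
        have h1 := tsz_le_of_small s c hcc
        have h2 : c.len * s ≤ b * s := Nat.mul_le_mul_right _ d1
        simp only
        omega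

/-- (T2) one deleted tree of prescribed size up to a factor `b` -/
theorem one_branch (b s : ℕ) (c : Fd) (hl : c.len ≤ b) (hd : c.Deg b) (hs : b * s < c.size) :
    ∃ c' p, Cut c c' [p] ∧ s < p.2.size + 1 ∧ p.2.size + 1 ≤ b * s + 1 := by
  refine branch_aux b s c hd ?_
  by_contra hcon
  push Not at hcon
  have h1 := tsz_le_of_small s c hcon
  have h2 : c.len * s ≤ b * s := Nat.mul_le_mul_right _ hl
  omega

end AEX
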