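import Pool.Agent.AEX.Defs
import Pool.Agent.AEB.GlueB

/-!
# Oriented trees of bounded degree in expanding tournaments: the final theorem from the chain
-/

namespace AEX

open Finset AE15 AED AELT
open scoped Classical

/-- the conclusion of `chain` for `(b, θ)` -/
def ChainStatement (b : ℕ) (θ : ℝ) : Prop := ∃ C : ℕ, ∀ {V : Type} {R : V → V → Prop},
    AE32.Tour R → ∀ X : Finset V, Ex R (θ * X.card) X → ∀ y ∈ X, ∀ c : Fd, c.len ≤ b → c.Deg b →
      c.size + 1 + C ≤ X.card → ∃ S ⊆ X, y ∉ S ∧ Emb R c y S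

/-- the number of arcs which leave a set -/
theorem ncard_arcs {n : ℕ} (R : Fin n → Fin n → Prop) (S T : Finset (Fin n)) (hT : ∀ x, x ∈ T ↔ x ∉ S) :
    ({p : Fin n × Fin n | p.1 ∈ (S : Set (Fin n)) ∧ p.2 ∉ (S : Set (Fin n)) ∧ R p.1 p.2}).ncard = ar R S T := by
  have h : {p : Fin n × Fin n | p.1 ∈ (S : Set (Fin n)) ∧ p.2 ∉ (S : Set (Fin n)) ∧ R p.1 p.2} =
      ((S.sigma (fun s => nO R T s)).image (fun q => (q.1, q.2)) : Finset (Fin n × Fin n)) := by
    ext ⟨a, b⟩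
    simp only [mem_coe, Set.mem_ofPred_eq, mem_image, mem_sigma, nO, mem_filter, hT, Prod.mk.injEq]
    constructor
    · rintro ⟨h1, h2, h3⟩
      exact ⟨⟨a, b⟩, ⟨h1, h2, h3⟩, rfl, rfl⟩
    · rintro ⟨⟨a', b'⟩, ⟨h1, h2, h3⟩, rfl, rfl⟩
      exact ⟨h1, h2, h3⟩
  rw [h, Set.ncard_coe_finset, card_image_of_injective, card_sigma, ar]
  rintro ⟨a, b⟩ ⟨a', b'⟩ h
  simp only [Prod.mk.injEq] at h
  obtain ⟨rfl, rfl⟩ := h
  rfl

/-- the expansion in terms of finite sets -/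
theorem ex_of_ncard {n : ℕ} {R : Fin n → Fin n → Prop} {θ : ℝ}
    (h : ∀ S : Set (Fin n), θ * n * (min S.ncard Sᶜ.ncard : ℕ) ≤
      ({p : Fin n × Fin n | p.1 ∈ S ∧ p.2 ∉ S ∧ R p.1 p.2}.ncard : ℝ)) :
    Ex R (min θ 1 * (univ : Finset (Fin n)).card) univ := by
  intro S _
  rw [card_univ, Fintype.card_fin]
  have key : ∀ T : Finset (Fin n), (∀ x, x ∈ T ↔ x ∉ S) →
      min θ 1 * (n : ℝ) * ((min S.card T.card : ℕ) : ℝ) ≤ (ar R S T : ℝ) := by
    intro T hT
    have h1 := h (S : Set (Fin n))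
    have h2 : ((S : Set (Fin n))ᶜ).ncard = T.card := by
      rw [← Set.ncard_coe_finset]
      congr 1
      ext x
      simp [hT]
    rw [ncard_arcs R S T hT, Set.ncard_coe_finset, h2] at h1
    have h3 : (0 : ℝ) ≤ n := Nat.cast_nonneg n
    have h4 : (0 : ℝ) ≤ ((min S.card T.card : ℕ) : ℝ) := Nat.cast_nonneg _
    exact (mul_le_mul_of_nonneg_right (mul_le_mul_of_nonneg_right (min_le_left θ 1) h3) h4).trans h1
  exact key _ (fun x => by simp)

theorem final_of_chain (hch : ∀ b : ℕ, 1 ≤ b → ∀ {θ : ℝ}, 0 < θ → θ ≤ 1 → ChainStatement b θ) (Δ : ℕ) (θ : ℝ)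
    (hθ : 0 < θ) : ∃ C : ℕ, ∀ k n : ℕ, k + C ≤ n → ∀ R : Fin n → Fin n → Prop,
    (∀ a, ¬ R a a) → (∀ a b, a ≠ b → R a b ∨ R b a) → (∀ a b, R a b → ¬ R b a) →
    (∀ S : Set (Fin n), θ * n * (min S.ncard Sᶜ.ncard : ℕ) ≤
      ({p : Fin n × Fin n | p.1 ∈ S ∧ p.2 ∉ S ∧ R p.1 p.2}.ncard : ℝ)) →
    ∀ E : Fin (k + 1) → Fin (k + 1) → Prop,
      (∀ a b, E a b → ¬ E b a) →
      (SimpleGraph.fromRel E).IsTree →
      (∀ v, ((SimpleGraph.fromRel E).neighborSet v).ncard ≤ Δ) →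
      ∀ (r : Fin (k + 1)) (v : Fin n),
        ∃ f : Fin (k + 1) → Fin n, Function.Injective f ∧ (∀ a b, E a b → R (f a) (f b)) ∧ f r = v := by
  obtain ⟨C, hC⟩ := hch (max Δ 1) (le_max_right _ _) (lt_min hθ one_pos) (min_le_right θ 1)
  refine ⟨C + 1, fun k n hn R h1 h2 h3 hex E h4 h5 h6 r v => ?_⟩
  have h6' : ∀ v, {w | E v w ∨ E w v}.ncard ≤ max Δ 1 := by
    intro v
    refine le_trans (le_of_eq ?_) ((h6 v).trans (le_max_left _ _))
    congr 1
    ext w
    rw [SimpleGraph.mem_neighborSet, SimpleGraph.fromRel_adj]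
    constructor
    · intro h
      refine ⟨?_, h⟩
      rintro rfl
      rcases h with h | h
      · exact h4 _ _ h h
      · exact h4 _ _ h h
    · intro h
      exact h.2
  have h7 : ∀ p : ℕ → Fin (k + 1), ¬ ∀ i ≤ k + 1, E (p i) (p (i + 1)) ∧
      (SimpleGraph.fromRel E).dist r (p i) = (SimpleGraph.fromRel E).dist r (p (i + 1)) + 1 := by
    intro p hp
    have hd : ∀ i, i ≤ k + 1 → (SimpleGraph.fromRel E).dist r (p 0) = (SimpleGraph.fromRel E).dist r (p i) + i := by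
      intro i
      induction i with
      | zero => intro _; rfl
      | succ i ih =>
        intro hi
        have e1 := ih (by omega)
        have e2 := (hp i (by omega)).2
        omega
    have hinj : Function.Injective (fun i : Fin (k + 2) => p i) := by
      intro i j hij
      have e1 := hd i (by omega)
      have e2 := hd j (by omega)
      simp only at hij
      rw [hij] at e1
      apply Fin.ext
      omega
    have := Fintype.card_le_of_injective _ hinj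
    simp at this
  obtain ⟨c, hc1, hc2, hc5⟩ := AEB.glueB h4 h5 h6' r h7
  have hT : AE32.Tour R := ⟨h1, h2, h3⟩
  obtain ⟨S, -, hvS, hS⟩ := hC hT univ (ex_of_ncard hex) v (mem_univ v) c hc2.1 hc2.2.1
    (by rw [card_univ, Fintype.card_fin]; omega)
  have hIn : In R c (fun x => x = v) univ := ⟨v, mem_univ v, S, subset_univ S, hvS, rfl, hS⟩
  obtain ⟨f, hf1, -, hf2, hf3⟩ := hc5 hIn
  exact ⟨f, hf1, hf3, hf2⟩

end AEX
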