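import Pool.Agent.AEX.Defs
import Pool.Agent.LTT.Label

/-!
# Ordered sums of expanding tournaments: from trees to forests, splitting a forest into an upper part and the rest
-/

namespace AEX

open Finset AE15 AED AELT LTT
open scoped Classical

variable {V : Type*} {R : V → V → Prop}

/-! ## Lists of unrooted trees (given by the children forests of their roots) -/

/-- disjoint copies of the trees of the list which cover `S` -/
def EmbU (R : V → V → Prop) : List Fd → Finset V → Prop
  | [], S => S = ∅
  | c :: L, S => ∃ x A S', x ∉ A ∧ Emb R c x A ∧ Disjoint (insert x A) S' ∧ S = insert x A ∪ S' ∧ EmbU R L S'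

/-- number of vertices of a list of trees -/
def usz (L : List Fd) : ℕ := (L.map (fun c => c.size + 1)).sum

theorem usz_nil : usz [] = 0 := rfl

theorem usz_cons (c : Fd) (L : List Fd) : usz (c :: L) = c.size + 1 + usz L := by simp [usz]

theorem usz_append (L M : List Fd) : usz (L ++ M) = usz L + usz M := by simp [usz]

/-- attach the tree `p` at the leaf reached by first children -/
def att (p : Bool × Fd) : Fd → Fd
  | .nil => .node p.1 p.2 .nil
  | .node d c s => .node d (att p c) s

theorem att_size (p : Bool × Fd) (c : Fd) : (att p c).size = c.size + (p.2.size + 1) := by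
  induction c with
  | nil => simp [att, Fd.size]
  | node d c s ihc _ => simp only [att, Fd.size, ihc]; omega

theorem att_len (p : Bool × Fd) (c : Fd) : (att p c).len ≤ max c.len 1 := by
  cases c with
  | nil => simp [att, Fd.len]
  | node d c s => simp [att, Fd.len]

theorem att_deg {b : ℕ} (hb : 1 ≤ b) {p : Bool × Fd} (hp : p.2.len ≤ b ∧ p.2.Deg b) (c : Fd) (h : c.Deg b) :
    (att p c).Deg b := by
  induction c with
  | nil => exact ⟨hp.1, hp.2, trivial⟩
  | node d c s ihc _ =>
    obtain ⟨h1, h2, h3⟩ := h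
    exact ⟨(att_len p c).trans (max_le h1 hb), ihc h2, h3⟩

theorem att_emb {p : Bool × Fd} (c : Fd) : ∀ (x : V) (S : Finset V), Emb R (att p c) x S →
    ∃ A y B, y ∉ B ∧ Emb R c x A ∧ Emb R p.2 y B ∧ Disjoint A (insert y B) ∧ S = A ∪ insert y B := by
  induction c with
  | nil =>
    rintro x S ⟨y, B, B', h1, h2, h3, h4, h5, h6, h7⟩
    obtain rfl : B' = ∅ := h7
    refine ⟨∅, y, B, h2, rfl, h6, disjoint_empty_left _, ?_⟩
    rw [h5, union_empty, empty_union]
  | node d c s ihc _ =>
    rintro x S ⟨x1, A1, B1, h1, h2, h3, h4, h5, h6, h7⟩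
    obtain ⟨A, y, B, e1, e2, e3, e4, e5⟩ := ihc x1 A1 h6
    subst e5
    rw [mem_union, not_or] at h2
    rw [disjoint_union_left] at h4
    refine ⟨insert x1 (A ∪ B1), y, B, e1, ⟨x1, A, B1, h1, h2.1, h3, h4.1, rfl, e2, h7⟩, e3, ?_, ?_⟩
    · rw [disjoint_insert_left, disjoint_union_left]
      exact ⟨h2.2, e4, h4.2.symm⟩
    · rw [h5]
      ext u
      simp only [mem_insert, mem_union]
      tauto

/-- the trees of a list joined to one tree -/
def join : Fd → List Fd → Fd
  | c, [] => c
  | c, c' :: L => att (true, join c' L) c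

theorem join_size (c : Fd) (L : List Fd) : (join c L).size + 1 = usz (c :: L) := by
  induction L generalizing c with
  | nil => simp [join, usz]
  | cons c' L ih =>
    rw [join, att_size, usz_cons]
    have := ih c'
    simp only
    omega

theorem join_deg {b : ℕ} (hb : 1 ≤ b) (c : Fd) (L : List Fd) (h : ∀ c' ∈ c :: L, c'.len ≤ b ∧ c'.Deg b) :
    (join c L).len ≤ b ∧ (join c L).Deg b := by
  induction L generalizing c with
  | nil => exact h c (by simp)
  | cons c' L ih =>
    have h1 := ih c' (fun a ha => h a (List.mem_cons_of_mem _ ha))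
    have h2 := h c (by simp)
    exact ⟨(att_len _ c).trans (max_le h2.1 hb), att_deg hb h1 c h2.2⟩

theorem join_emb (c : Fd) (L : List Fd) (x : V) (S : Finset V) (hx : x ∉ S) (h : Emb R (join c L) x S) :
    EmbU R (c :: L) (insert x S) := by
  induction L generalizing c x S with
  | nil => exact ⟨x, S, ∅, hx, h, disjoint_empty_right _, (union_empty _).symm, rfl⟩
  | cons c' L ih =>
    obtain ⟨A, y, B, e1, e2, e3, e4, rfl⟩ := att_emb c x S h
    rw [mem_union, not_or] at hx
    have h1 := ih c' y B e1 e3
    refine ⟨x, A, insert y B, hx.1, e2, ?_, ?_, h1⟩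
    · rw [disjoint_insert_left]
      exact ⟨hx.2, e4⟩
    · rw [insert_union]

/-! ## The components of a labelled forest -/

/-- the component of the common vertex, and the other components with their labels -/
def spl : Bool → Fl → Fd × List (Bool × Fd)
  | _, .nil => (.nil, [])
  | p, .node d e c s =>
    if e = p then (.node d (spl e c).1 (spl p s).1, (spl e c).2 ++ (spl p s).2)
    else ((spl p s).1, (e, (spl e c).1) :: ((spl e c).2 ++ (spl p s).2))

/-- the trees of the list with label `e` are embedded in `A e`, all disjointly, and cover `S` -/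
def EmbC (R : V → V → Prop) (A : Bool → Finset V) : List (Bool × Fd) → Finset V → Prop
  | [], S => S = ∅
  | q :: L, S => ∃ x B S', x ∉ B ∧ Emb R q.2 x B ∧ insert x B ⊆ A q.1 ∧ Disjoint (insert x B) S' ∧
      S = insert x B ∪ S' ∧ EmbC R A L S'

theorem EmbC.append {A : Bool → Finset V} {L M : List (Bool × Fd)} {S : Finset V} (h : EmbC R A (L ++ M) S) :
    ∃ S₁ S₂, Disjoint S₁ S₂ ∧ S = S₁ ∪ S₂ ∧ EmbC R A L S₁ ∧ EmbC R A M S₂ := by
  induction L generalizing S with
  | nil => exact ⟨∅, S, disjoint_empty_left _, (empty_union _).symm, rfl, h⟩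
  | cons q L ih =>
    obtain ⟨x, B, S', h1, h2, h3, h4, rfl, h6⟩ := h
    obtain ⟨S₁, S₂, e1, rfl, e3, e4⟩ := ih h6
    rw [disjoint_union_right] at h4
    refine ⟨insert x B ∪ S₁, S₂, ?_, ?_, ⟨x, B, S₁, h1, h2, h3, h4.1, rfl, e3⟩, e4⟩
    · rw [disjoint_union_left]
      exact ⟨h4.2, e1⟩
    · rw [union_assoc]

theorem EmbC.sub {A : Bool → Finset V} {L : List (Bool × Fd)} {S : Finset V} (h : EmbC R A L S) :
    S ⊆ A true ∪ A false := by
  induction L generalizing S with
  | nil => rw [show S = ∅ from h]; exact empty_subset _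
  | cons q L ih =>
    obtain ⟨x, B, S', h1, h2, h3, h4, rfl, h6⟩ := h
    refine union_subset (h3.trans ?_) (ih h6)
    cases q.1
    · exact subset_union_right
    · exact subset_union_left

/-- the components together, when all arcs between the two sides go from `A true` to `A false` -/
theorem spl_emb {A : Bool → Finset V} (hA : ∀ x ∈ A true, ∀ y ∈ A false, R x y) (F : Fl) :
    ∀ (p : Bool), F.Ok true p → ∀ (x : V) (P Q : Finset V), x ∈ A p → P ⊆ A p → x ∉ P → Emb R (spl p F).1 x P →
      EmbC R A (spl p F).2 Q → Disjoint (insert x P) Q → Emb R F.un x (P ∪ Q) := by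
  induction F with
  | nil =>
    intro p _ x P Q _ _ _ hE hC _
    obtain rfl : P = ∅ := hE
    obtain rfl : Q = ∅ := hC
    exact (union_empty _)
  | node d e c s ihc ihs =>
    intro p hok x P Q hx hP hxP hE hC hD
    obtain ⟨k1, k2, k3⟩ := hok
    by_cases h : e = p
    · subst h
      simp only [spl, if_true] at hE hC
      obtain ⟨x1, A1, B1, h1, h2, h3, h4, rfl, h6, h7⟩ := hE
      obtain ⟨Q1, Q2, e1, rfl, e3, e4⟩ := hC.append
      simp only [disjoint_insert_left, disjoint_union_left, disjoint_union_right] at hD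
      simp only [insert_subset_iff, union_subset_iff] at hP
      simp only [mem_insert, mem_union, not_or] at hxP
      have i1 := ihc e k2 x1 A1 Q1 hP.1 hP.2.1 h2 h6 e3 (by
        rw [disjoint_insert_left]; tauto)
      have i2 := ihs e k3 x B1 Q2 hx hP.2.2 (by tauto) h7 e4 (by
        rw [disjoint_insert_left]; tauto)
      refine ⟨x1, A1 ∪ Q1, B1 ∪ Q2, h1, ?_, ?_, ?_, ?_, i1, i2⟩
      · rw [mem_union]; tauto
      · rw [mem_union]; tauto
      · simp only [disjoint_union_left, disjoint_union_right]
        exact ⟨⟨h4, (by tauto : Disjoint B1 Q1).symm⟩, by tauto, e1⟩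
      · ext u
        simp only [mem_insert, mem_union]
        tauto
    · simp only [spl, if_neg h] at hE hC
      obtain ⟨y, B, S', h1, h2, h3, h4, rfl, h6⟩ := hC
      obtain ⟨Q1, Q2, e1, rfl, e3, e4⟩ := h6.append
      simp only [disjoint_insert_left, disjoint_union_right, mem_insert, not_or,
        disjoint_insert_right] at hD h4
      rw [insert_subset_iff] at h3
      have i1 := ihc e k2 y B Q1 h3.1 h3.2 h1 h2 e3 (by
        rw [disjoint_insert_left]; tauto)
      have i2 := ihs p k3 x P Q2 hx hP hxP hE e4 (by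
        rw [disjoint_insert_left]; tauto)
      have hadj : Adj R d x y := by
        cases p <;> cases e <;> cases d <;> simp_all [Adj]
      refine ⟨y, B ∪ Q1, P ∪ Q2, hadj, ?_, ?_, ?_, ?_, i1, i2⟩
      · rw [mem_union]; tauto
      · rw [mem_union]; tauto
      · simp only [disjoint_union_left, disjoint_union_right]
        exact ⟨⟨(by tauto : Disjoint P B).symm, (by tauto : Disjoint P Q1).symm⟩, by tauto, e1⟩
      · ext u
        simp only [mem_insert, mem_union]
        tauto

/-! ## Splitting a list of trees -/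

/-- all components of a labelled tree (label of the root, labelled children forest) -/
def cmp (q : Bool × Fl) : List (Bool × Fd) := (q.1, (spl q.1 q.2).1) :: (spl q.1 q.2).2

/-- number of vertices of the labelled components with label `j` -/
def csz (j : Bool) (L : List (Bool × Fd)) : ℕ := (L.map (fun q => if q.1 = j then q.2.size + 1 else 0)).sum

theorem csz_cons (j : Bool) (q : Bool × Fd) (L : List (Bool × Fd)) :
    csz j (q :: L) = (if q.1 = j then q.2.size + 1 else 0) + csz j L := by simp [csz]

theorem csz_append (j : Bool) (L M : List (Bool × Fd)) : csz j (L ++ M) = csz j L + csz j M := by simp [csz]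

/-- number of vertices with label `j` -/
def lab (j : Bool) : Fl → ℕ
  | .nil => 0
  | .node _ e c s => (if e = j then 1 else 0) + lab j c + lab j s

theorem lab_true (F : Fl) : lab true F = F.cnt := by
  induction F with
  | nil => rfl
  | node d e c s ihc ihs => simp [lab, Fl.cnt, ihc, ihs]

theorem lab_add (F : Fl) : lab true F + lab false F = F.un.size := by
  induction F with
  | nil => rfl
  | node d e c s ihc ihs => cases e <;> simp [lab, Fl.un, Fd.size] <;> omega

theorem spl_size (F : Fl) : ∀ (p j : Bool), (if p = j then (spl p F).1.size else 0) + csz j (spl p F).2 = lab j F := by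
  induction F with
  | nil => intro p j; simp [spl, csz, lab, Fd.size]
  | node d e c s ihc ihs =>
    intro p j
    have h1 := ihc e j
    have h2 := ihs p j
    by_cases h : e = p
    · subst h
      simp only [spl, if_true, csz_append, lab, Fd.size]
      by_cases hj : e = j
      · simp only [hj, if_true] at h1 h2 ⊢
        omega
      · simp only [if_neg hj] at h1 h2 ⊢
        omega
    · simp only [spl, if_neg h, csz_cons, csz_append, lab]
      by_cases hj : e = j
      · subst hj
        have hp : ¬ p = e := fun h' => h h'.symm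
        simp only [if_true, if_neg hp] at h1 h2 ⊢
        omega
      · simp only [if_neg hj] at h1 h2 ⊢
        omega

theorem spl_deg {b : ℕ} (F : Fl) : ∀ p : Bool, F.un.Deg b →
    (spl p F).1.len ≤ F.un.len ∧ (spl p F).1.Deg b ∧ ∀ q ∈ (spl p F).2, q.2.len ≤ b ∧ q.2.Deg b := by
  induction F with
  | nil => intro p _; simp [spl, Fd.len, Fd.Deg]
  | node d e c s ihc ihs =>
    rintro p ⟨h1, h2, h3⟩
    obtain ⟨c1, c2, c3⟩ := ihc e h2
    obtain ⟨s1, s2, s3⟩ := ihs p h3
    by_cases h : e = p
    · subst h
      simp only [spl, if_true, Fl.un, Fd.len, Fd.Deg, List.mem_append]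
      refine ⟨by omega, ⟨c1.trans h1, c2, s2⟩, ?_⟩
      rintro q (hq | hq)
      · exact c3 q hq
      · exact s3 q hq
    · simp only [spl, if_neg h, Fl.un, Fd.len, List.mem_cons, List.mem_append]
      refine ⟨by omega, s2, ?_⟩
      rintro q (rfl | hq | hq)
      · exact ⟨c1.trans h1, c2⟩
      · exact c3 q hq
      · exact s3 q hq

/-- a labelled tree embedded by its components -/
theorem cmp_emb {A : Bool → Finset V} (hA : ∀ x ∈ A true, ∀ y ∈ A false, R x y) (q : Bool × Fl)
    (hq : q.2.Ok true q.1) {S : Finset V} (h : EmbC R A (cmp q) S) :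
    ∃ x P, x ∉ P ∧ S = insert x P ∧ Emb R q.2.un x P := by
  obtain ⟨x, B, S', h1, h2, h3, h4, rfl, h6⟩ := h
  rw [insert_subset_iff] at h3
  rw [disjoint_insert_left] at h4
  refine ⟨x, B ∪ S', ?_, insert_union x B S', spl_emb hA q.2 q.1 hq x B S' h3.1 h3.2 h1 h2 h6
    (disjoint_insert_left.2 h4)⟩
  rw [mem_union]
  tauto

theorem cmps_emb {A : Bool → Finset V} (hA : ∀ x ∈ A true, ∀ y ∈ A false, R x y) (L : List (Bool × Fl))
    (hL : ∀ q ∈ L, q.2.Ok true q.1) {S : Finset V} (h : EmbC R A (L.flatMap cmp) S) :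
    EmbU R (L.map (fun q => q.2.un)) S := by
  induction L generalizing S with
  | nil => exact h
  | cons q L ih =>
    rw [List.flatMap_cons] at h
    obtain ⟨S₁, S₂, h1, rfl, h3, h4⟩ := h.append
    obtain ⟨x, P, e1, rfl, e3⟩ := cmp_emb hA q (hL q (by simp)) h3
    exact ⟨x, P, S₂, e1, e3, h1, rfl, ih (fun q' hq' => hL q' (List.mem_cons_of_mem _ hq')) h4⟩

/-- embedding the components of the two labels separately -/
theorem embC_of {A : Bool → Finset V} (hd : Disjoint (A true) (A false)) (L : List (Bool × Fd)) :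
    ∀ (S₁ S₀ : Finset V), S₁ ⊆ A true → S₀ ⊆ A false →
      EmbU R ((L.filter (fun q => q.1)).map Prod.snd) S₁ → EmbU R ((L.filter (fun q => !q.1)).map Prod.snd) S₀ →
        EmbC R A L (S₁ ∪ S₀) := by
  induction L with
  | nil =>
    intro S₁ S₀ _ _ h1 h0
    obtain rfl : S₁ = ∅ := h1
    obtain rfl : S₀ = ∅ := h0
    exact union_empty _
  | cons q L ih =>
    intro S₁ S₀ k1 k0 h1 h0
    obtain ⟨e, c⟩ := q
    cases e
    · simp only [List.filter_cons, Bool.false_eq_true, if_false, Bool.not_false, if_true, List.map_cons] at h1 h0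
      obtain ⟨x, B, S', e1, e2, e3, rfl, e5⟩ := h0
      rw [union_subset_iff] at k0
      refine ⟨x, B, S₁ ∪ S', e1, e2, k0.1, ?_, ?_, ih S₁ S' k1 k0.2 h1 e5⟩
      · rw [disjoint_union_right]
        exact ⟨(disjoint_of_subset_left k1 (disjoint_of_subset_right k0.1 hd)).symm, e3⟩
      · ext u
        simp only [mem_union]
        tauto
    · simp only [List.filter_cons, if_true, Bool.not_true, Bool.false_eq_true, if_false, List.map_cons] at h1 h0
      obtain ⟨x, B, S', e1, e2, e3, rfl, e5⟩ := h1
      rw [union_subset_iff] at k1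
      refine ⟨x, B, S' ∪ S₀, e1, e2, k1.1, ?_, ?_, ih S' S₀ k1.2 k0 e5 h0⟩
      · rw [disjoint_union_right]
        exact ⟨e3, disjoint_of_subset_left k1.1 (disjoint_of_subset_right k0 hd)⟩
      · rw [union_assoc]

theorem usz_filter (j : Bool) (L : List (Bool × Fd)) : usz ((L.filter (fun q => q.1 = j)).map Prod.snd) = csz j L := by
  induction L with
  | nil => rfl
  | cons q L ih =>
    by_cases h : q.1 = j
    · rw [List.filter_cons_of_pos (by simpa using h), List.map_cons, usz_cons, ih, csz_cons, if_pos h]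
    · rw [List.filter_cons_of_neg (by simpa using h), ih, csz_cons, if_neg h, zero_add]

/-- every tree has an upper set of every size -/
theorem exists_lab (c : Fd) (k : ℕ) (hk : k ≤ c.size + 1) : ∃ (p : Bool) (F : Fl), F.un = c ∧ F.Ok true p ∧
    (if p = true then 1 else 0) + F.cnt = k := by
  have h1 := rch_add_le c true
  obtain ⟨g1, g2⟩ := exists_label true c
  by_cases h : k + rch true c ≤ c.size
  · obtain ⟨F, f1, f2, f3, -⟩ := g1 k h
    exact ⟨false, F, f1, f2, by simp [f3]⟩
  · obtain ⟨F, f1, f2, f3⟩ := g2 (k - 1) (by simp only [Bool.not_true] at h1 ⊢; omega) (by omega)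
    exact ⟨true, F, f1, f2, by simp only [if_true, f3]; omega⟩

/-- a list of trees has an upper set of every size -/
theorem exists_labs (L : List Fd) (k : ℕ) (hk : k ≤ usz L) : ∃ M : List (Bool × Fl), M.map (fun q => q.2.un) = L ∧
    (∀ q ∈ M, q.2.Ok true q.1) ∧ csz true (M.flatMap cmp) = k ∧ csz false (M.flatMap cmp) = usz L - k := by
  induction L generalizing k with
  | nil =>
    have : k = 0 := by simpa [usz] using hk
    subst this
    exact ⟨[], rfl, by simp, rfl, rfl⟩
  | cons c L ih =>
    rw [usz_cons] at hk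
    obtain ⟨M, m1, m2, m3, m4⟩ := ih (k - min k (c.size + 1)) (by omega)
    obtain ⟨p, F, f1, f2, f3⟩ := exists_lab c (min k (c.size + 1)) (by omega)
    refine ⟨(p, F) :: M, by simp [m1, f1], ?_, ?_, ?_⟩
    · intro q hq
      rcases List.mem_cons.1 hq with rfl | hq
      · exact f2
      · exact m2 q hq
    · have h1 := spl_size F p true
      rw [List.flatMap_cons, csz_append, m3, cmp, csz_cons]
      rw [lab_true] at h1
      by_cases hp : p = true
      · simp only [hp, if_true] at h1 f3 ⊢
        omega
      · simp only [if_neg hp] at h1 f3 ⊢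
        omega
    · have h1 := spl_size F p false
      have h2 := lab_add F
      rw [List.flatMap_cons, csz_append, m4, cmp, csz_cons, usz_cons]
      rw [lab_true, f1] at h2
      by_cases hp : p = true
      · have hp' : ¬ p = false := by simp [hp]
        simp only [hp, if_true] at f3
        simp only [if_neg hp'] at h1 ⊢
        omega
      · have hp' : p = false := by simpa using hp
        simp only [if_neg hp] at f3
        simp only [hp', if_true] at h1 ⊢
        omega

theorem cmps_deg {b : ℕ} (M : List (Bool × Fl)) (h : ∀ q ∈ M, q.2.un.len ≤ b ∧ q.2.un.Deg b) :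
    ∀ q ∈ M.flatMap cmp, q.2.len ≤ b ∧ q.2.Deg b := by
  intro q hq
  obtain ⟨q', h1, h2⟩ := List.mem_flatMap.1 hq
  obtain ⟨e1, e2, e3⟩ := spl_deg (b := b) q'.2 q'.1 (h q' h1).2
  rcases List.mem_cons.1 h2 with rfl | h2
  · exact ⟨e1.trans (h q' h1).1, e2⟩
  · exact e3 q h2

/-- **Splitting**: if the first part takes every list of trees of total size `k` and the second every list of the
remaining size, the sum takes the list `L` -/
theorem split {b : ℕ} {X₁ X₀ : Finset V} (hd : Disjoint X₁ X₀) (hR : ∀ x ∈ X₁, ∀ y ∈ X₀, R x y) (L : List Fd)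
    (hL : ∀ c ∈ L, c.len ≤ b ∧ c.Deg b) (k : ℕ) (hk : k ≤ usz L)
    (h1 : ∀ M : List Fd, (∀ c ∈ M, c.len ≤ b ∧ c.Deg b) → usz M = k → ∃ S ⊆ X₁, EmbU R M S)
    (h0 : ∀ M : List Fd, (∀ c ∈ M, c.len ≤ b ∧ c.Deg b) → usz M = usz L - k → ∃ S ⊆ X₀, EmbU R M S) :
    ∃ S ⊆ X₁ ∪ X₀, EmbU R L S := by
  obtain ⟨M, m1, m2, m3, m4⟩ := exists_labs L k hk
  have hM : ∀ q ∈ M, q.2.un.len ≤ b ∧ q.2.un.Deg b := by
    intro q hq
    refine hL _ ?_
    rw [← m1]
    exact List.mem_map.2 ⟨q, hq, rfl⟩
  have hdg := cmps_deg M hM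
  obtain ⟨S₁, s1, s2⟩ := h1 (((M.flatMap cmp).filter (fun q => q.1)).map Prod.snd) (by
    intro c hc
    obtain ⟨q, hq, rfl⟩ := List.mem_map.1 hc
    exact hdg q (List.mem_filter.1 hq).1) (by
    have := usz_filter true (M.flatMap cmp)
    rw [m3] at this
    rw [← this]
    congr 2
    refine List.filter_congr fun q _ => ?_
    cases q.1 <;> simp)
  obtain ⟨S₀, t1, t2⟩ := h0 (((M.flatMap cmp).filter (fun q => !q.1)).map Prod.snd) (by
    intro c hc
    obtain ⟨q, hq, rfl⟩ := List.mem_map.1 hc
    exact hdg q (List.mem_filter.1 hq).1) (by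
    have := usz_filter false (M.flatMap cmp)
    rw [m4] at this
    rw [← this]
    congr 2
    refine List.filter_congr fun q _ => ?_
    cases q.1 <;> simp)
  have e1 := embC_of (R := R) (A := fun j => if j then X₁ else X₀) (by simpa using hd) (M.flatMap cmp) S₁ S₀
    (by simpa using s1) (by simpa using t1) s2 t2
  have e2 := cmps_emb (R := R) (A := fun j => if j then X₁ else X₀) (by simpa using hR) M m2 e1
  rw [m1] at e2
  exact ⟨S₁ ∪ S₀, union_subset_union s1 t1, e2⟩

end AEX
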