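import Pool.Agent.AEX.SumMain

/-!
# Tournaments with expanding strong components: the final statement from the chain
-/

namespace AEX

open Finset AE15 AED AELT LTT Relation
open scoped Classical

section strong

variable {n : ℕ} {R : Fin n → Fin n → Prop}

/-- the strong component of `v` -/
def comp (R : Fin n → Fin n → Prop) (v : Fin n) : Set (Fin n) := {u | ReflTransGen R v u ∧ ReflTransGen R u v}

/-- the vertices which are reached from `v` -/
noncomputable def rset (R : Fin n → Fin n → Prop) (v : Fin n) : Finset (Fin n) := univ.filter (fun u => ReflTransGen R v u)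

/-- the level of a vertex: the vertices of a strong component have the same level, and the arcs go up -/
noncomputable def lev (R : Fin n → Fin n → Prop) (v : Fin n) : ℕ := n - (rset R v).card

theorem mem_rset {v u : Fin n} : u ∈ rset R v ↔ ReflTransGen R v u := by simp [rset]

theorem rset_sub {v u : Fin n} (h : ReflTransGen R v u) : rset R u ⊆ rset R v := by
  intro w hw
  rw [mem_rset] at hw ⊢
  exact h.trans hw

theorem rset_le (v : Fin n) : (rset R v).card ≤ n := by
  have := card_le_univ (rset R v)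
  rwa [Fintype.card_fin] at this

theorem lev_le {v u : Fin n} (h : ReflTransGen R v u) : lev R v ≤ lev R u := by
  have := card_le_card (rset_sub h)
  unfold lev
  omega

theorem lev_lt {v u : Fin n} (h : ReflTransGen R v u) (h' : ¬ ReflTransGen R u v) : lev R v < lev R u := by
  have h1 : rset R u ⊂ rset R v := by
    refine ⟨rset_sub h, fun h2 => h' ?_⟩
    exact mem_rset.1 (h2 (mem_rset.2 ReflTransGen.refl))
  have h2 := card_lt_card h1
  have h3 := rset_le (R := R) v
  unfold lev
  omega

theorem lev_arc (h2 : ∀ a b, a ≠ b → R a b ∨ R b a) {x y : Fin n} (h : lev R x < lev R y) : R x y := by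
  have hne : x ≠ y := by
    rintro rfl
    exact lt_irrefl _ h
  rcases h2 x y hne with h1 | h1
  · exact h1
  · exact absurd (lev_le (ReflTransGen.single h1)) (not_le.2 h)

theorem lev_eq_iff (h2 : ∀ a b, a ≠ b → R a b ∨ R b a) {x y : Fin n} : lev R y = lev R x ↔ y ∈ comp R x := by
  constructor
  · intro h
    by_cases hxy : x = y
    · subst hxy
      exact ⟨ReflTransGen.refl, ReflTransGen.refl⟩
    · rcases h2 x y hxy with h1 | h1
      · refine ⟨ReflTransGen.single h1, ?_⟩
        by_contra h3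
        have := lev_lt (ReflTransGen.single h1) h3
        omega
      · refine ⟨?_, ReflTransGen.single h1⟩
        by_contra h3
        have := lev_lt (ReflTransGen.single h1) h3
        omega
  · rintro ⟨h3, h4⟩
    exact le_antisymm (lev_le h4) (lev_le h3)

end strong

theorem long_run {k : ℕ} (d : Fin (k + 1) → ℕ) (f : ℕ → Fin (k + 1))
    (h : ∀ i ≤ k + 1, d (f i) = d (f (i + 1)) + 1) : False := by
  have h1 : ∀ i ≤ k + 1, d (f i) + i = d (f 0) := by
    intro i hi
    induction i with
    | zero => rfl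
    | succ i ih =>
      have h2 := ih (by omega)
      have h3 := h i (by omega)
      omega
  obtain ⟨i, j, hij, hne⟩ : ∃ i j : Fin (k + 2), i ≠ j ∧ f i = f j := by
    have h2 : ¬ Function.Injective (fun i : Fin (k + 2) => f i) := by
      intro hinj
      have := Fintype.card_le_of_injective _ hinj
      simp only [Fintype.card_fin] at this
      omega
    unfold Function.Injective at h2
    push Not at h2
    obtain ⟨i, j, h3, h4⟩ := h2
    exact ⟨i, j, h4, h3⟩
  have e1 := h1 i (by have := i.2; omega)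
  have e2 := h1 j (by have := j.2; omega)
  rw [hne] at e1
  apply hij
  apply Fin.ext
  omega

/-- the expansion of a set of vertices in terms of finite sets -/
theorem ex_of_comp {n : ℕ} {R : Fin n → Fin n → Prop} {θ : ℝ} {Y : Finset (Fin n)} {Y' : Set (Fin n)}
    (hY : ∀ x, x ∈ Y ↔ x ∈ Y')
    (h : ∀ S : Set (Fin n), S ⊆ Y' → θ * n * (min S.ncard (Y' \ S).ncard : ℕ) ≤
      ({p : Fin n × Fin n | p.1 ∈ S ∧ p.2 ∈ Y' \ S ∧ R p.1 p.2}.ncard : ℝ)) {a : ℝ} (ha : a ≤ θ * n) :
    Ex R a Y := by
  intro S hS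
  have key : ∀ T : Finset (Fin n), (∀ x, x ∈ T ↔ x ∈ Y ∧ x ∉ S) → a * (min S.card T.card : ℕ) ≤ (ar R S T : ℝ) := by
    intro T hT
    have h1 := h (S : Set (Fin n)) (fun x hx => (hY x).1 (hS hx))
    have e1 : (Y' \ (S : Set (Fin n))) = (T : Set (Fin n)) := by
      ext x
      simp [hT, hY]
    have e2 : {p : Fin n × Fin n | p.1 ∈ (S : Set (Fin n)) ∧ p.2 ∈ Y' \ (S : Set (Fin n)) ∧ R p.1 p.2}
        = (((S ×ˢ T).filter (fun p => R p.1 p.2) : Finset (Fin n × Fin n)) : Set (Fin n × Fin n)) := by
      rw [e1]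
      ext p
      simp only [Set.mem_ofPred_eq, mem_coe, mem_filter, mem_product, and_assoc]
    rw [e2, e1, Set.ncard_coe_finset, Set.ncard_coe_finset, Set.ncard_coe_finset] at h1
    have e3 : ((S ×ˢ T).filter (fun p => R p.1 p.2)).card = ar R S T := by
      unfold ar
      rw [card_filter, sum_product]
      refine sum_congr rfl fun s _ => ?_
      rw [← card_filter]
      rfl
    rw [e3] at h1
    exact (mul_le_mul_of_nonneg_right ha (Nat.cast_nonneg _)).trans h1
  exact key _ (fun x => by simp)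

/-- the final statement from the statement of the chain with `b = Δ + 1` and `min θ 1` -/
theorem sum_final (Δ : ℕ) {θ : ℝ} (hθ : 0 < θ) {C : ℕ} (hC : ChainSt (Δ + 1) (min θ 1) C) : ∃ C' : ℕ,
    ∀ k n : ℕ, k + C' ≤ n → ∀ R : Fin n → Fin n → Prop,
    (∀ a, ¬ R a a) → (∀ a b, a ≠ b → R a b ∨ R b a) → (∀ a b, R a b → ¬ R b a) →
    (∀ v : Fin n, ∀ S : Set (Fin n), S ⊆ comp R v → θ * n * (min S.ncard (comp R v \ S).ncard : ℕ) ≤
      ({p : Fin n × Fin n | p.1 ∈ S ∧ p.2 ∈ comp R v \ S ∧ R p.1 p.2}.ncard : ℝ)) →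
    ∀ E : Fin (k + 1) → Fin (k + 1) → Prop,
      (∀ a b, E a b → ¬ E b a) →
      (SimpleGraph.fromRel E).IsTree →
      (∀ v, ((SimpleGraph.fromRel E).neighborSet v).ncard ≤ Δ) →
        (∃ f : Fin (k + 1) → Fin n, Function.Injective f ∧ ∀ a b, E a b → R (f a) (f b)) ∧
        ((∀ u w, ReflTransGen R u w) → ∀ (r : Fin (k + 1)) (v : Fin n),
          ∃ f : Fin (k + 1) → Fin n, Function.Injective f ∧ (∀ a b, E a b → R (f a) (f b)) ∧ f r = v) := by
  have hθ' : 0 < min θ 1 := lt_min hθ one_pos
  obtain ⟨C', hC'⟩ := sum_main (Nat.le_add_left 1 Δ) hθ' hC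
  refine ⟨max C C' + 1, ?_⟩
  intro k n hn R h1 h2 h3 hS E h4 h5 h6
  have hT : AE32.Tour R := ⟨h1, h2, h3⟩
  have h6' : ∀ v, {w | E v w ∨ E w v}.ncard ≤ Δ + 1 := by
    intro v
    refine le_trans (le_of_eq ?_) ((h6 v).trans (Nat.le_succ Δ))
    congr 1
    ext w
    simp only [Set.mem_ofPred_eq, SimpleGraph.mem_neighborSet, SimpleGraph.fromRel_adj]
    constructor
    · intro h
      refine ⟨?_, h⟩
      rintro rfl
      rcases h with h | h <;> exact h4 _ _ h h
    · exact fun h => h.2
  have hle : ∀ x : ℝ, 0 ≤ x → min θ 1 * x ≤ θ * x := fun x hx => mul_le_mul_of_nonneg_right (min_le_left θ 1) hx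
  have hcode : ∀ r : Fin (k + 1), ∃ c : Fd, c.size = k ∧ AEB.FOK (Δ + 1) (k + 1) 0 c ∧
      ∀ {V : Type} {R : V → V → Prop} {N : V → Prop} {X : Finset V}, In R c N X →
        ∃ f : Fin (k + 1) → V, Function.Injective f ∧ (∀ a, f a ∈ X) ∧ N (f r) ∧ ∀ a c, E a c → R (f a) (f c) :=
    fun r => AEB.glueB (l := k + 1) h4 h5 h6' r (fun f hf =>
      long_run (fun x => (SimpleGraph.fromRel E).dist r x) f (fun i hi => (hf i hi).2))
  constructor
  · obtain ⟨c, c1, ⟨c2, c3, -⟩, c4⟩ := hcode 0
    have hIn := hC' hT (lev R) univ (fun x _ y _ hxy => lev_arc h2 hxy) (by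
      intro j
      rcases (univ.filter (fun v => lev R v = j)).eq_empty_or_nonempty with he | ⟨x, hx⟩
      · rw [he]
        intro S hS
        rw [subset_empty.1 hS]
        simp [ar]
      · rw [mem_filter] at hx
        refine ex_of_comp (Y' := comp R x) (fun y => ?_) (hS x) ?_
        · rw [mem_filter, ← hx.2]
          simp only [mem_univ, true_and]
          exact lev_eq_iff h2
        · rw [card_univ, Fintype.card_fin]
          exact hle _ (Nat.cast_nonneg _)) c c2 c3 (by
      rw [card_univ, Fintype.card_fin]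
      have := le_max_right C C'
      omega)
    obtain ⟨f, f1, -, -, f4⟩ := c4 hIn
    exact ⟨f, f1, f4⟩
  · intro hst r v
    obtain ⟨c, c1, ⟨c2, c3, -⟩, c4⟩ := hcode r
    obtain ⟨S, s1, s2, s3⟩ := hC (R := R) hT univ (by
      refine ex_of_comp (Y' := comp R v) (fun y => ?_) (hS v) ?_
      · simp only [mem_univ, true_iff]
        exact ⟨hst v y, hst y v⟩
      · rw [card_univ, Fintype.card_fin]
        exact hle _ (Nat.cast_nonneg _)) v (mem_univ v) c c2 c3 (by
      rw [card_univ, Fintype.card_fin]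
      have := le_max_left C C'
      omega)
    obtain ⟨f, f1, -, f3, f4⟩ := c4 (R := R) (N := fun x => x = v) (X := univ) ⟨v, mem_univ v, S, s1, s2, rfl, s3⟩
    exact ⟨f, f1, f4, f3⟩

end AEX
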