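import Pool.Agent.AEX.Sum
import Pool.Agent.AEB.GlueB

/-!
# Ordered sums of expanding tournaments and single vertices
-/

namespace AEX

open Finset AE15 AED AELT LTT
open scoped Classical

/-- the statement of the chain for `(b, θ)` with its constant -/
def ChainSt (b : ℕ) (θ : ℝ) (C : ℕ) : Prop := ∀ {V : Type} {R : V → V → Prop},
  AE32.Tour R → ∀ X : Finset V, Ex R (θ * X.card) X → ∀ y ∈ X, ∀ c : Fd, c.len ≤ b → c.Deg b →
    c.size + 1 + C ≤ X.card → ∃ S ⊆ X, y ∉ S ∧ Emb R c y S

variable {V : Type} {R : V → V → Prop}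

/-- forests in an expanding tournament -/
theorem forest_of {b C : ℕ} (hb : 1 ≤ b) {θ : ℝ} (hC : ChainSt b θ C) (hT : AE32.Tour R) {X : Finset V}
    (hX : Ex R (θ * X.card) X) (L : List Fd) (hL : ∀ c ∈ L, c.len ≤ b ∧ c.Deg b) (h : usz L + C ≤ X.card) :
    ∃ S ⊆ X, EmbU R L S := by
  cases L with
  | nil => exact ⟨∅, empty_subset _, rfl⟩
  | cons c L =>
    have h1 := join_size c L
    have h2 := join_deg hb c L hL
    obtain ⟨y, hy⟩ : X.Nonempty := by
      rw [← card_pos]; omega
    obtain ⟨S, s1, s2, s3⟩ := hC hT X hX y hy (join c L) h2.1 h2.2 (by omega)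
    exact ⟨insert y S, insert_subset hy s1, join_emb c L y S s2 s3⟩

theorem usz_zero {L : List Fd} (h : usz L = 0) : L = [] := by
  cases L with
  | nil => rfl
  | cons c L => rw [usz_cons] at h; omega

theorem fd_zero {c : Fd} (h : c.size = 0) : c = .nil := by
  cases c with
  | nil => rfl
  | node d c s => simp only [Fd.size] at h; omega

theorem ex_mono {a a' : ℝ} {Y : Finset V} (h : Ex R a Y) (ha : a' ≤ a) : Ex R a' Y := by
  intro S hS
  refine le_trans (mul_le_mul_of_nonneg_right ha ?_) (h S hS)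
  exact Nat.cast_nonneg _

/-- an expanding set with two elements is large -/
theorem card_of_ex {a : ℝ} {Y : Finset V} (h : Ex R a Y) (hY : 2 ≤ Y.card) : a ≤ Y.card := by
  obtain ⟨v, hv⟩ : Y.Nonempty := by
    rw [← card_pos]; omega
  have h1 := h {v} (singleton_subset_iff.2 hv)
  have h2 : 1 ≤ (Y \ {v}).card := by
    have h3 := card_sdiff_add_card_eq_card (singleton_subset_iff.2 hv)
    rw [card_singleton] at h3
    omega
  rw [card_singleton, min_eq_left h2] at h1
  have h4 : ar R {v} (Y \ {v}) ≤ Y.card := by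
    unfold ar
    rw [sum_singleton]
    exact (card_le_card nO_sub).trans (card_le_card sdiff_subset)
  have h5 : (ar R {v} (Y \ {v}) : ℝ) ≤ Y.card := by exact_mod_cast h4
  simpa using h1.trans h5

/-- number of classes with at least two elements -/
noncomputable def big (h : V → ℕ) (X : Finset V) : ℕ :=
  ((X.image h).filter (fun j => 2 ≤ (X.filter (fun v => h v = j)).card)).card

theorem big_mul {a : ℝ} (_ha : 0 ≤ a) {h : V → ℕ} {X : Finset V} (hE : ∀ j, Ex R a (X.filter (fun v => h v = j))) :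
    (big h X : ℝ) * a ≤ X.card := by
  have h1 : ∑ j ∈ X.image h, (X.filter (fun v => h v = j)).card = X.card :=
    (card_eq_sum_card_image h X).symm
  have h2 : (∑ j ∈ X.image h, ((X.filter (fun v => h v = j)).card : ℝ)) = X.card := by exact_mod_cast h1
  rw [← h2]
  have h3 : (big h X : ℝ) * a = ∑ j ∈ (X.image h).filter (fun j => 2 ≤ (X.filter (fun v => h v = j)).card), a := by
    rw [sum_const, nsmul_eq_mul]; rfl
  rw [h3]
  refine (sum_le_sum (fun j hj => card_of_ex (hE j) (mem_filter.1 hj).2)).trans ?_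
  exact sum_le_sum_of_subset_of_nonneg (filter_subset _ _) (fun _ _ _ => Nat.cast_nonneg _)

theorem sum_classes {b C : ℕ} (hb : 1 ≤ b) {θ : ℝ} (hθ : 0 ≤ θ) (hC : ChainSt b θ C) (hT : AE32.Tour R) {a : ℝ}
    (ha : (C : ℝ) + 2 ≤ a) (h : V → ℕ) (N : ℕ) : ∀ X : Finset V, (X.image h).card = N → θ * X.card ≤ a →
      (∀ x ∈ X, ∀ y ∈ X, h x < h y → R x y) → (∀ j, Ex R a (X.filter (fun v => h v = j))) →
        ∀ L : List Fd, (∀ c ∈ L, c.len ≤ b ∧ c.Deg b) → usz L + C * big h X ≤ X.card → ∃ S ⊆ X, EmbU R L S := by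
  induction N with
  | zero =>
    intro X hN _ _ _ L _ hL
    rw [card_eq_zero, image_eq_empty] at hN
    subst hN
    rw [card_empty] at hL
    have : L = [] := usz_zero (by omega)
    subst this
    exact ⟨∅, empty_subset _, rfl⟩
  | succ N ih =>
    intro X hN hθX hR hE L hdeg hL
    have hne : (X.image h).Nonempty := by
      rw [← card_pos]; omega
    obtain ⟨j₀, hj₀⟩ : ∃ j₀, j₀ = (X.image h).min' hne := ⟨_, rfl⟩
    have hmem : j₀ ∈ X.image h := by rw [hj₀]; exact min'_mem _ _
    have hmin : ∀ x ∈ X, j₀ ≤ h x := by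
      intro x hx
      rw [hj₀]
      exact min'_le _ _ (mem_image_of_mem h hx)
    obtain ⟨X₁, hX₁⟩ : ∃ X₁, X₁ = X.filter (fun v => h v = j₀) := ⟨_, rfl⟩
    obtain ⟨X₀, hX₀⟩ : ∃ X₀, X₀ = X.filter (fun v => ¬ h v = j₀) := ⟨_, rfl⟩
    have hd : Disjoint X₁ X₀ := by
      rw [hX₁, hX₀]; exact disjoint_filter_filter_not _ _ _
    have hU : X₁ ∪ X₀ = X := by
      rw [hX₁, hX₀]; exact filter_union_filter_not_eq _ _
    have hcard : X₁.card + X₀.card = X.card := by
      rw [← card_union_of_disjoint hd, hU]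
    have hR' : ∀ x ∈ X₁, ∀ y ∈ X₀, R x y := by
      intro x hx y hy
      rw [hX₁, mem_filter] at hx
      rw [hX₀, mem_filter] at hy
      refine hR x hx.1 y hy.1 ?_
      rw [hx.2]
      exact lt_of_le_of_ne (hmin y hy.1) (fun e => hy.2 e.symm)
    have him : X₀.image h = (X.image h).erase j₀ := by
      ext j
      rw [hX₀]
      simp only [mem_image, mem_filter, mem_erase]
      constructor
      · rintro ⟨x, ⟨h1, h2⟩, rfl⟩
        exact ⟨h2, x, h1, rfl⟩
      · rintro ⟨h1, x, h2, rfl⟩
        exact ⟨x, ⟨h2, h1⟩, rfl⟩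
    have hcls : ∀ j, j ≠ j₀ → X₀.filter (fun v => h v = j) = X.filter (fun v => h v = j) := by
      intro j hj
      ext v
      rw [hX₀]
      simp only [mem_filter]
      constructor
      · rintro ⟨⟨h1, -⟩, h3⟩
        exact ⟨h1, h3⟩
      · rintro ⟨h1, h3⟩
        exact ⟨⟨h1, by rw [h3]; exact hj⟩, h3⟩
    have hE₀ : ∀ j, Ex R a (X₀.filter (fun v => h v = j)) := by
      intro j
      by_cases hj : j = j₀
      · have : X₀.filter (fun v => h v = j) = ∅ := by
          rw [hX₀, hj, filter_filter]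
          exact filter_eq_empty_iff.2 (fun v _ hv => hv.1 hv.2)
        rw [this]
        intro S hS
        rw [subset_empty.1 hS]
        simp [ar]
      · rw [hcls j hj]
        exact hE j
    have hbig : big h X = big h X₀ + (if 2 ≤ X₁.card then 1 else 0) := by
      unfold big
      rw [him]
      have e1 : ((X.image h).erase j₀).filter (fun j => 2 ≤ (X₀.filter (fun v => h v = j)).card) =
          ((X.image h).filter (fun j => 2 ≤ (X.filter (fun v => h v = j)).card)).erase j₀ := by
        ext j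
        simp only [mem_filter, mem_erase]
        constructor
        · rintro ⟨⟨h1, h2⟩, h3⟩
          rw [hcls j h1] at h3
          exact ⟨h1, h2, h3⟩
        · rintro ⟨h1, h2, h3⟩
          rw [hcls j h1]
          exact ⟨⟨h1, h2⟩, h3⟩
      rw [e1]
      by_cases h2 : 2 ≤ X₁.card
      · rw [if_pos h2, card_erase_add_one]
        rw [mem_filter]
        exact ⟨hmem, by rw [← hX₁]; exact h2⟩
      · rw [if_neg h2, add_zero, erase_eq_of_notMem]
        rw [mem_filter, ← hX₁]
        exact fun h3 => h2 h3.2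
    have hN₀ : (X₀.image h).card = N := by
      rw [him, card_erase_of_mem hmem, hN]; rfl
    have hθ₀ : θ * X₀.card ≤ a := by
      have : (X₀.card : ℝ) ≤ X.card := by exact_mod_cast (by omega : X₀.card ≤ X.card)
      exact (mul_le_mul_of_nonneg_left this hθ).trans hθX
    have hR₀ : ∀ x ∈ X₀, ∀ y ∈ X₀, h x < h y → R x y := by
      intro x hx y hy
      exact hR x (hU ▸ mem_union_right _ hx) y (hU ▸ mem_union_right _ hy)
    have hX₁ne : X₁.Nonempty := by
      obtain ⟨x, hx, hxj⟩ := mem_image.1 hmem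
      exact ⟨x, by rw [hX₁]; exact mem_filter.2 ⟨hx, hxj⟩⟩
    have hX₁c : 0 < X₁.card := hX₁ne.card_pos
    have hE₁ : Ex R a X₁ := by rw [hX₁]; exact hE j₀
    have key : ∀ k, k ≤ usz L → (∀ M : List Fd, (∀ c ∈ M, c.len ≤ b ∧ c.Deg b) → usz M = k → ∃ S ⊆ X₁, EmbU R M S) →
        (k = usz L ∨ usz L - k + C * big h X₀ ≤ X₀.card) → ∃ S ⊆ X, EmbU R L S := by
      intro k hk h1 h2
      rw [← hU]
      refine split hd hR' L hdeg k hk h1 ?_
      intro M hM hMk
      rcases h2 with h2 | h2
      · have : M = [] := usz_zero (by omega)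
        subst this
        exact ⟨∅, empty_subset _, rfl⟩
      · exact ih X₀ hN₀ hθ₀ hR₀ hE₀ M hM (by rw [hMk]; exact h2)
    by_cases h2 : 2 ≤ X₁.card
    · rw [if_pos h2] at hbig
      have h3 : C + 2 ≤ X₁.card := by
        have : ((C + 2 : ℕ) : ℝ) ≤ X₁.card := by
          push_cast
          exact ha.trans (card_of_ex hE₁ h2)
        exact_mod_cast this
      refine key (min (usz L) (X₁.card - C)) (min_le_left _ _) ?_ ?_
      · intro M hM hMk
        refine forest_of hb hC hT (ex_mono hE₁ ?_) M hM (by omega)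
        have : (X₁.card : ℝ) ≤ X.card := by exact_mod_cast (by omega : X₁.card ≤ X.card)
        exact (mul_le_mul_of_nonneg_left this hθ).trans hθX
      · rcases le_total (usz L) (X₁.card - C) with h4 | h4
        · left
          exact min_eq_left h4
        · right
          rw [min_eq_right h4]
          rw [hbig, mul_add, mul_one] at hL
          omega
    · rw [if_neg h2, add_zero] at hbig
      have h3 : X₁.card = 1 := by omega
      obtain ⟨v, hv⟩ := card_eq_one.1 h3
      refine key (min (usz L) 1) (min_le_left _ _) ?_ ?_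
      · intro M hM hMk
        cases M with
        | nil => exact ⟨∅, empty_subset _, rfl⟩
        | cons c M =>
          rw [usz_cons] at hMk
          have e1 : M = [] := usz_zero (by omega)
          have e2 : c = .nil := fd_zero (by omega)
          subst e1
          subst e2
          refine ⟨{v}, by rw [hv], v, ∅, ∅, by simp, rfl, disjoint_empty_right _, by simp, rfl⟩
      · rcases Nat.eq_zero_or_pos (usz L) with h4 | h4
        · left
          rw [h4]; simp
        · right
          rw [min_eq_right (by omega)]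
          rw [hbig] at hL
          omega

/-- the statement for coded trees -/
theorem sum_main {b C : ℕ} (hb : 1 ≤ b) {θ : ℝ} (hθ : 0 < θ) (hC : ChainSt b θ C) : ∃ C' : ℕ,
    ∀ {V : Type} {R : V → V → Prop}, AE32.Tour R → ∀ (h : V → ℕ) (X : Finset V),
      (∀ x ∈ X, ∀ y ∈ X, h x < h y → R x y) → (∀ j, Ex R (θ * X.card) (X.filter (fun v => h v = j))) →
        ∀ c : Fd, c.len ≤ b → c.Deg b → c.size + 1 + C' ≤ X.card → In R c (fun _ => True) X := by
  obtain ⟨m, hm⟩ := exists_nat_ge (1 / θ)
  obtain ⟨n₀, hn₀⟩ := exists_nat_ge (((C : ℝ) + 2) / θ)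
  refine ⟨C * m + n₀, ?_⟩
  intro V R hT h X hR hE c hc1 hc2 hc
  have hX0 : (0 : ℝ) ≤ X.card := Nat.cast_nonneg _
  have ha : (C : ℝ) + 2 ≤ θ * X.card := by
    have h1 : (n₀ : ℝ) ≤ X.card := by exact_mod_cast (by omega : n₀ ≤ X.card)
    rw [div_le_iff₀ hθ] at hn₀
    nlinarith
  have hXpos : (0 : ℝ) < X.card := by
    have : 0 < X.card := by omega
    exact_mod_cast this
  have hbig : big h X ≤ m := by
    have h1 := big_mul (R := R) (h := h) (X := X) (a := θ * X.card) (by positivity) hE
    have h2 : (big h X : ℝ) * θ ≤ 1 := by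
      have h3 : ((big h X : ℝ) * θ) * X.card ≤ 1 * X.card := by nlinarith
      exact le_of_mul_le_mul_right h3 hXpos
    have h4 : (big h X : ℝ) ≤ 1 / θ := by rwa [le_div_iff₀ hθ]
    exact_mod_cast h4.trans hm
  have h5 : C * big h X ≤ C * m := Nat.mul_le_mul_left _ hbig
  obtain ⟨S, s1, x, A, S', e1, e2, e3, e4, e5⟩ := sum_classes hb hθ.le hC hT ha h _ X rfl le_rfl hR hE [c]
    (by simpa using ⟨hc1, hc2⟩) (by
      have : usz [c] = c.size + 1 := by simp [usz]
      omega)
  subst e4
  exact ⟨x, s1 (by simp), A, fun u hu => s1 (by simp [hu]), e1, trivial, e2⟩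

end AEX
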